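import Pool.Agent.H566V.Str

/-!
Blocks: finite sets having infinitely many disjoint copies such that exchanging two copies is an
automorphism.  The commutator lemma and indecomposable blocks.
-/

set_option autoImplicit false

namespace Pool.Agent.H566V

open Set Filter Topology

variable {r : ℕ} {K U U' : Type}

/-- invariance of a structure under a map -/
def Aut (c : Str r K U) (s : U → U) : Prop := ∀ t : Fin r → U, c (s ∘ t) = c t

theorem Aut.comp {c : Str r K U} {s s' : U → U} (h : Aut c s) (h' : Aut c s') : Aut c (s ∘ s') :=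
  fun t => (h (s' ∘ t)).trans (h' t)

theorem Aut.id (c : Str r K U) : Aut c _root_.id := fun _ => rfl

open Classical in
/-- exchange the elements `h i a` and `h j a` for `a ∈ X` -/
noncomputable def swp (X : Finset U) (h : ℕ → U → U) (i j : ℕ) (u : U) : U :=
  if H : ∃ a ∈ X, h i a = u then h j H.choose
  else if H : ∃ a ∈ X, h j a = u then h i H.choose else u

/-- the copies are disjoint -/
def HInj (X : Finset U) (h : ℕ → U → U) : Prop :=
  ∀ i j, ∀ a ∈ X, ∀ b ∈ X, h i a = h j b → i = j ∧ a = b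

theorem HInj.mono {X Y : Finset U} {h : ℕ → U → U} (H : HInj X h) (hY : Y ⊆ X) : HInj Y h :=
  fun i j a ha b hb => H i j a (hY ha) b (hY hb)

theorem HInj.ne {X : Finset U} {h : ℕ → U → U} (H : HInj X h) {i j : ℕ} {a b : U} (ha : a ∈ X)
    (hb : b ∈ X) (hij : i ≠ j) : h i a ≠ h j b := fun he => hij (H i j a ha b hb he).1

theorem HInj.ne' {X : Finset U} {h : ℕ → U → U} (H : HInj X h) {i : ℕ} {a b : U} (ha : a ∈ X)
    (hb : b ∈ X) (hij : a ≠ b) : h i a ≠ h i b := fun he => hij (H i i a ha b hb he).2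

theorem swp_left {X : Finset U} {h : ℕ → U → U} (H : HInj X h) (i j : ℕ) {a : U} (ha : a ∈ X) :
    swp X h i j (h i a) = h j a := by
  unfold swp
  have hex : ∃ b ∈ X, h i b = h i a := ⟨a, ha, rfl⟩
  rw [dif_pos hex, (H i i _ hex.choose_spec.1 a ha hex.choose_spec.2).2]

theorem swp_right {X : Finset U} {h : ℕ → U → U} (H : HInj X h) (i j : ℕ) {a : U} (ha : a ∈ X) :
    swp X h i j (h j a) = h i a := by
  unfold swp
  by_cases hex : ∃ b ∈ X, h i b = h j a
  · rw [dif_pos hex]
    obtain ⟨h1, h2⟩ := H i j _ hex.choose_spec.1 a ha hex.choose_spec.2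
    rw [h2, h1]
  · have hex' : ∃ b ∈ X, h j b = h j a := ⟨a, ha, rfl⟩
    rw [dif_neg hex, dif_pos hex', (H j j _ hex'.choose_spec.1 a ha hex'.choose_spec.2).2]

theorem swp_other {X : Finset U} {h : ℕ → U → U} {i j : ℕ} {u : U} (h1 : ∀ a ∈ X, h i a ≠ u)
    (h2 : ∀ a ∈ X, h j a ≠ u) : swp X h i j u = u := by
  unfold swp
  rw [dif_neg (fun ⟨a, ha, h⟩ => h1 a ha h), dif_neg (fun ⟨a, ha, h⟩ => h2 a ha h)]

theorem swp_self {X : Finset U} {h : ℕ → U → U} (H : HInj X h) (i : ℕ) : swp X h i i = id := by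
  funext u
  by_cases hex : ∃ a ∈ X, h i a = u
  · obtain ⟨a, ha, rfl⟩ := hex
    exact swp_left H i i ha
  · push Not at hex
    exact swp_other hex hex

theorem swp_comm {X : Finset U} {h : ℕ → U → U} (H : HInj X h) (i j : ℕ) :
    swp X h i j = swp X h j i := by
  funext u
  by_cases hex : ∃ a ∈ X, h i a = u
  · obtain ⟨a, ha, rfl⟩ := hex
    rw [swp_left H i j ha, swp_right H j i ha]
  · by_cases hex' : ∃ a ∈ X, h j a = u
    · obtain ⟨a, ha, rfl⟩ := hex'
      rw [swp_left H j i ha, swp_right H i j ha]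
    · push Not at hex hex'
      rw [swp_other hex hex', swp_other hex' hex]

theorem swp_invol {X : Finset U} {h : ℕ → U → U} (H : HInj X h) (i j : ℕ) (u : U) :
    swp X h i j (swp X h i j u) = u := by
  by_cases hex : ∃ a ∈ X, h i a = u
  · obtain ⟨a, ha, rfl⟩ := hex
    rw [swp_left H i j ha, swp_right H i j ha]
  · by_cases hex' : ∃ a ∈ X, h j a = u
    · obtain ⟨a, ha, rfl⟩ := hex'
      rw [swp_right H i j ha, swp_left H i j ha]
    · push Not at hex hex'
      rw [swp_other hex hex', swp_other hex hex']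

/-- conjugation -/
theorem swp_conj {X F : Finset U} {h : ℕ → U → U} (H : HInj X h) (hF : F ⊆ X) {k i j : ℕ}
    (hki : k ≠ i) (hkj : k ≠ j) (hij : i ≠ j) :
    swp F h i j = swp X h k i ∘ swp F h k j ∘ swp X h k i := by
  have HF := H.mono hF
  funext u
  simp only [Function.comp]
  by_cases hex : ∃ a ∈ X, h i a = u
  · obtain ⟨a, ha, rfl⟩ := hex
    rw [swp_right H k i ha]
    by_cases haF : a ∈ F
    · rw [swp_left HF i j haF, swp_left HF k j haF, swp_other]
      · intro b hb; exact H.ne hb ha hkj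
      · intro b hb; exact H.ne hb ha hij
    · have h1 : swp F h k j (h k a) = h k a := by
        apply swp_other
        · intro b hb; exact H.ne' (hF hb) ha (fun h => haF (h ▸ hb))
        · intro b hb; exact H.ne (hF hb) ha hkj.symm
      rw [h1, swp_left H k i ha]
      apply swp_other
      · intro b hb; exact H.ne' (hF hb) ha (fun h => haF (h ▸ hb))
      · intro b hb; exact H.ne (hF hb) ha hij.symm
  · by_cases hex' : ∃ a ∈ X, h k a = u
    · obtain ⟨a, ha, rfl⟩ := hex'
      rw [swp_left H k i ha]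
      have h1 : swp F h k j (h i a) = h i a := by
        apply swp_other
        · intro b hb; exact H.ne (hF hb) ha hki
        · intro b hb; exact H.ne (hF hb) ha hij.symm
      rw [h1, swp_right H k i ha]
      apply swp_other
      · intro b hb; exact H.ne (hF hb) ha hki.symm
      · intro b hb; exact H.ne (hF hb) ha hkj.symm
    · have h0 : swp X h k i u = u := by
        push Not at hex hex'
        exact swp_other hex' hex
      rw [h0]
      by_cases hex'' : ∃ a ∈ F, h j a = u
      · obtain ⟨a, ha, rfl⟩ := hex''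
        rw [swp_right HF i j ha, swp_right HF k j ha, swp_left H k i (hF ha)]
      · push Not at hex hex' hex''
        have h1 : swp F h k j u = u := swp_other (fun b hb => hex' b (hF hb)) hex''
        rw [h1, h0]
        exact swp_other (fun b hb => hex b (hF hb)) hex''

theorem swp_sdiff [DecidableEq U] {X F : Finset U} {h : ℕ → U → U} (H : HInj X h) (hF : F ⊆ X)
    {i j : ℕ} : swp (X \ F) h i j = swp X h i j ∘ swp F h i j := by
  have HF := H.mono hF
  have HD : HInj (X \ F) h := H.mono Finset.sdiff_subset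
  by_cases hij : i = j
  · subst hij
    rw [swp_self H, swp_self HF, swp_self HD]
    rfl
  funext u
  simp only [Function.comp]
  by_cases hex : ∃ a ∈ X, h i a = u
  · obtain ⟨a, ha, rfl⟩ := hex
    by_cases haF : a ∈ F
    · rw [swp_left HF i j haF, swp_right H i j ha]
      apply swp_other
      · intro b hb
        rw [Finset.mem_sdiff] at hb
        exact H.ne' hb.1 ha (fun h => hb.2 (h ▸ haF))
      · intro b hb
        rw [Finset.mem_sdiff] at hb
        exact H.ne hb.1 ha (Ne.symm hij)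
    · have h1 : swp F h i j (h i a) = h i a := by
        apply swp_other
        · intro b hb; exact H.ne' (hF hb) ha (fun h => haF (h ▸ hb))
        · intro b hb; exact H.ne (hF hb) ha (Ne.symm hij)
      rw [h1, swp_left H i j ha, swp_left HD i j (Finset.mem_sdiff.2 ⟨ha, haF⟩)]
  · by_cases hex' : ∃ a ∈ X, h j a = u
    · obtain ⟨a, ha, rfl⟩ := hex'
      by_cases haF : a ∈ F
      · rw [swp_right HF i j haF, swp_left H i j ha]
        apply swp_other
        · intro b hb
          rw [Finset.mem_sdiff] at hb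
          exact H.ne hb.1 ha hij
        · intro b hb
          rw [Finset.mem_sdiff] at hb
          exact H.ne' hb.1 ha (fun h => hb.2 (h ▸ haF))
      · have h1 : swp F h i j (h j a) = h j a := by
          apply swp_other
          · intro b hb; exact H.ne (hF hb) ha hij
          · intro b hb; exact H.ne' (hF hb) ha (fun h => haF (h ▸ hb))
        rw [h1, swp_right H i j ha, swp_right HD i j (Finset.mem_sdiff.2 ⟨ha, haF⟩)]
    · push Not at hex hex'
      have h1 : swp F h i j u = u :=
        swp_other (fun b hb => hex b (hF hb)) (fun b hb => hex' b (hF hb))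
      rw [h1, swp_other hex hex']
      exact swp_other (fun b hb => hex b (Finset.mem_sdiff.1 hb).1)
        (fun b hb => hex' b (Finset.mem_sdiff.1 hb).1)

theorem HInj.fresh {X : Finset U} {h : ℕ → U → U} (H : HInj X h) (T : Finset U) :
    ∀ᶠ j in atTop, ∀ a ∈ X, h j a ∉ T := by
  rw [Filter.eventually_all_finset]
  intro a ha
  have hinj : Function.Injective (fun j => h j a) := fun i j hij => (H i j a ha a ha hij).1
  have h1 : ((fun j => h j a) ⁻¹' (T : Set U)).Finite := T.finite_toSet.preimage hinj.injOn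
  have h2 := h1.eventually_cofinite_notMem
  rw [Nat.cofinite_eq_atTop] at h2
  filter_upwards [h2] with j hj hmem
  exact hj hmem

/-- a family of copies of `X` -/
structure Fam (c : Str r K U) (X : Finset U) (h : ℕ → U → U) : Prop where
  zero : ∀ a ∈ X, h 0 a = a
  inj : HInj X h
  aut : ∀ i j, Aut c (swp X h i j)

section

variable {c : Str r K U} {X Y : Finset U} {h g : ℕ → U → U} [DecidableEq U]

theorem Fam.inter_aux (hX : Fam c X h) (hY : Fam c Y g) {z : ℕ} (hz0 : z ≠ 0)
    (hz : ∀ a ∈ X, h z a ∉ Y) : Aut c (swp (X ∩ Y) h 0 z) := by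
  classical
  intro t
  set T : Finset U := Finset.univ.image t with hT
  obtain ⟨j, hj, hj0⟩ := ((hY.inj.fresh (X ∪ X.image (h z) ∪ T)).and
    (eventually_gt_atTop 0)).exists
  obtain ⟨y, hy, hyz⟩ := ((hX.inj.fresh (Y ∪ Y.image (g j) ∪ T)).and
    (eventually_gt_atTop z)).exists
  have hy0 : y ≠ 0 := by omega
  have hzy : z ≠ y := by omega
  have hj0' : j ≠ 0 := by omega
  set σz := swp X h 0 z with hσz
  set σy := swp X h 0 y with hσy
  set τ := swp Y g 0 j with hτ
  -- basic facts
  have fj1 : ∀ b ∈ Y, g j b ∉ X := fun b hb hX' => hj b hb (by simp [hX'])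
  have fj2 : ∀ b ∈ Y, ∀ a ∈ X, h z a ≠ g j b := fun b hb a ha he => hj b hb (by
    rw [← he]
    exact Finset.mem_union_left _ (Finset.mem_union_right _ (Finset.mem_image_of_mem _ ha)))
  have fj3 : ∀ b ∈ Y, g j b ∉ T := fun b hb hX' => hj b hb (by simp [hX'])
  have fy1 : ∀ a ∈ X, h y a ∉ Y := fun b hb hX' => hy b hb (by simp [hX'])
  have fy2 : ∀ a ∈ X, ∀ b ∈ Y, g j b ≠ h y a := fun a ha b hb he => hy a ha (by
    rw [← he]
    exact Finset.mem_union_left _ (Finset.mem_union_right _ (Finset.mem_image_of_mem _ hb)))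
  have fy3 : ∀ a ∈ X, h y a ∉ T := fun b hb hX' => hy b hb (by simp [hX'])
  have fz1 : ∀ a ∈ X, h z a ∉ X := fun a ha hX' => by
    have := hX.inj z 0 a ha (h z a) hX' (hX.zero _ hX').symm
    exact hz0 this.1
  have fy4 : ∀ a ∈ X, h y a ∉ X := fun a ha hX' => by
    have := hX.inj y 0 a ha (h y a) hX' (hX.zero _ hX').symm
    exact hy0 this.1
  have fzy : ∀ a ∈ X, ∀ b ∈ X, h y a ≠ h z b := fun a ha b hb => hX.inj.ne ha hb hzy.symm
  have sz0 : ∀ a ∈ X, σz a = h z a := fun a ha => by
    have := swp_left hX.inj 0 z ha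
    rwa [hX.zero a ha] at this
  have sz1 : ∀ a ∈ X, σz (h z a) = a := fun a ha => by
    have := swp_right hX.inj 0 z ha
    rwa [hX.zero a ha] at this
  have szo : ∀ u, u ∉ X → (∀ a ∈ X, h z a ≠ u) → σz u = u := fun u h1 h2 =>
    swp_other (fun a ha he => h1 (by rw [hX.zero a ha] at he; rwa [← he])) h2
  have sy0 : ∀ a ∈ X, σy a = h y a := fun a ha => by
    have := swp_left hX.inj 0 y ha
    rwa [hX.zero a ha] at this
  have sy1 : ∀ a ∈ X, σy (h y a) = a := fun a ha => by
    have := swp_right hX.inj 0 y ha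
    rwa [hX.zero a ha] at this
  have syo : ∀ u, u ∉ X → (∀ a ∈ X, h y a ≠ u) → σy u = u := fun u h1 h2 =>
    swp_other (fun a ha he => h1 (by rw [hX.zero a ha] at he; rwa [← he])) h2
  have t0 : ∀ a ∈ Y, τ a = g j a := fun a ha => by
    have := swp_left hY.inj 0 j ha
    rwa [hY.zero a ha] at this
  have t1 : ∀ a ∈ Y, τ (g j a) = a := fun a ha => by
    have := swp_right hY.inj 0 j ha
    rwa [hY.zero a ha] at this
  have tO : ∀ u, u ∉ Y → (∀ a ∈ Y, g j a ≠ u) → τ u = u := fun u h1 h2 =>
    swp_other (fun a ha he => h1 (by rw [hY.zero a ha] at he; rwa [← he])) h2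
  have HF : HInj (X ∩ Y) h := hX.inj.mono Finset.inter_subset_left
  -- derived facts
  have d1 : ∀ b ∈ Y, σz (g j b) = g j b := fun b hb => szo _ (fj1 b hb) (fun a ha => fj2 b hb a ha)
  have d2 : ∀ a ∈ X, τ (h z a) = h z a := fun a ha => tO _ (hz a ha) (fun b hb => (fj2 b hb a ha).symm)
  have d3 : ∀ a ∈ X, σy (h z a) = h z a := fun a ha => syo _ (fz1 a ha) (fun b hb => fzy b hb a ha)
  have d4 : ∀ a ∈ X, τ (h y a) = h y a := fun a ha => tO _ (fy1 a ha) (fun b hb => fy2 a ha b hb)
  have d5 : ∀ b ∈ Y, σy (g j b) = g j b := fun b hb => syo _ (fj1 b hb)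
    (fun a ha => (fy2 a ha b hb).symm)
  have key : ∀ u ∈ T, σy (τ (σy (τ (σz (τ (σz (τ u))))))) = swp (X ∩ Y) h 0 z u := by
    intro u hu
    have uj : ∀ b ∈ Y, g j b ≠ u := fun b hb he => fj3 b hb (he ▸ hu)
    have uy : ∀ a ∈ X, h y a ≠ u := fun a ha he => fy3 a ha (he ▸ hu)
    by_cases huX : u ∈ X
    · by_cases huY : u ∈ Y
      · rw [t0 u huY, d1 u huY, t1 u huY, sz0 u huX, d2 u huX, d3 u huX, d2 u huX, d3 u huX]
        have := swp_left HF 0 z (Finset.mem_inter.2 ⟨huX, huY⟩)
        rw [hX.zero u huX] at this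
        exact this.symm
      · have e1 : τ u = u := tO u huY uj
        rw [e1, sz0 u huX, d2 u huX, sz1 u huX, e1, sy0 u huX, d4 u huX, sy1 u huX]
        symm
        apply swp_other
        · intro a ha he
          rw [Finset.mem_inter] at ha
          rw [hX.zero a ha.1] at he
          exact huY (he ▸ ha.2)
        · intro a ha he
          rw [Finset.mem_inter] at ha
          exact fz1 a ha.1 (he ▸ huX)
    · by_cases hex : ∃ a ∈ X, h z a = u
      · obtain ⟨a, ha, rfl⟩ := hex
        by_cases haY : a ∈ Y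
        · rw [d2 a ha, sz1 a ha, t0 a haY, d1 a haY, t1 a haY, sy0 a ha, d4 a ha, sy1 a ha]
          have := swp_right HF 0 z (Finset.mem_inter.2 ⟨ha, haY⟩)
          rw [hX.zero a ha] at this
          exact this.symm
        · have e1 : τ a = a := tO a haY (fun b hb he => fj1 b hb (he ▸ ha))
          rw [d2 a ha, sz1 a ha, e1, sz0 a ha, d2 a ha, d3 a ha, d2 a ha, d3 a ha]
          symm
          apply swp_other
          · intro b hb he
            rw [Finset.mem_inter] at hb
            rw [hX.zero b hb.1] at he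
            exact huX (he ▸ hb.1)
          · intro b hb he
            rw [Finset.mem_inter] at hb
            exact haY ((hX.inj z z b hb.1 a ha he).2 ▸ hb.2)
      · push Not at hex
        have e2 : σz u = u := szo u huX hex
        have e3 : σy u = u := syo u huX uy
        have e4 : swp (X ∩ Y) h 0 z u = u := by
          apply swp_other
          · intro b hb he
            rw [Finset.mem_inter] at hb
            rw [hX.zero b hb.1] at he
            exact huX (he ▸ hb.1)
          · intro b hb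
            exact hex b (Finset.mem_inter.1 hb).1
        by_cases huY : u ∈ Y
        · rw [t0 u huY, d1 u huY, t1 u huY, e2, t0 u huY, d5 u huY, t1 u huY, e3, e4]
        · have e1 : τ u = u := tO u huY uj
          rw [e1, e2, e1, e2, e1, e3, e1, e3, e4]
  have h1 : swp (X ∩ Y) h 0 z ∘ t = σy ∘ τ ∘ σy ∘ τ ∘ σz ∘ τ ∘ σz ∘ τ ∘ t := by
    funext i
    exact (key (t i) (Finset.mem_image_of_mem t (Finset.mem_univ i))).symm
  rw [h1]
  have a1 := hX.aut 0 z
  have a2 := hX.aut 0 y
  have a3 := hY.aut 0 j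
  have := (a2.comp (a3.comp (a2.comp (a3.comp (a1.comp (a3.comp (a1.comp a3)))))) ) t
  exact this

theorem Fam.inter (hX : Fam c X h) (hY : Fam c Y g) : Fam c (X ∩ Y) h := by
  classical
  have HF : HInj (X ∩ Y) h := hX.inj.mono Finset.inter_subset_left
  refine ⟨fun a ha => hX.zero a (Finset.mem_inter.1 ha).1, HF, ?_⟩
  -- swaps with zero
  have h0 : ∀ x, Aut c (swp (X ∩ Y) h 0 x) := by
    intro x
    by_cases hx0 : x = 0
    · subst hx0
      rw [swp_self HF]
      exact Aut.id c
    obtain ⟨z, hz, hzx⟩ := ((hX.inj.fresh Y).and (eventually_gt_atTop x)).exists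
    have hz0 : z ≠ 0 := by omega
    have hxz : x ≠ z := by omega
    have h1 := hX.inter_aux hY hz0 hz
    have h2 : Aut c (swp (X ∩ Y) h x z) := by
      rw [swp_conj hX.inj Finset.inter_subset_left (Ne.symm hx0) (Ne.symm hz0) hxz]
      exact (hX.aut 0 x).comp (h1.comp (hX.aut 0 x))
    rw [swp_conj HF (Finset.Subset.refl _) hz0 (Ne.symm hxz) (Ne.symm hx0), swp_comm HF z 0,
      swp_comm HF z x]
    exact h1.comp (h2.comp h1)
  intro i j
  by_cases hij : i = j
  · subst hij
    rw [swp_self HF]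
    exact Aut.id c
  by_cases hi : i = 0
  · subst hi
    exact h0 j
  by_cases hj : j = 0
  · subst hj
    rw [swp_comm HF]
    exact h0 i
  rw [swp_conj HF (Finset.Subset.refl _) (Ne.symm hi) (Ne.symm hj) hij]
  exact (h0 i).comp ((h0 j).comp (h0 i))

theorem Fam.sdiff (hX : Fam c X h) (hY : Fam c Y g) : Fam c (X \ Y) h := by
  classical
  have HD : HInj (X \ Y) h := hX.inj.mono Finset.sdiff_subset
  refine ⟨fun a ha => hX.zero a (Finset.mem_sdiff.1 ha).1, HD, fun i j => ?_⟩
  have h1 : X \ Y = X \ (X ∩ Y) := by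
    ext a
    simp only [Finset.mem_sdiff, Finset.mem_inter]
    tauto
  rw [h1, swp_sdiff hX.inj Finset.inter_subset_left]
  exact (hX.aut i j).comp ((hX.inter hY).aut i j)

end

/-! ### Blocks -/

/-- blocks -/
def Blk (c : Str r K U) (X : Finset U) : Prop := ∃ h, Fam c X h

/-- indecomposable blocks -/
def Ind (c : Str r K U) (X : Finset U) : Prop :=
  X.Nonempty ∧ Blk c X ∧ ∀ Y ⊆ X, Y.Nonempty → Blk c Y → Y = X

theorem Ind.eq_or_disjoint {c : Str r K U} {X Y : Finset U} (hX : Ind c X) (hY : Ind c Y) :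
    X = Y ∨ Disjoint X Y := by
  classical
  by_cases hd : (X ∩ Y).Nonempty
  · left
    obtain ⟨h, hh⟩ := hX.2.1
    obtain ⟨g, hg⟩ := hY.2.1
    have h1 := hX.2.2 _ Finset.inter_subset_left hd ⟨h, hh.inter hg⟩
    have h2 := hY.2.2 _ Finset.inter_subset_right hd ⟨h, hh.inter hg⟩
    exact h1.symm.trans h2
  · right
    rw [Finset.disjoint_iff_inter_eq_empty]
    exact Finset.not_nonempty_iff_eq_empty.1 hd

theorem Ind.eq_of_mem {c : Str r K U} {X Y : Finset U} (hX : Ind c X) (hY : Ind c Y) {v : U}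
    (h1 : v ∈ X) (h2 : v ∈ Y) : X = Y := by
  rcases hX.eq_or_disjoint hY with h | h
  · exact h
  · exact absurd h2 (Finset.disjoint_left.1 h h1)

theorem Blk.exists_ind {c : Str r K U} {X : Finset U} (hX : Blk c X) {v : U} (hv : v ∈ X) :
    ∃ Y ⊆ X, v ∈ Y ∧ Ind c Y := by
  classical
  have hne : (X.powerset.filter (fun Y => v ∈ Y ∧ Blk c Y)).Nonempty :=
    ⟨X, Finset.mem_filter.2 ⟨Finset.mem_powerset_self X, hv, hX⟩⟩
  obtain ⟨Y, hY, hmin⟩ := Finset.exists_min_image _ Finset.card hne
  obtain ⟨hY1, hY2, hY3⟩ := Finset.mem_filter.1 hY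
  rw [Finset.mem_powerset] at hY1
  refine ⟨Y, hY1, hY2, ⟨v, hY2⟩, hY3, fun Z hZ hZne hZb => ?_⟩
  by_contra hne
  have hlt : Z.card < Y.card := Finset.card_lt_card (lt_of_le_of_ne hZ hne)
  by_cases hvZ : v ∈ Z
  · have := hmin Z (Finset.mem_filter.2 ⟨Finset.mem_powerset.2 (hZ.trans hY1), hvZ, hZb⟩)
    omega
  · obtain ⟨h, hh⟩ := hY3
    obtain ⟨g, hg⟩ := hZb
    have h1 := hmin (Y \ Z) (Finset.mem_filter.2 ⟨Finset.mem_powerset.2
      (Finset.sdiff_subset.trans hY1), Finset.mem_sdiff.2 ⟨hY2, hvZ⟩, ⟨h, hh.sdiff hg⟩⟩)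
    rw [Finset.card_sdiff_of_subset hZ] at h1
    have := Finset.card_pos.2 hZne
    omega

theorem swp_iso {X : Finset U} {h : ℕ → U → U} (H : HInj X h) (e : U ≃ U') (i j : ℕ) :
    swp (X.map e.toEmbedding) (fun i u => e (h i (e.symm u))) i j = e ∘ swp X h i j ∘ e.symm := by
  have H' : HInj (X.map e.toEmbedding) (fun i u => e (h i (e.symm u))) := by
    intro i j a ha b hb hab
    rw [Finset.mem_map_equiv] at ha hb
    have := H i j _ ha _ hb (e.injective hab)
    exact ⟨this.1, e.symm.injective this.2⟩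
  funext u
  obtain ⟨v, rfl⟩ := e.surjective u
  simp only [Function.comp, Equiv.symm_apply_apply]
  by_cases hex : ∃ a ∈ X, h i a = v
  · obtain ⟨a, ha, rfl⟩ := hex
    rw [swp_left H i j ha]
    have := swp_left H' i j (a := e a) (by rw [Finset.mem_map_equiv]; simpa using ha)
    simpa using this
  · by_cases hex' : ∃ a ∈ X, h j a = v
    · obtain ⟨a, ha, rfl⟩ := hex'
      rw [swp_right H i j ha]
      have := swp_right H' i j (a := e a) (by rw [Finset.mem_map_equiv]; simpa using ha)
      simpa using this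
    · push Not at hex hex'
      rw [swp_other hex hex']
      apply swp_other
      · intro a ha he
        rw [Finset.mem_map_equiv] at ha
        exact hex _ ha (e.injective he)
      · intro a ha he
        rw [Finset.mem_map_equiv] at ha
        exact hex' _ ha (e.injective he)

theorem Blk.map {c : Str r K U} {d : Str r K U'} (e : U ≃ U') (he : ∀ t, d (e ∘ t) = c t)
    {X : Finset U} (hX : Blk c X) : Blk d (X.map e.toEmbedding) := by
  obtain ⟨h, hh⟩ := hX
  refine ⟨fun i u => e (h i (e.symm u)), ⟨fun a ha => ?_, ?_, fun i j t => ?_⟩⟩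
  · rw [Finset.mem_map_equiv] at ha
    rw [hh.zero _ ha]
    simp
  · intro i j a ha b hb hab
    rw [Finset.mem_map_equiv] at ha hb
    have := hh.inj i j _ ha _ hb (e.injective hab)
    exact ⟨this.1, e.symm.injective this.2⟩
  · rw [swp_iso hh.inj]
    have h1 := hh.aut i j (e.symm ∘ t)
    have h2 : (e ∘ swp X h i j ∘ e.symm) ∘ t = e ∘ (swp X h i j ∘ (e.symm ∘ t)) := rfl
    rw [h2, he, h1, ← he]
    congr 1
    funext i
    simp

theorem Ind.map {c : Str r K U} {d : Str r K U'} (e : U ≃ U') (he : ∀ t, d (e ∘ t) = c t)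
    {X : Finset U} (hX : Ind c X) : Ind d (X.map e.toEmbedding) := by
  have he' : ∀ t, c (e.symm ∘ t) = d t := fun t => by
    rw [← he]
    congr 1
    funext i
    simp
  refine ⟨hX.1.map, hX.2.1.map e he, fun Y hY hYne hYb => ?_⟩
  have h1 := hX.2.2 (Y.map e.symm.toEmbedding) (fun a ha => by
    rw [Finset.mem_map_equiv] at ha
    have := hY ha
    rw [Finset.mem_map_equiv] at this
    simpa using this) hYne.map (hYb.map e.symm he')
  rw [← h1]
  ext a
  simp [Finset.mem_map_equiv]

/-- transport by an automorphism -/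
theorem Ind.image [DecidableEq U] {c : Str r K U} {X : Finset U} (hX : Ind c X) {s : U → U}
    (hs : Aut c s) (hinv : ∀ u, s (s u) = u) : Ind c (X.image s) := by
  let e : U ≃ U := ⟨s, s, hinv, hinv⟩
  have := hX.map e (fun t => hs t)
  rwa [Finset.map_eq_image] at this

theorem Ind.card_eq_of_fam [DecidableEq U] {c : Str r K U} {X : Finset U} (hX : Ind c X)
    {h : ℕ → U → U} (hh : Fam c X h) (i : ℕ) :
    Ind c (X.image (h i)) ∧ (X.image (h i)).card = X.card := by
  have h1 := hX.image (hh.aut 0 i) (swp_invol hh.inj 0 i)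
  have h2 : X.image (swp X h 0 i) = X.image (h i) := by
    apply Finset.image_congr
    intro a ha
    have := swp_left hh.inj 0 i ha
    rwa [hh.zero a ha] at this
  rw [h2] at h1
  refine ⟨h1, Finset.card_image_of_injOn ?_⟩
  intro a ha b hb hab
  exact (hh.inj i i a ha b hb hab).2

/-- sizes of indecomposable blocks -/
def Siz (c : Str r K U) : Set ℕ := {n | ∃ X, Ind c X ∧ X.card = n}

theorem siz_iso {c : Str r K U} {d : Str r K U'} (h : Isom c d) : Siz c = Siz d := by
  obtain ⟨e, he⟩ := h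
  have he' : ∀ t, c (e.symm ∘ t) = d t := fun t => by
    rw [← he]
    congr 1
    funext i
    simp
  ext n
  constructor
  · rintro ⟨X, hX, rfl⟩
    exact ⟨_, hX.map e he, by simp⟩
  · rintro ⟨X, hX, rfl⟩
    exact ⟨_, hX.map e.symm he', by simp⟩

/-- Rows lemma: if blocks from `𝓑` cover everything outside a finite set, then the sizes of
indecomposable blocks are the sizes of indecomposable blocks contained in members of `𝓑`. -/
theorem siz_subset {c : Str r K U} (P : Finset U) (𝓑 : Set (Finset U)) (hB : ∀ B ∈ 𝓑, Blk c B)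
    (hcov : ∀ u, u ∉ P → ∃ B ∈ 𝓑, u ∈ B) (N : Set ℕ)
    (hN : ∀ B ∈ 𝓑, ∀ Y ⊆ B, Ind c Y → Y.card ∈ N) : Siz c ⊆ N := by
  classical
  rintro n ⟨X, hX, rfl⟩
  obtain ⟨h, hh⟩ := hX.2.1
  obtain ⟨i, hi⟩ := (hh.inj.fresh P).exists
  obtain ⟨h1, h2⟩ := hX.card_eq_of_fam hh i
  obtain ⟨v, hv⟩ := h1.1
  obtain ⟨a, ha, hav⟩ := Finset.mem_image.1 hv
  obtain ⟨B, hB1, hB2⟩ := hcov v (hav ▸ hi a ha)
  obtain ⟨Y, hY1, hY2, hY3⟩ := (hB B hB1).exists_ind hB2
  have := h1.eq_of_mem hY3 hv hY2
  rw [← h2, this]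
  exact hN B hB1 Y hY1 hY3

/-- Different sizes give continuum many structures. -/
theorem cont_of_siz {W : Type} {S : Str r K W} (D : (ℕ → Bool) → Type) (hD : ∀ A, Countable (D A))
    (hD' : ∀ A, Infinite (D A)) (c : ∀ A, Str r K (D A)) (hcls : ∀ A, Cls S (c A))
    (hsiz : ∀ A B, Siz (c A) = Siz (c B) → A = B) : Cont S := by
  refine cont_of_family D hD hD' c hcls (fun A => ?_)
  refine (Set.countable_singleton A).mono ?_
  intro B hB
  exact (hsiz A B (siz_iso hB)).symm

end Pool.Agent.H566V
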