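import Pool.Agent.H566V.Good

/-!
The cellular decomposition.
-/

set_option autoImplicit false

namespace Pool.Agent.H566V

open Set Filter Topology

variable {r : ℕ} {K V G W' : Type} {p : Ultrafilter ℕ}

theorem exn_mem_EZ {C : Finset (Gm p V)} {n : ℕ} {v : E p V} (hv : v ∈ EZ (C : Set (Gm p V))) :
    exn C n v ∈ EZ (C : Set (Gm p V)) := by
  classical
  rcases v with a | ⟨x, g⟩
  · by_cases ha : ∃ g ∈ C, g.fn n = a
    · simp only [exn, Sum.elim_inl, dif_pos ha]
      rw [inr_mem_EZ]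
      exact ha.choose_spec.1
    · simp only [exn, Sum.elim_inl, dif_neg ha]
      exact inl_mem_EZ
  · by_cases hx : x = 0 ∧ g ∈ C
    · simp only [exn, Sum.elim_inr, if_pos hx]
      exact inl_mem_EZ
    · rw [exn_inr hx]
      exact hv

/-- disjoint values -/
def Dj (C : Finset (Gm p V)) (n m : ℕ) : Prop := ∀ g ∈ C, ∀ g' ∈ C, g.fn n ≠ g'.fn m

theorem Dj.symm {C : Finset (Gm p V)} {n m : ℕ} (h : Dj C n m) : Dj C m n :=
  fun g hg g' hg' => (h g' hg' g hg).symm

/-- good indices -/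
def Gd [Finite K] (c : Str r K V) (C : Finset (Gm p V)) (n : ℕ) : Prop :=
  InjAt C n ∧ AutOn (ext (p := p) c) (EZ (C : Set (Gm p V))) (exn C n)

theorem ev_dj [DecidableEq V] (C : Finset (Gm p V)) (s : Finset ℕ) :
    ∀ᶠ n in (p : Filter ℕ), ∀ m ∈ s, Dj C m n := by
  filter_upwards [ev_avoid C (s.biUnion (fun m => C.image (fun g => g.fn m)))] with n hn
  intro m hm g hg g' hg' he
  apply hn g' hg'
  rw [Finset.mem_biUnion]
  exact ⟨m, hm, Finset.mem_image.2 ⟨g, hg, he⟩⟩

section

variable [Finite K] [DecidableEq V]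

/-- copies of the values of the columns in `C` -/
theorem exists_fam {c : Str r K V} {C : Finset (Gm p V)}
    (hgd : ∀ᶠ n in (p : Filter ℕ), Gd c C n) {n₀ n₁ : ℕ} (h0 : Gd c C n₀) (h1 : Gd c C n₁)
    (h01 : Dj C n₀ n₁) : ∃ h, Fam c (C.image (fun g => g.fn n₀)) h ∧
      ∀ g ∈ C, h 1 (g.fn n₀) = g.fn n₁ := by
  classical
  obtain ⟨f, hf1, hf2⟩ := exists_seq_of_forall_finset_exists
    (P := fun n => Gd c C n ∧ Dj C n₀ n ∧ Dj C n₁ n) (r := fun n m => Dj C n m) (by
      intro s _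
      obtain ⟨n, h2, h3⟩ := (hgd.and (ev_dj C (insert n₀ (insert n₁ s)))).exists
      refine ⟨n, ⟨h2, h3 _ (by simp), h3 _ (by simp)⟩, fun x hx => h3 x (by simp [hx])⟩)
  let ν : ℕ → ℕ := fun i => if i = 0 then n₀ else if i = 1 then n₁ else f (i - 2)
  have hν0 : ν 0 = n₀ := by simp [ν]
  have hν1 : ν 1 = n₁ := by simp [ν]
  have hν2 : ∀ i, ν (i + 2) = f i := fun i => by simp [ν]
  have hνg : ∀ i, Gd c C (ν i) := by
    intro i
    rcases i with _ | _ | i
    · rw [hν0]; exact h0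
    · rw [hν1]; exact h1
    · rw [hν2]; exact (hf1 i).1
  have hνd' : ∀ i j, i < j → Dj C (ν i) (ν j) := by
    intro i j hij
    rcases j with _ | _ | j
    · omega
    · have : i = 0 := by omega
      subst this
      rw [hν0, hν1]; exact h01
    · rcases i with _ | _ | i
      · rw [hν0, hν2]; exact (hf1 j).2.1
      · rw [hν1, hν2]; exact (hf1 j).2.2
      · rw [hν2, hν2]; exact hf2 i j (by omega)
  have hνd : ∀ i j, i ≠ j → Dj C (ν i) (ν j) := by
    intro i j hij
    rcases lt_or_gt_of_ne hij with h | h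
    · exact hνd' i j h
    · exact (hνd' j i h).symm
  let h : ℕ → V → V := fun i a => if H : ∃ g ∈ C, g.fn n₀ = a then H.choose.fn (ν i) else a
  have hh : ∀ i, ∀ g ∈ C, h i (g.fn n₀) = g.fn (ν i) := by
    intro i g hg
    have H : ∃ g' ∈ C, g'.fn n₀ = g.fn n₀ := ⟨g, hg, rfl⟩
    simp only [h, dif_pos H]
    rw [h0.1 _ H.choose_spec.1 g hg H.choose_spec.2]
  have hinj : HInj (C.image (fun g => g.fn n₀)) h := by
    intro i j a ha b hb hab
    obtain ⟨g, hg, rfl⟩ := Finset.mem_image.1 ha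
    obtain ⟨g', hg', rfl⟩ := Finset.mem_image.1 hb
    rw [hh i g hg, hh j g' hg'] at hab
    by_cases hij : i = j
    · subst hij
      exact ⟨rfl, by rw [(hνg i).1 g hg g' hg' hab]⟩
    · exact absurd hab (hνd i j hij g hg g' hg')
  refine ⟨h, ⟨?_, hinj, ?_⟩, fun g hg => by rw [hh 1 g hg, hν1]⟩
  · intro a ha
    obtain ⟨g, hg, rfl⟩ := Finset.mem_image.1 ha
    rw [hh 0 g hg, hν0]
  · intro i j
    by_cases hij : i = j
    · subst hij
      rw [swp_self hinj]
      exact Aut.id c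
    intro t
    have key : ∀ a, (Sum.inl (swp (C.image (fun g => g.fn n₀)) h i j a) : E p V) =
        exn C (ν i) (exn C (ν j) (exn C (ν i) (Sum.inl a))) := by
      intro a
      by_cases h2 : ∃ g ∈ C, g.fn (ν i) = a
      · obtain ⟨g, hg, rfl⟩ := h2
        rw [exn_inl (hνg i).1 hg, exn_zero hg, exn_inl_of (fun g' hg' => hνd i j hij g' hg' g hg)]
        have := swp_left hinj i j (Finset.mem_image.2 ⟨g, hg, rfl⟩)
        rw [hh i g hg, hh j g hg] at this
        rw [this]
      · by_cases h3 : ∃ g ∈ C, g.fn (ν j) = a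
        · obtain ⟨g, hg, rfl⟩ := h3
          rw [exn_inl_of (fun g' hg' => hνd i j hij g' hg' g hg), exn_inl (hνg j).1 hg,
            exn_zero hg]
          have := swp_right hinj i j (Finset.mem_image.2 ⟨g, hg, rfl⟩)
          rw [hh i g hg, hh j g hg] at this
          rw [this]
        · push Not at h2 h3
          rw [exn_inl_of h2, exn_inl_of h3, exn_inl_of h2, swp_other]
          · intro b hb
            obtain ⟨g, hg, rfl⟩ := Finset.mem_image.1 hb
            rw [hh i g hg]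
            exact h2 g hg
          · intro b hb
            obtain ⟨g, hg, rfl⟩ := Finset.mem_image.1 hb
            rw [hh j g hg]
            exact h3 g hg
    have e1 := (hνg i).2 (fun l => (Sum.inl (t l) : E p V)) (fun l => inl_mem_EZ)
    have e2 := (hνg j).2 (exn C (ν i) ∘ (fun l => (Sum.inl (t l) : E p V)))
      (fun l => exn_mem_EZ inl_mem_EZ)
    have e3 := (hνg i).2 (exn C (ν j) ∘ (exn C (ν i) ∘ (fun l => (Sum.inl (t l) : E p V))))
      (fun l => exn_mem_EZ (exn_mem_EZ inl_mem_EZ))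
    rw [← ext_inl (p := p) c, ← ext_inl (p := p) c, ← e1, ← e2, ← e3]
    congr 1
    funext l
    exact key (t l)

/-- the elements outside of all indecomposable blocks -/
theorem finite_outside (hp : (p : Filter ℕ) ≤ atTop) {c : Str r K V}
    (hgd : ∀ z : Gm p V, ∃ C : Finset (Gm p V), z ∈ C ∧ ∀ᶠ n in (p : Filter ℕ), Gd c C n) :
    {v : V | ¬ ∃ X, Ind c X ∧ v ∈ X}.Finite := by
  classical
  by_contra hinf
  have hinf' : {v : V | ¬ ∃ X, Ind c X ∧ v ∈ X}.Infinite := hinf
  let e := hinf'.natEmbedding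
  have hφ : ∀ a : V, ∀ᶠ n in (p : Filter ℕ), (e n).1 ≠ a := by
    intro a
    by_cases hex : ∃ m, (e m).1 = a
    · obtain ⟨m, rfl⟩ := hex
      filter_upwards [hp (eventually_gt_atTop m)] with n hn h
      have := e.injective (Subtype.ext h)
      omega
    · push Not at hex
      exact Filter.Eventually.of_forall hex
  obtain ⟨z, hz⟩ := exists_gm (p := p) (fun n => (e n).1) hφ
  obtain ⟨C, hzC, hC⟩ := hgd z
  obtain ⟨n₀, h0, hz0⟩ := (hC.and hz).exists
  obtain ⟨n₁, h1, h2⟩ := (hC.and (ev_dj C {n₀})).exists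
  obtain ⟨h, hh, -⟩ := exists_fam hC h0 h1 (h2 n₀ (by simp))
  have hmem : (e n₀).1 ∈ C.image (fun g => g.fn n₀) :=
    Finset.mem_image.2 ⟨z, hzC, hz0⟩
  obtain ⟨X, -, hX1, hX2⟩ := Blk.exists_ind ⟨h, hh⟩ hmem
  exact (e n₀).2 ⟨X, hX2, hX1⟩

end

/-! ### Exchanging two blocks -/

open Classical in
/-- exchange `a` and `b a` for `a ∈ X` -/
noncomputable def sbf (X : Finset V) (b : V → V) (u : V) : V :=
  if u ∈ X then b u else if h : ∃ a ∈ X, b a = u then h.choose else u

theorem sbf_mem {X : Finset V} {b : V → V} {a : V} (ha : a ∈ X) : sbf X b a = b a := by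
  simp [sbf, ha]

theorem sbf_img {X : Finset V} {b : V → V} (hb : Set.InjOn b X) {a : V} (ha : a ∈ X)
    (hn : b a ∉ X) : sbf X b (b a) = a := by
  have h : ∃ a' ∈ X, b a' = b a := ⟨a, ha, rfl⟩
  simp only [sbf, if_neg hn, dif_pos h]
  exact hb h.choose_spec.1 ha h.choose_spec.2

theorem sbf_other {X : Finset V} {b : V → V} {u : V} (h1 : u ∉ X) (h2 : ∀ a ∈ X, b a ≠ u) :
    sbf X b u = u := by
  have h : ¬ ∃ a' ∈ X, b a' = u := fun ⟨a, ha, hu⟩ => h2 a ha hu
  simp only [sbf, if_neg h1, dif_neg h]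

/-- blocks which can be exchanged -/
def Rl [DecidableEq V] (c : Str r K V) (X X' : Finset V) : Prop :=
  ∃ b : V → V, Set.InjOn b X ∧ X.image b = X' ∧ Disjoint X X' ∧ Aut c (sbf X b)

theorem Rl.symm [DecidableEq V] {c : Str r K V} {X X' : Finset V} (h : Rl c X X') :
    Rl c X' X := by
  classical
  obtain ⟨b, h1, h2, h3, h4⟩ := h
  have hX' : ∀ a ∈ X, b a ∉ X := by
    intro a ha h
    have : b a ∈ X' := by rw [← h2]; exact Finset.mem_image_of_mem b ha
    exact Finset.disjoint_left.1 h3 h this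
  let b' : V → V := fun u => if h : ∃ a ∈ X, b a = u then h.choose else u
  have hb' : ∀ a ∈ X, b' (b a) = a := by
    intro a ha
    have h : ∃ a' ∈ X, b a' = b a := ⟨a, ha, rfl⟩
    simp only [b', dif_pos h]
    exact h1 h.choose_spec.1 ha h.choose_spec.2
  have hinj : Set.InjOn b' X' := by
    intro u hu v hv huv
    rw [← h2] at hu hv
    obtain ⟨a, ha, rfl⟩ := Finset.mem_image.1 (Finset.mem_coe.1 hu)
    obtain ⟨a', ha', rfl⟩ := Finset.mem_image.1 (Finset.mem_coe.1 hv)
    rw [hb' a ha, hb' a' ha'] at huv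
    rw [huv]
  have himg : X'.image b' = X := by
    rw [← h2, Finset.image_image]
    ext a
    rw [Finset.mem_image]
    constructor
    · rintro ⟨a', ha', rfl⟩
      simp only [Function.comp]
      rw [hb' a' ha']; exact ha'
    · intro ha
      exact ⟨a, ha, hb' a ha⟩
  have heq : sbf X' b' = sbf X b := by
    funext u
    by_cases hu : u ∈ X
    · rw [sbf_mem hu]
      have h5 : b u ∈ X' := by rw [← h2]; exact Finset.mem_image_of_mem b hu
      have h6 := sbf_img hinj h5 (by
        rw [hb' u hu]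
        exact fun h => Finset.disjoint_left.1 h3 hu h)
      rw [hb' u hu] at h6
      exact h6
    · by_cases hu' : ∃ a ∈ X, b a = u
      · obtain ⟨a, ha, rfl⟩ := hu'
        rw [sbf_img h1 ha (hX' a ha), sbf_mem, hb' a ha]
        rw [← h2]; exact Finset.mem_image_of_mem b ha
      · push Not at hu'
        rw [sbf_other hu hu', sbf_other]
        · intro h
          rw [← h2, Finset.mem_image] at h
          obtain ⟨a, ha, hau⟩ := h
          exact hu' a ha hau
        · intro v hv hvu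
          rw [← h2, Finset.mem_image] at hv
          obtain ⟨a, ha, rfl⟩ := hv
          rw [hb' a ha] at hvu
          exact hu (hvu ▸ ha)
  exact ⟨b', hinj, himg, h3.symm, by rw [heq]; exact h4⟩

theorem Rl.trans [DecidableEq V] {c : Str r K V} {X X' X'' : Finset V} (h : Rl c X X')
    (h' : Rl c X' X'') (hd : Disjoint X X'') : Rl c X X'' := by
  classical
  obtain ⟨b, h1, h2, h3, h4⟩ := h
  obtain ⟨b', h1', h2', h3', h4'⟩ := h'
  have hbX' : ∀ a ∈ X, b a ∈ X' := fun a ha => by rw [← h2]; exact Finset.mem_image_of_mem b ha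
  have hb'X' : ∀ a ∈ X', b' a ∈ X'' := fun a ha => by
    rw [← h2']; exact Finset.mem_image_of_mem b' ha
  have d1 : ∀ a, a ∈ X → a ∉ X' := fun a ha => Finset.disjoint_left.1 h3 ha
  have d2 : ∀ a, a ∈ X' → a ∉ X'' := fun a ha => Finset.disjoint_left.1 h3' ha
  have d3 : ∀ a, a ∈ X → a ∉ X'' := fun a ha => Finset.disjoint_left.1 hd ha
  have hinj : Set.InjOn (b' ∘ b) X := by
    intro u hu v hv huv
    exact h1 hu hv (h1' (hbX' u hu) (hbX' v hv) huv)
  refine ⟨b' ∘ b, hinj, ?_, hd, ?_⟩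
  · rw [← h2', ← h2, Finset.image_image]
  · have heq : sbf X (b' ∘ b) = sbf X b ∘ (sbf X' b' ∘ sbf X b) := by
      funext u
      simp only [Function.comp]
      by_cases hu : u ∈ X
      · rw [sbf_mem hu, sbf_mem hu, sbf_mem (hbX' u hu), sbf_other]
        · rfl
        · exact fun h => d3 _ h (hb'X' _ (hbX' u hu))
        · intro a ha h
          exact d2 _ (hbX' a ha) (h ▸ hb'X' _ (hbX' u hu))
      · by_cases hu' : ∃ a ∈ X, b a = u
        · obtain ⟨a, ha, rfl⟩ := hu'
          rw [sbf_img h1 ha hu, sbf_other (d1 a ha) (fun a' ha' h => d3 a ha (h ▸ hb'X' a' ha')),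
            sbf_mem ha, sbf_other hu]
          intro a' ha' h
          exact d2 _ (hbX' a ha) (h ▸ hb'X' _ (hbX' a' ha'))
        · push Not at hu'
          have e1 : sbf X b u = u := sbf_other hu hu'
          rw [e1]
          by_cases hu'' : ∃ a ∈ X', b' a = u
          · obtain ⟨a', ha', rfl⟩ := hu''
            rw [sbf_img h1' ha' (fun h => d2 _ h (hb'X' a' ha'))]
            have : a' ∈ X.image b := by rw [h2]; exact ha'
            obtain ⟨a, ha, rfl⟩ := Finset.mem_image.1 this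
            rw [sbf_img h1 ha (fun h => d1 _ h ha')]
            exact sbf_img (b := b' ∘ b) hinj ha hu
          · push Not at hu''
            have huX' : u ∉ X' := by
              intro h
              rw [← h2, Finset.mem_image] at h
              obtain ⟨a, ha, hau⟩ := h
              exact hu' a ha hau
            rw [sbf_other huX' hu'', e1, sbf_other hu]
            intro a ha h
            exact hu'' _ (hbX' a ha) h
    rw [heq]
    exact h4.comp (h4'.comp h4)

theorem sbf_fam {c : Str r K V} {X : Finset V} {h : ℕ → V → V} (hh : Fam c X h) {i : ℕ} :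
    sbf X (h i) = swp X h 0 i := by
  funext u
  by_cases hu : u ∈ X
  · have := swp_left hh.inj 0 i hu
    rw [hh.zero u hu] at this
    rw [sbf_mem hu, this]
  · by_cases hu' : ∃ a ∈ X, h i a = u
    · obtain ⟨a, ha, rfl⟩ := hu'
      have := swp_right hh.inj 0 i ha
      rw [hh.zero a ha] at this
      rw [this]
      exact sbf_img (fun a ha b hb hab => (hh.inj i i a ha b hb hab).2) ha hu
    · push Not at hu'
      rw [sbf_other hu hu', swp_other _ hu']
      intro a ha h
      rw [hh.zero a ha] at h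
      exact hu (h ▸ ha)

theorem Fam.rl [DecidableEq V] {c : Str r K V} {X : Finset V} {h : ℕ → V → V} (hh : Fam c X h)
    {i : ℕ} (hi : i ≠ 0) : Rl c X (X.image (h i)) := by
  classical
  refine ⟨h i, fun a ha b hb hab => (hh.inj i i a ha b hb hab).2, rfl, ?_, ?_⟩
  · rw [Finset.disjoint_left]
    intro a ha ha'
    obtain ⟨b, hb, hba⟩ := Finset.mem_image.1 ha'
    have := hh.inj i 0 b hb a ha (by rw [hba, hh.zero a ha])
    exact hi this.1
  · rw [sbf_fam hh]
    exact hh.aut 0 i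

section

variable [Finite K] [DecidableEq V]

/-- there is no infinite sequence of different kinds of indecomposable blocks -/
theorem finite_kinds (hp : (p : Filter ℕ) ≤ atTop) {c : Str r K V}
    (hgd : ∀ z : Gm p V, ∃ C : Finset (Gm p V), z ∈ C ∧ ∀ᶠ n in (p : Filter ℕ), Gd c C n)
    (X : ℕ → Finset V) (hX : ∀ n, Ind c (X n)) (hne : ∀ n m, n ≠ m → X n ≠ X m) :
    ∃ n m, n ≠ m ∧ Rl c (X n) (X m) := by
  classical
  have hdis : ∀ n m, n ≠ m → Disjoint (X n) (X m) := fun n m h =>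
    ((hX n).eq_or_disjoint (hX m)).resolve_left (hne n m h)
  have hv : ∀ n, ∃ v, v ∈ X n := fun n => (hX n).1
  choose v hv using hv
  have hφ : ∀ a : V, ∀ᶠ n in (p : Filter ℕ), v n ≠ a := by
    intro a
    by_cases hex : ∃ m, v m = a
    · obtain ⟨m, rfl⟩ := hex
      filter_upwards [hp (eventually_gt_atTop m)] with n hn h
      have h1 : n ≠ m := by omega
      exact Finset.disjoint_left.1 (hdis n m h1) (hv n) (h ▸ hv m)
    · push Not at hex
      exact Filter.Eventually.of_forall hex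
  obtain ⟨z, hz⟩ := exists_gm (p := p) v hφ
  obtain ⟨C, hzC, hC⟩ := hgd z
  obtain ⟨π, hπ⟩ := ulim p (fun n => (fun g : C => decide (g.1.fn n ∈ X n)))
  have hpat : ∀ n, (fun g : C => decide (g.1.fn n ∈ X n)) = π → ∀ g ∈ C,
      ∀ m, (fun g : C => decide (g.1.fn m ∈ X m)) = π → (g.fn n ∈ X n ↔ g.fn m ∈ X m) := by
    intro n hn g hg m hm
    have h1 := congrFun hn ⟨g, hg⟩
    have h2 := congrFun hm ⟨g, hg⟩
    simp only at h1 h2
    rw [← h2] at h1
    exact decide_eq_decide.1 h1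
  obtain ⟨n₀, h0, hz0, hπ0⟩ := (hC.and (hz.and hπ)).exists
  obtain ⟨n₁, h1, hz1, hπ1, hd⟩ := (hC.and (hz.and (hπ.and (ev_dj C {n₀})))).exists
  have hd01 : Dj C n₀ n₁ := hd n₀ (by simp)
  have hn01 : n₀ ≠ n₁ := by
    intro h
    apply hd01 z hzC z hzC
    rw [h]
  have hsub : ∀ n m, Gd c C n → Gd c C m → Dj C n m → z.fn n = v n →
      X n ⊆ C.image (fun g => g.fn n) := by
    intro n m hn hm hnm hzn
    obtain ⟨h, hh, -⟩ := exists_fam hC hn hm hnm
    obtain ⟨g, hg⟩ := (hX n).2.1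
    have h2 := (hX n).2.2 _ Finset.inter_subset_right ⟨v n, Finset.mem_inter.2
      ⟨Finset.mem_image.2 ⟨z, hzC, hzn⟩, hv n⟩⟩ ⟨h, hh.inter hg⟩
    rw [← h2]
    exact Finset.inter_subset_left
  have hs0 := hsub n₀ n₁ h0 h1 hd01 hz0
  have hs1 := hsub n₁ n₀ h1 h0 hd01.symm hz1
  obtain ⟨h, hh, hh1⟩ := exists_fam hC h0 h1 hd01
  obtain ⟨g, hg⟩ := (hX n₀).2.1
  have hf := hh.inter hg
  rw [Finset.inter_eq_right.2 hs0] at hf
  have himg : (X n₀).image (h 1) = X n₁ := by
    ext u
    rw [Finset.mem_image]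
    constructor
    · rintro ⟨a, ha, rfl⟩
      obtain ⟨g, hg, rfl⟩ := Finset.mem_image.1 (hs0 ha)
      rw [hh1 g hg]
      exact (hpat n₀ hπ0 g hg n₁ hπ1).1 ha
    · intro hu
      obtain ⟨g, hg, rfl⟩ := Finset.mem_image.1 (hs1 hu)
      exact ⟨g.fn n₀, (hpat n₀ hπ0 g hg n₁ hπ1).2 hu, hh1 g hg⟩
  refine ⟨n₀, n₁, hn01, ?_⟩
  rw [← himg]
  exact hf.rl one_ne_zero

end

theorem aut_of_zero [DecidableEq V] {c : Str r K V} {F : Finset V} {h : ℕ → V → V}
    (HF : HInj F h) (h0 : ∀ x, Aut c (swp F h 0 x)) (i j : ℕ) : Aut c (swp F h i j) := by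
  by_cases hij : i = j
  · subst hij
    rw [swp_self HF]
    exact Aut.id c
  by_cases hi : i = 0
  · subst hi
    exact h0 j
  by_cases hj : j = 0
  · subst hj
    rw [swp_comm HF]
    exact h0 i
  rw [swp_conj HF (Finset.Subset.refl _) (Ne.symm hi) (Ne.symm hj) hij]
  exact (h0 i).comp ((h0 j).comp (h0 i))

end Pool.Agent.H566V
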