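import Pool.Agent.H566V.Cell

/-!
The cellular decomposition, the theorem.
-/

set_option autoImplicit false

namespace Pool.Agent.H566V

open Set Filter Topology

variable {r : ℕ} {K V G W' : Type} {p : Ultrafilter ℕ}

/-- a cellular decomposition -/
structure Dec (c : Str r K V) (N₀ : Finset V) (F : ℕ) (X : Fin F → Finset V)
    (h : Fin F → ℕ → V → V) : Prop where
  fam : ∀ f, Fam c (X f) (h f)
  cov : ∀ v, v ∉ N₀ → ∃ f i, ∃ a ∈ X f, h f i a = v
  out : ∀ f i, ∀ a ∈ X f, h f i a ∉ N₀
  dis : ∀ f f' i i', ∀ a ∈ X f, ∀ a' ∈ X f', h f i a = h f' i' a' → f = f'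

theorem sbf_eq_swp {X : Finset V} {h : ℕ → V → V} (h0 : ∀ a ∈ X, h 0 a = a) (H : HInj X h)
    (i : ℕ) : sbf X (h i) = swp X h 0 i := by
  funext u
  by_cases hu : u ∈ X
  · have := swp_left H 0 i hu
    rw [h0 u hu] at this
    rw [sbf_mem hu, this]
  · by_cases hu' : ∃ a ∈ X, h i a = u
    · obtain ⟨a, ha, rfl⟩ := hu'
      have := swp_right H 0 i ha
      rw [h0 a ha] at this
      rw [this]
      exact sbf_img (fun a ha b hb hab => (H i i a ha b hb hab).2) ha hu
    · push Not at hu'
      rw [sbf_other hu hu', swp_other _ hu']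
      intro a ha h
      rw [h0 a ha] at h
      exact hu (h ▸ ha)

/-- the relation on indecomposable blocks -/
def blkSetoid [DecidableEq V] (c : Str r K V) : Setoid {X : Finset V // Ind c X} where
  r X Y := X.1 = Y.1 ∨ Rl c X.1 Y.1
  iseqv := by
    refine ⟨fun X => Or.inl rfl, fun {X Y} h => ?_, fun {X Y Z} h h' => ?_⟩
    · rcases h with h | h
      · exact Or.inl h.symm
      · exact Or.inr h.symm
    · rcases h with h | h
      · rcases h' with h' | h'
        · exact Or.inl (h.trans h')
        · right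
          rw [h]; exact h'
      · rcases h' with h' | h'
        · right
          rw [← h']; exact h
        · rcases X.2.eq_or_disjoint Z.2 with h'' | h''
          · exact Or.inl h''
          · exact Or.inr (h.trans h' h'')

theorem exists_dec [Finite K] [DecidableEq V] [Countable V] (hp : (p : Filter ℕ) ≤ atTop)
    {c : Str r K V}
    (hgd : ∀ z : Gm p V, ∃ C : Finset (Gm p V), z ∈ C ∧ ∀ᶠ n in (p : Filter ℕ), Gd c C n) :
    ∃ N₀ F X h, Dec c N₀ F X h := by
  classical
  let s := blkSetoid c
  have hrel : ∀ X Y : {X : Finset V // Ind c X}, s X Y ↔ (X.1 = Y.1 ∨ Rl c X.1 Y.1) :=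
    fun X Y => Iff.rfl
  have hfin : Finite (Quotient s) := by
    by_contra hinf
    rw [not_finite_iff_infinite] at hinf
    let q := Infinite.natEmbedding (Quotient s)
    have hq : ∀ n m, s (q n).out (q m).out → n = m := by
      intro n m h
      apply q.injective
      have := Quotient.sound h
      rwa [Quotient.out_eq, Quotient.out_eq] at this
    obtain ⟨n, m, hnm, hr⟩ := finite_kinds hp hgd (fun n => (q n).out.1) (fun n => (q n).out.2)
      (fun n m hnm h => hnm (hq n m (Or.inl h)))
    exact hnm (hq n m (Or.inr hr))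
  let e := Finite.equivFin (Quotient s)
  let R : Fin (Nat.card (Quotient s)) → {X : Finset V // Ind c X} := fun f => (e.symm f).out
  have hR : ∀ f, (Quotient.mk s (R f)) = e.symm f := fun f => Quotient.out_eq _
  let Cf : Fin (Nat.card (Quotient s)) → Type := fun f =>
    {Y : {X : Finset V // Ind c X} // Quotient.mk s Y = e.symm f}
  have hε : ∀ f, ∃ ε : ℕ ≃ Cf f, (ε 0).1 = R f := by
    intro f
    have hcount : Countable (Cf f) := by infer_instance
    have hinf : Infinite (Cf f) := by
      obtain ⟨g, hg⟩ := (R f).2.2.1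
      have hI := fun i => ((R f).2.card_eq_of_fam hg i).1
      have hq : ∀ i, Quotient.mk s ⟨(R f).1.image (g i), hI i⟩ = e.symm f := by
        intro i
        rw [← hR f]
        apply Quotient.sound
        by_cases hi : i = 0
        · subst hi
          left
          show (R f).1.image (g 0) = (R f).1
          ext a
          rw [Finset.mem_image]
          constructor
          · rintro ⟨b, hb, rfl⟩
            rw [hg.zero b hb]; exact hb
          · intro ha
            exact ⟨a, ha, hg.zero a ha⟩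
        · right
          exact (hg.rl hi).symm
      refine Infinite.of_injective (fun i : ℕ => (⟨⟨(R f).1.image (g i), hI i⟩, hq i⟩ : Cf f)) ?_
      intro i j hij
      have h1 : (R f).1.image (g i) = (R f).1.image (g j) := congrArg (fun Y : Cf f => Y.1.1) hij
      obtain ⟨a, ha⟩ := (R f).2.1
      have h2 : g i a ∈ (R f).1.image (g j) := by
        rw [← h1]; exact Finset.mem_image_of_mem _ ha
      obtain ⟨b, hb, hba⟩ := Finset.mem_image.1 h2
      exact (hg.inj i j a ha b hb hba.symm).1
    obtain ⟨ε⟩ : Nonempty (Cf f ≃ ℕ) := nonempty_equiv_of_countable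
    let R' : Cf f := ⟨R f, hR f⟩
    refine ⟨(Equiv.swap 0 (ε R')).trans ε.symm, ?_⟩
    simp [R']
  choose ε hε0 using hε
  have hb : ∀ f i, ∃ b : V → V, Set.InjOn b (R f).1 ∧ (R f).1.image b = (ε f i).1.1 ∧
      Aut c (sbf (R f).1 b) ∧ (i = 0 → b = id) := by
    intro f i
    by_cases hi : i = 0
    · subst hi
      refine ⟨id, Set.injOn_id _, ?_, ?_, fun _ => rfl⟩
      · rw [hε0, Finset.image_id]
      · have : sbf (R f).1 id = id := by
          funext u
          by_cases hu : u ∈ (R f).1
          · rw [sbf_mem hu]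
          · exact sbf_other hu (fun a ha (h : id a = u) => hu (h ▸ ha))
        rw [this]
        exact Aut.id c
    · have h1 : s (R f) (ε f i).1 := by
        apply Quotient.exact
        rw [hR f, (ε f i).2]
      rcases (hrel _ _).1 h1 with h2 | ⟨b, h3, h4, -, h5⟩
      · exfalso
        apply hi
        apply (ε f).injective
        apply Subtype.ext
        apply Subtype.ext
        rw [hε0]
        exact h2.symm
      · exact ⟨b, h3, h4, h5, fun h => absurd h hi⟩
  choose b hb1 hb2 hb3 hb4 using hb
  have hmem : ∀ f i, ∀ a ∈ (R f).1, b f i a ∈ (ε f i).1.1 := by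
    intro f i a ha
    rw [← hb2]
    exact Finset.mem_image_of_mem _ ha
  have hblk : ∀ f i f' i', ∀ a ∈ (R f).1, ∀ a' ∈ (R f').1, b f i a = b f' i' a' →
      (ε f i).1 = (ε f' i').1 := by
    intro f i f' i' a ha a' ha' h
    apply Subtype.ext
    exact (ε f i).1.2.eq_of_mem (ε f' i').1.2 (hmem f i a ha) (h ▸ hmem f' i' a' ha')
  have hHinj : ∀ f, HInj (R f).1 (b f) := by
    intro f i j a ha a' ha' h
    have h1 := hblk f i f j a ha a' ha' h
    have h2 : i = j := (ε f).injective (Subtype.ext h1)
    subst h2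
    exact ⟨rfl, hb1 f i ha ha' h⟩
  refine ⟨(finite_outside hp hgd).toFinset, Nat.card (Quotient s), fun f => (R f).1, b, ?_⟩
  refine ⟨fun f => ⟨fun a _ => ?_, hHinj f, ?_⟩, ?_, ?_, ?_⟩
  · rw [hb4 f 0 rfl]; rfl
  · apply aut_of_zero (hHinj f)
    intro x
    rw [← sbf_eq_swp (fun a _ => by rw [hb4 f 0 rfl]; rfl) (hHinj f)]
    exact hb3 f x
  · intro v hv
    rw [Set.Finite.mem_toFinset] at hv
    have hv' : ∃ X, Ind c X ∧ v ∈ X := by
      by_contra h
      exact hv h
    obtain ⟨Y, hY, hvY⟩ := hv'
    let Y' : {X : Finset V // Ind c X} := ⟨Y, hY⟩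
    let f := e (Quotient.mk s Y')
    have hf : Quotient.mk s Y' = e.symm f := by simp [f]
    let i := (ε f).symm ⟨Y', hf⟩
    have hi : (ε f i).1.1 = Y := by simp [i, Y']
    have h1 : v ∈ (R f).1.image (b f i) := by
      rw [hb2, hi]; exact hvY
    obtain ⟨a, ha, hav⟩ := Finset.mem_image.1 h1
    exact ⟨f, i, a, ha, hav⟩
  · intro f i a ha h
    rw [Set.Finite.mem_toFinset] at h
    exact h ⟨_, (ε f i).1.2, hmem f i a ha⟩
  · intro f f' i i' a ha a' ha' h
    have h1 := hblk f i f' i' a ha a' ha' h
    have h2 := (ε f i).2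
    have h3 := (ε f' i').2
    rw [h1, h3] at h2
    exact (e.symm.injective h2).symm

end Pool.Agent.H566V
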