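import Pool.Agent.H566V.Free

/-!
Closed classes of coloured structures.
-/

set_option autoImplicit false

namespace Pool.Agent.H566V

open Set Filter Topology

variable {r : ℕ} {Col : Type}

/-- invariance under permutations -/
def PInv (B : Set (Str r Col ℕ)) : Prop :=
  ∀ x ∈ B, ∀ σ : Equiv.Perm ℕ, (fun t : Fin r → ℕ => x (σ ∘ t)) ∈ B

/-- countably many isomorphism types -/
def Small (B : Set (Str r Col ℕ)) : Prop :=
  ∃ C : Set (Str r Col ℕ), C.Countable ∧ ∀ x ∈ B, ∃ y ∈ C, Isom y x

/-- continuum many isomorphism types -/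
def Big (B : Set (Str r Col ℕ)) : Prop :=
  ∃ g : (ℕ → Bool) → Str r Col ℕ, (∀ A, g A ∈ B) ∧ ∀ A A', Isom (g A) (g A') → A = A'

theorem PInv.isom {B : Set (Str r Col ℕ)} (hB : PInv B) {x y : Str r Col ℕ} (h : Isom x y)
    (hx : x ∈ B) : y ∈ B := by
  obtain ⟨e, he⟩ := h
  have := hB x hx e.symm
  have h1 : (fun t : Fin r → ℕ => x (e.symm ∘ t)) = y := by
    funext t
    rw [← he]
    congr 1
    funext j
    simp
  rwa [h1] at this

/-- extension of a finite partial injection -/
theorem exists_perm (F : Finset ℕ) (e : ℕ → ℕ) (he : Set.InjOn e F) :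
    ∃ σ : Equiv.Perm ℕ, ∀ a ∈ F, σ a = e a := by
  classical
  have h1 : Infinite ((F : Set ℕ)ᶜ : Set ℕ) := (Set.Finite.infinite_compl F.finite_toSet).to_subtype
  have h2 : Infinite ((e '' (F : Set ℕ))ᶜ : Set ℕ) :=
    (Set.Finite.infinite_compl (F.finite_toSet.image e)).to_subtype
  obtain ⟨b⟩ : Nonempty (((F : Set ℕ)ᶜ : Set ℕ) ≃ ((e '' (F : Set ℕ))ᶜ : Set ℕ)) :=
    nonempty_equiv_of_countable
  let a : (F : Set ℕ) ≃ (e '' (F : Set ℕ)) := Equiv.Set.imageOfInjOn e F he
  refine ⟨((Equiv.Set.sumCompl (F : Set ℕ)).symm.trans (Equiv.sumCongr a b)).trans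
    (Equiv.Set.sumCompl (e '' (F : Set ℕ))), fun x hx => ?_⟩
  simp only [Equiv.trans_apply]
  rw [Equiv.Set.sumCompl_symm_apply_of_mem (Finset.mem_coe.2 hx)]
  simp [a, Equiv.Set.imageOfInjOn]

theorem mem_of_cls [TopologicalSpace Col] {B : Set (Str r Col ℕ)} (hc : IsClosed B)
    (hB : PInv B) {c d : Str r Col ℕ} (hcB : c ∈ B) (h : Cls c d) : d ∈ B := by
  classical
  have hex : ∀ n : ℕ, ∃ x ∈ B, ∀ t : Fin r → ℕ, (∀ j, t j < n) → x t = d t := by
    intro n
    obtain ⟨e, he1, he2⟩ := h (Finset.range n)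
    obtain ⟨σ, hσ⟩ := exists_perm (Finset.range n) e he1
    refine ⟨_, hB c hcB σ, fun t ht => ?_⟩
    rw [← he2 t (fun j => Finset.mem_range.2 (ht j))]
    show c (σ ∘ t) = c (e ∘ t)
    congr 1
    funext j
    exact hσ _ (Finset.mem_range.2 (ht j))
  choose x hx1 hx2 using hex
  refine hc.mem_of_tendsto (f := x) (b := atTop) ?_ (Filter.Eventually.of_forall hx1)
  rw [tendsto_pi_nhds]
  intro t
  apply tendsto_const_nhds.congr'
  filter_upwards [eventually_gt_atTop (Finset.univ.sup t)] with n hn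
  exact (hx2 n t (fun j => lt_of_le_of_lt (Finset.le_sup (f := t) (Finset.mem_univ j)) hn)).symm

/-- infinitely many colours -/
theorem big_of_infinite [TopologicalSpace Col] {B : Set (Str r Col ℕ)} (hc : IsClosed B)
    (hB : PInv B) {c : Str r Col ℕ} (hcB : c ∈ B) (hinf : (Set.range c).Infinite) : Big B := by
  classical
  obtain ⟨v, hv1, hv2⟩ := exists_free c hinf
  let D : (ℕ → Bool) → Set ℕ := fun A => {n | ∃ l ∈ codeSet A, ∃ j, n = v l j}
  have hDinf : ∀ A, (D A).Infinite := by
    intro A hfin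
    have h1 : {t : Fin r → ℕ | ∀ j, t j ∈ D A}.Finite :=
      Set.Finite.pi' (t := fun _ : Fin r => D A) (fun _ => hfin)
    apply codeSet_infinite A
    refine Set.Finite.of_injOn (f := v) (t := {t : Fin r → ℕ | ∀ j, t j ∈ D A}) ?_ ?_ h1
    · intro l hl j
      exact ⟨l, hl, j, rfl⟩
    · intro l _ l' _ h
      exact hv1 l l' (by rw [h])
  have hε : ∀ A, Nonempty (ℕ ≃ D A) := by
    intro A
    have := (hDinf A).to_subtype
    exact nonempty_equiv_of_countable
  let ε : ∀ A, ℕ ≃ D A := fun A => Classical.choice (hε A)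
  let g : (ℕ → Bool) → Str r Col ℕ := fun A t => c (fun j => (ε A (t j)).1)
  have hg : ∀ A l, c (v l) ∈ Set.range (g A) ↔ l ∈ codeSet A := by
    intro A l
    constructor
    · rintro ⟨t, ht⟩
      have h1 : ∀ j, ∃ x ∈ codeSet A, ∃ i, (ε A (t j)).1 = v x i := fun j => (ε A (t j)).2
      choose x hx σ hσ using h1
      have h2 : c (fun j => v (x j) (σ j)) = c (v l) := by
        rw [← ht]
        show _ = c (fun j => (ε A (t j)).1)
        congr 1
        funext j
        rw [hσ]
      obtain ⟨j, hj⟩ := hv2 x σ l h2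
      rw [← hj]
      exact hx j
    · intro hl
      refine ⟨fun j => (ε A).symm ⟨v l j, l, hl, j, rfl⟩, ?_⟩
      show c (fun j => (ε A ((ε A).symm ⟨v l j, l, hl, j, rfl⟩)).1) = c (v l)
      simp
  refine ⟨g, fun A => ?_, fun A A' h => ?_⟩
  · exact mem_of_cls hc hB hcB ((Cls.refl c).pull (fun n => (ε A n).1)
      (fun a b hab => (ε A).injective (Subtype.ext hab)))
  · have hr : Set.range (g A) = Set.range (g A') := by
      obtain ⟨e, he⟩ := h
      ext k
      constructor
      · rintro ⟨t, rfl⟩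
        exact ⟨e ∘ t, he t⟩
      · rintro ⟨t, rfl⟩
        refine ⟨e.symm ∘ t, ?_⟩
        rw [← he]
        congr 1
        funext j
        simp
    apply codeSet_inj
    ext l
    rw [← hg, ← hg, hr]

/-- factorisation of a structure with finitely many colours -/
theorem exists_factor {c : Str r Col ℕ} (hfin : (Set.range c).Finite) :
    ∃ (m : ℕ) (κ : Fin m → Col) (S : Str r (Fin m) ℕ), Function.Injective κ ∧
      Function.Surjective S ∧ ∀ t, c t = κ (S t) := by
  classical
  have := hfin.to_subtype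
  let e := Finite.equivFin (Set.range c)
  refine ⟨Nat.card (Set.range c), fun i => (e.symm i).1,
    fun t => e ⟨c t, Set.mem_range_self t⟩, ?_, ?_, ?_⟩
  · intro i j h
    exact e.symm.injective (Subtype.ext h)
  · intro i
    obtain ⟨t, ht⟩ := (e.symm i).2
    refine ⟨t, ?_⟩
    have h1 : (⟨c t, Set.mem_range_self t⟩ : Set.range c) = e.symm i := Subtype.ext ht
    show e ⟨c t, Set.mem_range_self t⟩ = i
    rw [h1, Equiv.apply_symm_apply]
  · intro t
    show c t = (e.symm (e ⟨c t, Set.mem_range_self t⟩)).1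
    rw [Equiv.symm_apply_apply]

theorem big_of_cont [TopologicalSpace Col] {B : Set (Str r Col ℕ)} (hc : IsClosed B)
    (hB : PInv B) {m : ℕ} {κ : Fin m → Col} (hκ : Function.Injective κ)
    {S : Str r (Fin m) ℕ} (hS : (fun t => κ (S t)) ∈ B) (hC : Cont S) : Big B := by
  obtain ⟨g, hg1, hg2⟩ := hC
  refine ⟨fun A t => κ (g A t), fun A => ?_, fun A A' h => ?_⟩
  · refine mem_of_cls hc hB hS (fun F => ?_)
    obtain ⟨e, he1, he2⟩ := hg1 A F
    exact ⟨e, he1, fun t ht => congrArg κ (he2 t ht)⟩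
  · obtain ⟨e, he⟩ := h
    exact hg2 A A' ⟨e, fun t => hκ (he t)⟩

theorem big_of_uncountable [TopologicalSpace Col] [PolishSpace Col] {B : Set (Str r Col ℕ)}
    (hc : IsClosed B) {m : ℕ} {S : Str r (Fin m) ℕ} (hS : Function.Surjective S)
    (hX : ¬ {κ : Fin m → Col | (fun t => κ (S t)) ∈ B}.Countable) : Big B := by
  classical
  have hcl : IsClosed {κ : Fin m → Col | (fun t => κ (S t)) ∈ B} := by
    apply hc.preimage
    apply continuous_pi
    intro t
    exact continuous_apply (S t)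
  obtain ⟨f, hf1, -, hf2⟩ := hcl.exists_nat_bool_injection_of_not_countable hX
  obtain ⟨g, hg⟩ := exists_inj_of_countable_classes (fun a b : Str r Col ℕ => Isom a b)
    ⟨fun a => Isom.refl a, fun h => h.symm, fun h h' => h.trans h'⟩
    (fun A t => f A (S t)) (fun A => by
      have hfin : {κ : Fin m → Col | ∀ i, κ i ∈ Set.range (f A)}.Finite :=
        Set.Finite.pi' (t := fun _ : Fin m => Set.range (f A)) (fun _ => Set.finite_range _)
      refine ((hfin.preimage (f := f) hf2.injOn).subset ?_).countable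
      rintro A' ⟨e, he⟩ i
      obtain ⟨t, rfl⟩ := hS i
      refine ⟨S (e.symm ∘ t), ?_⟩
      have h1 := he (e.symm ∘ t)
      have h2 : e ∘ (e.symm ∘ t) = t := by funext j; simp
      rw [h2] at h1
      exact h1.symm)
  exact ⟨fun A t => f (g A) (S t), fun A => hf1 ⟨g A, rfl⟩, hg⟩

/-- The theorem for closed classes. -/
theorem closed_class [TopologicalSpace Col] [PolishSpace Col] {B : Set (Str r Col ℕ)}
    (hc : IsClosed B) (hB : PInv B) : Small B ∨ Big B := by
  classical
  by_cases hBig : Big B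
  · exact Or.inr hBig
  left
  have hfin : ∀ c ∈ B, (Set.range c).Finite := fun c hcB => by
    by_contra hinf
    exact hBig (big_of_infinite hc hB hcB hinf)
  have hdec : ∀ (m : ℕ) (κ : Fin m → Col) (S : Str r (Fin m) ℕ), Function.Injective κ →
      (fun t => κ (S t)) ∈ B → IsDec S := by
    intro m κ S hκ hS
    rcases isDec_or_cont S with h | h
    · exact h
    · exact absurd (big_of_cont hc hB hκ hS h) hBig
  have hX : ∀ (m : ℕ) (S : Str r (Fin m) ℕ), Function.Surjective S →
      {κ : Fin m → Col | (fun t => κ (S t)) ∈ B}.Countable := by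
    intro m S hS
    by_contra h
    exact hBig (big_of_uncountable hc hS h)
  choose code hcode using fun m : ℕ => exists_code r (Fin m) ℕ
  -- representatives
  let Rp : (m : ℕ) → Option (Code r (Fin m)) → Set (Str r Col ℕ) := fun m q =>
    if h : ∃ S : Str r (Fin m) ℕ, IsDec S ∧ Function.Surjective S ∧ code m S = q then
      (fun (κ : Fin m → Col) (t : Fin r → ℕ) => κ (h.choose t)) ''
        {κ : Fin m → Col | (fun t => κ (h.choose t)) ∈ B}
    else ∅
  have hRp : ∀ m q, (Rp m q).Countable := by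
    intro m q
    simp only [Rp]
    split_ifs with h
    · exact (hX m _ h.choose_spec.2.1).image _
    · exact Set.countable_empty
  refine ⟨⋃ m, ⋃ q, Rp m q, Set.countable_iUnion fun m => Set.countable_iUnion fun q => hRp m q,
    fun c hcB => ?_⟩
  obtain ⟨m, κ, S, hκ, hS, hcS⟩ := exists_factor (hfin c hcB)
  have hcS' : (fun t => κ (S t)) = c := funext fun t => (hcS t).symm
  have hSd := hdec m κ S hκ (by rw [hcS']; exact hcB)
  have hex : ∃ S' : Str r (Fin m) ℕ, IsDec S' ∧ Function.Surjective S' ∧ code m S' = code m S :=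
    ⟨S, hSd, hS, rfl⟩
  have hiso := hcode m _ S hex.choose_spec.1 hSd hex.choose_spec.2.2
  have hiso' : Isom (fun t => κ (hex.choose t)) c := by
    obtain ⟨e, he⟩ := hiso
    exact ⟨e, fun t => by rw [hcS, he]⟩
  refine ⟨fun t => κ (hex.choose t), ?_, hiso'⟩
  rw [Set.mem_iUnion]
  refine ⟨m, ?_⟩
  rw [Set.mem_iUnion]
  refine ⟨code m S, ?_⟩
  simp only [Rp, dif_pos hex]
  exact ⟨κ, hB.isom hiso'.symm hcB, rfl⟩

end Pool.Agent.H566V
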