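import Pool.Agent.H566V.Fsig

/-!
Relational structures in a countable language of bounded arity.
-/

set_option autoImplicit false

namespace Pool.Agent.H566V

open Set Filter Topology

variable {a : ℕ → ℕ} {r : ℕ}

/-- relational structures on `ℕ` -/
abbrev St (a : ℕ → ℕ) : Type := (i : ℕ) → (Fin (a i) → ℕ) → Bool

/-- a relational structure as a coloured structure -/
def toS (ha : ∀ i, a i ≤ r) (x : St a) : Str r (ℕ → Bool) ℕ :=
  fun t i => x i (fun j => t (Fin.castLE (ha i) j))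

/-- padding -/
def pad (r : ℕ) {n : ℕ} (v : Fin n → ℕ) : Fin r → ℕ :=
  fun j => if h : j.val < n then v ⟨j.val, h⟩ else 0

/-- back -/
def unS (a : ℕ → ℕ) (y : Str r (ℕ → Bool) ℕ) : St a := fun i v => y (pad r v) i

theorem pad_cast {n : ℕ} (h : n ≤ r) (v : Fin n → ℕ) :
    (fun j => pad r v (Fin.castLE h j)) = v := by
  funext j
  simp [pad]

theorem unS_toS (ha : ∀ i, a i ≤ r) (x : St a) : unS a (toS ha x) = x := by
  funext i v
  show x i (fun j => pad r v (Fin.castLE (ha i) j)) = x i v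
  rw [pad_cast]

theorem isom_toS (ha : ∀ i, a i ≤ r) {x y : St a} :
    Isom (toS ha x) (toS ha y) ↔
      ∃ σ : Equiv.Perm ℕ, ∀ (i : ℕ) (v : Fin (a i) → ℕ), y i (σ ∘ v) = x i v := by
  constructor
  · rintro ⟨σ, h⟩
    refine ⟨σ, fun i v => ?_⟩
    have h1 : y i (fun j => (σ ∘ pad r v) (Fin.castLE (ha i) j)) =
        x i (fun j => pad r v (Fin.castLE (ha i) j)) := congrFun (h (pad r v)) i
    rw [pad_cast] at h1
    rw [← h1]
    congr 1
    funext j
    simp only [Function.comp]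
    rw [congrFun (pad_cast (ha i) v) j]
  · rintro ⟨σ, h⟩
    refine ⟨σ, fun t => ?_⟩
    funext i
    exact h i (fun j => t (Fin.castLE (ha i) j))

theorem polish_cantor : PolishSpace (ℕ → Bool) := by
  have : ∀ _ : ℕ, TopologicalSpace.IsCompletelyMetrizableSpace Bool := fun _ => inferInstance
  have : TopologicalSpace.IsCompletelyMetrizableSpace (ℕ → Bool) :=
    TopologicalSpace.IsCompletelyMetrizableSpace.pi_countable
  infer_instance

theorem fsigma_relational (ha : ∀ i, a i ≤ r) {B : Set (St a)} {F : ℕ → Set (St a)}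
    (hF : ∀ n, IsClosed (F n)) (hBF : B = ⋃ n, F n)
    (hB : ∀ x y : St a, ∀ σ : Equiv.Perm ℕ, (∀ (i : ℕ) (v : Fin (a i) → ℕ),
      y i (σ ∘ v) = x i v) → (x ∈ B ↔ y ∈ B)) :
    (∃ f : ℕ → St a, ∀ x ∈ B, ∃ n : ℕ, ∃ σ : Equiv.Perm ℕ,
      ∀ (i : ℕ) (v : Fin (a i) → ℕ), x i (σ ∘ v) = f n i v) ∨
    (∃ g : (ℕ → Bool) → St a, (∀ c, g c ∈ B) ∧ ∀ c d : ℕ → Bool,
      (∃ σ : Equiv.Perm ℕ, ∀ (i : ℕ) (v : Fin (a i) → ℕ), g d i (σ ∘ v) = g c i v) → c = d) := by
  classical
  have hpol := polish_cantor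
  have h1 : Continuous (toS (a := a) (r := r) ha) :=
    continuous_pi fun t => continuous_pi fun i =>
      (continuous_apply (fun j => t (Fin.castLE (ha i) j))).comp (continuous_apply i)
  have h2 : Continuous (unS (r := r) a) :=
    continuous_pi fun i => continuous_pi fun v =>
      (continuous_apply i).comp (continuous_apply (pad r v))
  have him : toS ha '' B = ⋃ n, ({y | toS ha (unS a y) = y} ∩ unS a ⁻¹' F n) := by
    ext y
    rw [Set.mem_iUnion]
    constructor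
    · rintro ⟨x, hx, rfl⟩
      rw [hBF] at hx
      obtain ⟨n, hn⟩ := Set.mem_iUnion.1 hx
      exact ⟨n, by show toS ha (unS a (toS ha x)) = toS ha x; rw [unS_toS],
        by show unS a (toS ha x) ∈ F n; rw [unS_toS]; exact hn⟩
    · rintro ⟨n, h3, h4⟩
      exact ⟨unS a y, by rw [hBF]; exact Set.mem_iUnion.2 ⟨n, h4⟩, h3⟩
  have hinv : PInv (toS ha '' B) := by
    rintro _ ⟨x, hx, rfl⟩ σ
    refine ⟨fun i v => x i (σ ∘ v), ?_, rfl⟩
    exact (hB (fun i v => x i (σ ∘ v)) x σ (fun i v => rfl)).2 hx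
  rcases fsigma_class (fun n => (isClosed_eq (h1.comp h2) continuous_id).inter
    ((hF n).preimage h2)) him hinv with ⟨C, hC1, hC2⟩ | ⟨g, hg1, hg2⟩
  · left
    rcases C.eq_empty_or_nonempty with rfl | hne
    · refine ⟨fun _ _ _ => false, fun x hx => ?_⟩
      obtain ⟨y, hy, -⟩ := hC2 _ ⟨x, hx, rfl⟩
      exact absurd hy (Set.notMem_empty y)
    · obtain ⟨f, hf⟩ := hC1.exists_eq_range hne
      refine ⟨fun n => if h : ∃ x ∈ B, Isom (f n) (toS ha x) then h.choose else
        fun _ _ => false, fun x hx => ?_⟩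
      obtain ⟨y, hy, hyx⟩ := hC2 _ ⟨x, hx, rfl⟩
      rw [hf] at hy
      obtain ⟨n, rfl⟩ := hy
      have hex : ∃ x ∈ B, Isom (f n) (toS ha x) := ⟨x, hx, hyx⟩
      refine ⟨n, ?_⟩
      have h3 := hex.choose_spec.2.symm.trans hyx
      obtain ⟨σ, hσ⟩ := (isom_toS ha).1 h3
      exact ⟨σ, fun i v => by
        simp only [dif_pos hex]
        exact hσ i v⟩
  · right
    choose x hx1 hx2 using hg1
    refine ⟨x, hx1, fun c d h => ?_⟩
    apply hg2
    rw [← hx2, ← hx2]
    exact (isom_toS ha).2 h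

end Pool.Agent.H566V
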