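import Pool.Agent.H566V.Inv

/-!
The order case, part 1: the substructures and the classes of partial tuples.
-/

set_option autoImplicit false

namespace Pool.Agent.H566V

open Set Filter Topology

variable {r : ℕ} {K V G : Type}

/-- coordinates in a row -/
def EE (t₀ : Fin r → V ⊕ (ℚ × G)) (x : ℚ) : Finset (Fin r) :=
  Finset.univ.filter (fun j => row (t₀ j) = some x)

theorem mem_EE {t₀ : Fin r → V ⊕ (ℚ × G)} {x : ℚ} {j : Fin r} :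
    j ∈ EE t₀ x ↔ row (t₀ j) = some x := by simp [EE]

/-- a minimal witness of order dependence -/
structure Wit (c : Str r K (V ⊕ (ℚ × G))) (t₀ : Fin r → V ⊕ (ℚ × G)) (x₀ y₀ l u : ℚ)
    (col : Fin r → G) : Prop where
  pat : PatInv c
  lt : x₀ < y₀
  lx : l < x₀
  yu : y₀ < u
  hrows : ∀ z ∈ rows t₀, l < z → z < u → z = x₀ ∨ z = y₀
  ne : c (mv (Equiv.swap x₀ y₀) ∘ t₀) ≠ c t₀
  hx : x₀ ∈ rows t₀
  hy : y₀ ∈ rows t₀
  adj : AdjInv c (nr t₀ x₀ + nr t₀ y₀)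
  hcol : ∀ j y, row (t₀ j) = some y → t₀ j = Sum.inr (y, col j)

/-- positions of rows -/
structure Pos (l u : ℚ) (L M : Set ℚ) (I : Set ℕ) (Gr : ℕ → Finset ℚ) : Prop where
  hL : ∀ x, x ∈ L ↔ ∃ i ∈ I, x ∈ Gr i
  lL : ∀ x ∈ L, l < x ∧ x < u
  lM : ∀ x ∈ M, l < x ∧ x < u
  disj : ∀ x ∈ L, x ∉ M
  Ml : ∀ x, l < x → x < u → {y | y ∈ M ∧ y < x}.Infinite
  Mr : ∀ x, l < x → x < u → {y | y ∈ M ∧ x < y}.Infinite
  same : ∀ i ∈ I, ∀ x ∈ Gr i, ∀ y ∈ Gr i, ∀ z ∈ M, ¬ (x < z ∧ z < y)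
  sep : ∀ x y, (x ∈ L ∨ x ∈ M) → (y ∈ L ∨ y ∈ M) → x < y → (¬ ∃ i ∈ I, x ∈ Gr i ∧ y ∈ Gr i) →
    {z | z ∈ M ∧ x < z ∧ z < y}.Infinite
  Lfin : ∀ x y, l < x → y < u → {z | z ∈ L ∧ x < z ∧ z < y}.Finite
  Linf : L.Infinite
  uniq : ∀ i ∈ I, ∀ i' ∈ I, ∀ x, x ∈ Gr i → x ∈ Gr i' → i = i'

/-- the substructure -/
def DD (t₀ : Fin r → V ⊕ (ℚ × G)) (x₀ y₀ : ℚ) (col : Fin r → G) (L M : Set ℚ) :
    Set (V ⊕ (ℚ × G)) :=
  {v | (∃ j, j ∉ EE t₀ x₀ ∧ j ∉ EE t₀ y₀ ∧ v = t₀ j) ∨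
    (∃ x ∈ L, ∃ j ∈ EE t₀ x₀, v = Sum.inr (x, col j)) ∨
    (∃ x ∈ M, ∃ j ∈ EE t₀ y₀, v = Sum.inr (x, col j))}

section

variable {c : Str r K (V ⊕ (ℚ × G))} {t₀ : Fin r → V ⊕ (ℚ × G)} {x₀ y₀ l u : ℚ}
  {col : Fin r → G} (hw : Wit c t₀ x₀ y₀ l u col) {L M : Set ℚ} {I : Set ℕ} {Gr : ℕ → Finset ℚ}
  (hp : Pos l u L M I Gr)
include hw

theorem Wit.disjE {j : Fin r} (h : j ∈ EE t₀ x₀) : j ∉ EE t₀ y₀ := by
  rw [mem_EE] at *
  rw [h]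
  intro h'
  exact hw.lt.ne (Option.some.inj h')

theorem Wit.nonemptyE : (EE t₀ x₀).Nonempty := by
  obtain ⟨j, hj⟩ := mem_rows.1 hw.hx
  exact ⟨j, mem_EE.2 hj⟩

theorem Wit.nonemptyE' : (EE t₀ y₀).Nonempty := by
  obtain ⟨j, hj⟩ := mem_rows.1 hw.hy
  exact ⟨j, mem_EE.2 hj⟩

theorem Wit.adj' : AdjInv c ((EE t₀ x₀).card + (EE t₀ y₀).card) := hw.adj

theorem Wit.not_row {j : Fin r} (h : j ∉ EE t₀ x₀) (h' : j ∉ EE t₀ y₀) {w : ℚ} (h1 : l < w)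
    (h2 : w < u) : row (t₀ j) ≠ some w := by
  intro h3
  rcases hw.hrows w (mem_rows.2 ⟨j, h3⟩) h1 h2 with h4 | h4
  · exact h (mem_EE.2 (h4 ▸ h3))
  · exact h' (mem_EE.2 (h4 ▸ h3))

theorem mem_row {v : V ⊕ (ℚ × G)} (hv : v ∈ DD t₀ x₀ y₀ col L M) {x : ℚ} (h : row v = some x)
    (h1 : l < x) (h2 : x < u) :
    (x ∈ L ∧ ∃ j ∈ EE t₀ x₀, v = Sum.inr (x, col j)) ∨
      (x ∈ M ∧ ∃ j ∈ EE t₀ y₀, v = Sum.inr (x, col j)) := by
  rcases hv with ⟨j, hj, hj', rfl⟩ | ⟨y, hy, j, hj, rfl⟩ | ⟨y, hy, j, hj, rfl⟩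
  · exact absurd h (hw.not_row hj hj' h1 h2)
  · have : y = x := Option.some.inj h
    subst this
    exact Or.inl ⟨hy, j, hj, rfl⟩
  · have : y = x := Option.some.inj h
    subst this
    exact Or.inr ⟨hy, j, hj, rfl⟩

/-- `y` is of the same kind as `x` -/
def Kd (L M : Set ℚ) (x : ℚ) : Set ℚ := {y | (x ∈ L → y ∈ L) ∧ (x ∈ M → y ∈ M) ∧ (x ∈ L ∨ x ∈ M)}

theorem mem_mv {v : V ⊕ (ℚ × G)} (hv : v ∈ DD t₀ x₀ y₀ col L M) {x y : ℚ} (h1 : l < x)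
    (h2 : x < u) (hy : y ∈ Kd L M x) :
    mv (Function.update id x y) v ∈ DD t₀ x₀ y₀ col L M := by
  classical
  by_cases h : row v = some x
  · rcases mem_row hw hv h h1 h2 with ⟨hx, j, hj, rfl⟩ | ⟨hx, j, hj, rfl⟩
    · right; left
      exact ⟨y, hy.1 hx, j, hj, by simp⟩
    · right; right
      exact ⟨y, hy.2.1 hx, j, hj, by simp⟩
  · rw [mv_id]
    · exact hv
    · intro z hz
      rw [Function.update_of_ne]
      · rfl
      · intro h'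
        exact h (h' ▸ hz)

omit hw in
include hp in
theorem kd_infinite {x : ℚ} (hx : x ∈ L ∨ x ∈ M) : (Kd L M x).Infinite := by
  rcases hx with hx | hx
  · have : L ⊆ Kd L M x := fun y hy => ⟨fun _ => hy, fun h => absurd h (hp.disj x hx), Or.inl hx⟩
    exact hp.Linf.mono this
  · have : M ⊆ Kd L M x := fun y hy =>
      ⟨fun h => absurd hx (hp.disj x h), fun _ => hy, Or.inr hx⟩
    have hMinf : M.Infinite := (hp.Ml x (hp.lM x hx).1 (hp.lM x hx).2).mono (fun y hy => hy.1)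
    exact hMinf.mono this

omit hw in
include hp in
theorem kd_bd {x y : ℚ} (hy : y ∈ Kd L M x) : l < y ∧ y < u := by
  rcases hy.2.2 with h | h
  · exact hp.lL y (hy.1 h)
  · exact hp.lM y (hy.2.1 h)

end

/-- the restricted structure -/
def cD (c : Str r K (V ⊕ (ℚ × G))) (D : Set (V ⊕ (ℚ × G))) : Str r K D :=
  fun t => c (fun j => (t j).1)

section

variable {c : Str r K (V ⊕ (ℚ × G))} {t₀ : Fin r → V ⊕ (ℚ × G)} {x₀ y₀ l u : ℚ}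
  {col : Fin r → G} (hw : Wit c t₀ x₀ y₀ l u col) {L M : Set ℚ} {I : Set ℕ} {Gr : ℕ → Finset ℚ}
  (hp : Pos l u L M I Gr) (τ : Fin r → DD t₀ x₀ y₀ col L M)
  (hτ : ∀ j, j ∉ EE t₀ x₀ → j ∉ EE t₀ y₀ → (τ j).1 = t₀ j)

/-- the tuple in the big structure -/
def TT (U : {j // j ∈ EE t₀ x₀} → DD t₀ x₀ y₀ col L M) (z : Fin r → DD t₀ x₀ y₀ col L M) :
    Fin r → V ⊕ (ℚ × G) := comb (EE t₀ x₀) (EE t₀ y₀) t₀ (fun j => (U j).1) (fun j => (z j).1)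

include hτ in
theorem cD_comb (U : {j // j ∈ EE t₀ x₀} → DD t₀ x₀ y₀ col L M)
    (z : Fin r → DD t₀ x₀ y₀ col L M) :
    cD c (DD t₀ x₀ y₀ col L M) (comb (EE t₀ x₀) (EE t₀ y₀) τ U z) = c (TT U z) := by
  unfold cD TT
  congr 1
  funext j
  unfold comb
  split_ifs with h1 h2
  · rfl
  · rfl
  · exact hτ j h1 h2

theorem TT_E (U : {j // j ∈ EE t₀ x₀} → DD t₀ x₀ y₀ col L M) (z : Fin r → DD t₀ x₀ y₀ col L M)
    {j : Fin r} (h : j ∈ EE t₀ x₀) : TT U z j = (U ⟨j, h⟩).1 := by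
  simp [TT, comb, h]

theorem TT_E' (U : {j // j ∈ EE t₀ x₀} → DD t₀ x₀ y₀ col L M) (z : Fin r → DD t₀ x₀ y₀ col L M)
    {j : Fin r} (h : j ∉ EE t₀ x₀) (h' : j ∈ EE t₀ y₀) : TT U z j = (z j).1 := by
  simp [TT, comb, h, h']

theorem TT_o (U : {j // j ∈ EE t₀ x₀} → DD t₀ x₀ y₀ col L M) (z : Fin r → DD t₀ x₀ y₀ col L M)
    {j : Fin r} (h : j ∉ EE t₀ x₀) (h' : j ∉ EE t₀ y₀) : TT U z j = t₀ j := by
  simp [TT, comb, h, h']

include hw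

theorem TT_row {U : {j // j ∈ EE t₀ x₀} → DD t₀ x₀ y₀ col L M}
    {z : Fin r → DD t₀ x₀ y₀ col L M} {j : Fin r} {w : ℚ} (h : row (TT U z j) = some w)
    (h1 : l < w) (h2 : w < u) :
    (∃ hj : j ∈ EE t₀ x₀, row (U ⟨j, hj⟩).1 = some w) ∨
      (j ∉ EE t₀ x₀ ∧ j ∈ EE t₀ y₀ ∧ row (z j).1 = some w) := by
  by_cases hj : j ∈ EE t₀ x₀
  · left
    rw [TT_E U z hj] at h
    exact ⟨hj, h⟩
  · right
    by_cases hj' : j ∈ EE t₀ y₀
    · rw [TT_E' U z hj hj'] at h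
      exact ⟨hj, hj', h⟩
    · rw [TT_o U z hj hj'] at h
      exact absurd h (hw.not_row hj hj' h1 h2)

theorem nrT_le_E {U : {j // j ∈ EE t₀ x₀} → DD t₀ x₀ y₀ col L M}
    {z : Fin r → DD t₀ x₀ y₀ col L M} {w : ℚ} (h1 : l < w) (h2 : w < u)
    (hz : ∀ j ∈ EE t₀ y₀, row (z j).1 ≠ some w) : nr (TT U z) w ≤ (EE t₀ x₀).card := by
  refine Finset.card_le_card (fun j hj => ?_)
  rcases TT_row hw (Finset.mem_filter.1 hj).2 h1 h2 with h | h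
  · exact h.1
  · exact absurd h.2.2 (hz j h.2.1)

theorem nrT_lt_E {U : {j // j ∈ EE t₀ x₀} → DD t₀ x₀ y₀ col L M}
    {z : Fin r → DD t₀ x₀ y₀ col L M} {w : ℚ} (h1 : l < w) (h2 : w < u)
    (hz : ∀ j ∈ EE t₀ y₀, row (z j).1 ≠ some w) (hU : ∃ j, row (U j).1 ≠ some w) :
    nr (TT U z) w < (EE t₀ x₀).card := by
  obtain ⟨⟨j₁, hj₁⟩, hne⟩ := hU
  refine Finset.card_lt_card ((Finset.ssubset_iff_of_subset (fun j hj => ?_)).2 ⟨j₁, hj₁, ?_⟩)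
  · rcases TT_row hw (Finset.mem_filter.1 hj).2 h1 h2 with h | h
    · exact h.1
    · exact absurd h.2.2 (hz j h.2.1)
  · intro h
    have := (Finset.mem_filter.1 h).2
    rw [TT_E U z hj₁] at this
    exact hne this

theorem nrT_le_E' {U : {j // j ∈ EE t₀ x₀} → DD t₀ x₀ y₀ col L M}
    {z : Fin r → DD t₀ x₀ y₀ col L M} {w : ℚ} (h1 : l < w) (h2 : w < u)
    (hU : ∀ j, row (U j).1 ≠ some w) : nr (TT U z) w ≤ (EE t₀ y₀).card := by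
  refine Finset.card_le_card (fun j hj => ?_)
  rcases TT_row hw (Finset.mem_filter.1 hj).2 h1 h2 with h | h
  · exact absurd h.2 (hU _)
  · exact h.2.1

theorem nrT_lt_E' {U : {j // j ∈ EE t₀ x₀} → DD t₀ x₀ y₀ col L M}
    {z : Fin r → DD t₀ x₀ y₀ col L M} {w : ℚ} (h1 : l < w) (h2 : w < u)
    (hU : ∀ j, row (U j).1 ≠ some w) (hz : ∃ j ∈ EE t₀ y₀, row (z j).1 ≠ some w) :
    nr (TT U z) w < (EE t₀ y₀).card := by
  obtain ⟨j₁, hj₁, hne⟩ := hz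
  refine Finset.card_lt_card ((Finset.ssubset_iff_of_subset (fun j hj => ?_)).2 ⟨j₁, hj₁, ?_⟩)
  · rcases TT_row hw (Finset.mem_filter.1 hj).2 h1 h2 with h | h
    · exact absurd h.2 (hU _)
    · exact h.2.1
  · intro h
    have h3 := (Finset.mem_filter.1 h).2
    rcases TT_row hw h3 h1 h2 with h | h
    · exact absurd h.2 (hU _)
    · exact hne h.2.2

theorem nrT_add {U : {j // j ∈ EE t₀ x₀} → DD t₀ x₀ y₀ col L M}
    {z : Fin r → DD t₀ x₀ y₀ col L M} {w w' : ℚ} (h1 : l < w) (h2 : w < u) (h1' : l < w')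
    (h2' : w' < u) (hne : w ≠ w') (hz : ∀ j ∈ EE t₀ y₀, row (z j).1 ≠ some w)
    (hz' : ∀ j ∈ EE t₀ y₀, row (z j).1 ≠ some w') :
    nr (TT U z) w + nr (TT U z) w' ≤ (EE t₀ x₀).card := by
  classical
  unfold nr
  rw [← Finset.card_union_of_disjoint]
  · refine Finset.card_le_card (fun j hj => ?_)
    rcases Finset.mem_union.1 hj with hj | hj
    · rcases TT_row hw (Finset.mem_filter.1 hj).2 h1 h2 with h | h
      · exact h.1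
      · exact absurd h.2.2 (hz j h.2.1)
    · rcases TT_row hw (Finset.mem_filter.1 hj).2 h1' h2' with h | h
      · exact h.1
      · exact absurd h.2.2 (hz' j h.2.1)
  · rw [Finset.disjoint_left]
    intro j hj hj'
    have h3 := (Finset.mem_filter.1 hj).2
    have h4 := (Finset.mem_filter.1 hj').2
    rw [h3] at h4
    exact hne (Option.some.inj h4)

/-- The elements of finitely many rows form a finite set. -/
theorem exists_avoid (R : Finset ℚ) : ∃ S : Finset (DD t₀ x₀ y₀ col L M),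
    ∀ v, v ∉ S → ∀ w ∈ R, l < w → w < u → row v.1 ≠ some w := by
  classical
  have hfin : {v : DD t₀ x₀ y₀ col L M | ∃ w ∈ R, l < w ∧ w < u ∧ row v.1 = some w}.Finite := by
    have h1 : ((R ×ˢ (Finset.univ : Finset (Fin r))).image
        (fun wj => (Sum.inr (wj.1, col wj.2) : V ⊕ (ℚ × G))) : Set (V ⊕ (ℚ × G))).Finite :=
      Finset.finite_toSet _
    refine (h1.preimage (f := fun v : DD t₀ x₀ y₀ col L M => v.1)
      Subtype.val_injective.injOn).subset ?_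
    rintro v ⟨w, hwR, h1, h2, h3⟩
    rcases mem_row hw v.2 h3 h1 h2 with ⟨_, j, _, h⟩ | ⟨_, j, _, h⟩
    · exact Finset.mem_coe.2 (Finset.mem_image.2 ⟨(w, j), by simp [hwR], h.symm⟩)
    · exact Finset.mem_coe.2 (Finset.mem_image.2 ⟨(w, j), by simp [hwR], h.symm⟩)
  refine ⟨hfin.toFinset, fun v hv w hwR h1 h2 h3 => hv ?_⟩
  rw [Set.Finite.mem_toFinset]
  exact ⟨w, hwR, h1, h2, h3⟩

end

end Pool.Agent.H566V
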