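import Pool.Agent.H566V.Core1

/-!
The order case, part 2: sizes of the finite classes.
-/

set_option autoImplicit false

namespace Pool.Agent.H566V

open Set Filter Topology

variable {r : ℕ} {K V G : Type}

section

variable {c : Str r K (V ⊕ (ℚ × G))} {t₀ : Fin r → V ⊕ (ℚ × G)} {x₀ y₀ l u : ℚ}
  {col : Fin r → G} (hw : Wit c t₀ x₀ y₀ l u col) {L M : Set ℚ} {I : Set ℕ} {Gr : ℕ → Finset ℚ}
  (hp : Pos l u L M I Gr) (τ : Fin r → DD t₀ x₀ y₀ col L M)
  (hτ : ∀ j, j ∉ EE t₀ x₀ → j ∉ EE t₀ y₀ → (τ j).1 = t₀ j)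

/-- moving a row of a partial tuple -/
noncomputable def mvU (U : {j // j ∈ EE t₀ x₀} → DD t₀ x₀ y₀ col L M) (x y : ℚ)
    (h1 : l < x) (h2 : x < u) (hy : y ∈ Kd L M x) (hw : Wit c t₀ x₀ y₀ l u col) :
    {j // j ∈ EE t₀ x₀} → DD t₀ x₀ y₀ col L M :=
  fun j => ⟨mv (Function.update id x y) (U j).1, mem_mv hw (U j).2 h1 h2 hy⟩

include hw

theorem TT_mvU (U : {j // j ∈ EE t₀ x₀} → DD t₀ x₀ y₀ col L M) (x y : ℚ)
    (h1 : l < x) (h2 : x < u) (hy : y ∈ Kd L M x) (z : Fin r → DD t₀ x₀ y₀ col L M)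
    (hz : ∀ j ∈ EE t₀ y₀, row (z j).1 ≠ some x) :
    TT (mvU U x y h1 h2 hy hw) z = mv (Function.update id x y) ∘ TT U z := by
  funext j
  simp only [Function.comp]
  by_cases hj : j ∈ EE t₀ x₀
  · rw [TT_E _ z hj, TT_E U z hj]
    rfl
  · by_cases hj' : j ∈ EE t₀ y₀
    · rw [TT_E' _ z hj hj', TT_E' U z hj hj', mv_id]
      intro w hw'
      rw [Function.update_of_ne (fun h : w = x => hz j hj' (h ▸ hw'))]
      rfl
    · rw [TT_o _ z hj hj', TT_o U z hj hj', mv_id]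
      intro w hw'
      rw [Function.update_of_ne (fun h : w = x => hw.not_row hj hj' h1 h2 (h ▸ hw'))]
      rfl

omit hw in
/-- the rows of a partial tuple -/
noncomputable def RU (U : {j // j ∈ EE t₀ x₀} → DD t₀ x₀ y₀ col L M) : Finset ℚ :=
  Finset.eraseNone (Finset.univ.image (fun j => row (U j).1))

omit hw in
theorem mem_RU {U : {j // j ∈ EE t₀ x₀} → DD t₀ x₀ y₀ col L M} {w : ℚ} :
    w ∈ RU U ↔ ∃ j, row (U j).1 = some w := by
  simp [RU, Finset.mem_eraseNone]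

include hp hτ

theorem cls_infinite_of_not_single (U : {j // j ∈ EE t₀ x₀} → DD t₀ x₀ y₀ col L M) {x : ℚ}
    (h1 : l < x) (h2 : x < u) {j₀ : {j // j ∈ EE t₀ x₀}} (hj₀ : row (U j₀).1 = some x)
    (hns : ∃ j, row (U j).1 ≠ some x) :
    ¬ (cls (cD c (DD t₀ x₀ y₀ col L M)) (EE t₀ x₀) (EE t₀ y₀) τ U).Finite := by
  classical
  have hxk : x ∈ L ∨ x ∈ M := by
    rcases mem_row hw (U j₀).2 hj₀ h1 h2 with h | h
    · exact Or.inl h.1
    · exact Or.inr h.1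
  have hinf : (Kd L M x \ (RU U : Set ℚ)).Infinite :=
    (kd_infinite hp hxk).sdiff (Finset.finite_toSet _)
  intro hfin
  let F : ℚ → ({j // j ∈ EE t₀ x₀} → DD t₀ x₀ y₀ col L M) := fun y =>
    if hy : y ∈ Kd L M x then mvU U x y h1 h2 hy hw else U
  refine hinf (Set.Finite.of_injOn (f := F) (t := cls (cD c (DD t₀ x₀ y₀ col L M)) (EE t₀ x₀)
    (EE t₀ y₀) τ U) ?_ ?_ hfin)
  · rintro y ⟨hy, hyR⟩
    simp only [F, dif_pos hy]
    obtain ⟨hy1, hy2⟩ := kd_bd hp hy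
    obtain ⟨S, hS⟩ := exists_avoid hw (L := L) (M := M) (insert x (insert y (RU U)))
    refine ⟨S, fun z hz => ?_⟩
    rw [cD_comb τ hτ, cD_comb τ hτ]
    have hzx : ∀ j ∈ EE t₀ y₀, row (z j).1 ≠ some x := fun j hj =>
      hS (z j) (hz j hj) x (by simp) h1 h2
    have hzy : ∀ j ∈ EE t₀ y₀, row (z j).1 ≠ some y := fun j hj =>
      hS (z j) (hz j hj) y (by simp) hy1 hy2
    have hzR : ∀ w ∈ RU U, l < w → w < u → ∀ j ∈ EE t₀ y₀, row (z j).1 ≠ some w :=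
      fun w hwR h3 h4 j hj => hS (z j) (hz j hj) w (by simp [hwR]) h3 h4
    rw [TT_mvU hw U x y h1 h2 hy z hzx]
    symm
    apply move hw.pat hw.adj'
    · intro hmem
      obtain ⟨j, hj⟩ := mem_rows.1 hmem
      rcases TT_row hw hj hy1 hy2 with h | h
      · exact hyR (Finset.mem_coe.2 (mem_RU.2 ⟨_, h.2⟩))
      · exact hzy j h.2.1 h.2.2
    · intro w hwr hb
      have hwl : l < w := by rcases hb with h | h <;> linarith
      have hwu : w < u := by rcases hb with h | h <;> linarith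
      have hwx : x ≠ w := by rcases hb with h | h <;> [exact h.1.ne; exact h.2.ne']
      have hEpos : 0 < (EE t₀ y₀).card := Finset.card_pos.2 hw.nonemptyE'
      by_cases hwR : w ∈ RU U
      · have := nrT_add hw (U := U) (z := z) h1 h2 hwl hwu hwx hzx (hzR w hwR hwl hwu)
        omega
      · have h3 := nrT_lt_E hw (U := U) (z := z) h1 h2 hzx hns
        have h4 := nrT_le_E' hw (U := U) (z := z) hwl hwu
          (fun j hj => hwR (mem_RU.2 ⟨j, hj⟩))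
        omega
  · rintro y ⟨hy, -⟩ y' ⟨hy', -⟩ hyy
    simp only [F, dif_pos hy, dif_pos hy'] at hyy
    have := congrArg Subtype.val (congrFun hyy j₀)
    simp only [mvU] at this
    obtain ⟨g, hg⟩ := row_eq_some hj₀
    rw [hg] at this
    simp only [mv_inr, Function.update_self, Sum.inr.injEq, Prod.mk.injEq, and_true] at this
    exact this

omit hw hp hτ in
/-- values of tuples contained in two rows -/
def FF (c : Str r K (V ⊕ (ℚ × G))) (t₀ : Fin r → V ⊕ (ℚ × G)) (x₀ y₀ : ℚ) (x : ℚ)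
    (g : {j // j ∈ EE t₀ x₀} → G) (y : ℚ) (g' : Fin r → G) : K :=
  c (comb (EE t₀ x₀) (EE t₀ y₀) t₀ (fun j => Sum.inr (x, g j)) (fun j => Sum.inr (y, g' j)))

omit hp hτ τ in
theorem FF_pat {x y x' y' : ℚ} (g : {j // j ∈ EE t₀ x₀} → G) (g' : Fin r → G) (hxl : l < x)
    (hxu : x < u) (hyl : l < y) (hyu : y < u) (hxl' : l < x') (hxu' : x' < u) (hyl' : l < y')
    (hyu' : y' < u) (hne : x ≠ y) (hne' : x' ≠ y') (hlt : x < y ↔ x' < y') :
    FF c t₀ x₀ y₀ x g y g' = FF c t₀ x₀ y₀ x' g y' g' := by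
  classical
  unfold FF
  set T := comb (EE t₀ x₀) (EE t₀ y₀) t₀ (fun j => (Sum.inr (x, g j) : V ⊕ (ℚ × G)))
    (fun j => Sum.inr (y, g' j)) with hT
  let f : ℚ → ℚ := fun w => if w = x then x' else if w = y then y' else w
  have hfx : f x = x' := by simp [f]
  have hfy : f y = y' := by simp [f, hne.symm]
  have hfo : ∀ w, w ≠ x → w ≠ y → f w = w := fun w h1 h2 => by simp [f, h1, h2]
  have hrow : ∀ w ∈ rows T, w = x ∨ w = y ∨ w ≤ l ∨ u ≤ w := by
    intro w hwT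
    obtain ⟨j, hj⟩ := mem_rows.1 hwT
    rw [hT] at hj
    unfold comb at hj
    split_ifs at hj with h1 h2
    · left; exact (Option.some.inj hj).symm
    · right; left; exact (Option.some.inj hj).symm
    · right; right
      by_contra hcon
      push Not at hcon
      exact hw.not_row h1 h2 hcon.1 hcon.2 hj
  have hfo' : ∀ w, (w ≤ l ∨ u ≤ w) → f w = w := fun w h => hfo w
    (by rintro rfl; rcases h with h | h <;> linarith)
    (by rintro rfl; rcases h with h | h <;> linarith)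
  have h2 : mv f ∘ T = comb (EE t₀ x₀) (EE t₀ y₀) t₀ (fun j => (Sum.inr (x', g j) : V ⊕ (ℚ × G)))
      (fun j => Sum.inr (y', g' j)) := by
    rw [hT, comb_comp]
    funext j
    unfold comb
    split_ifs with h1 h2
    · simp only [Function.comp, mv_inr, hfx]
    · simp only [Function.comp, mv_inr, hfy]
    · simp only [Function.comp]
      rw [mv_id]
      intro w hw'
      apply hfo'
      by_contra hcon
      push Not at hcon
      exact hw.not_row h1 h2 hcon.1 hcon.2 hw'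
  rw [← h2]
  symm
  apply hw.pat
  intro a ha b hb hab
  rcases hrow a ha with rfl | rfl | ha'
  · rcases hrow b hb with rfl | rfl | hb'
    · exact absurd hab (lt_irrefl _)
    · rw [hfx, hfy]; exact hlt.1 hab
    · rw [hfx, hfo' b hb']
      rcases hb' with h | h <;> linarith
  · rcases hrow b hb with rfl | rfl | hb'
    · rw [hfx, hfy]
      have : ¬ x' < y' := fun h => absurd (hlt.2 h) (not_lt.2 hab.le)
      exact lt_of_le_of_ne (not_lt.1 this) (Ne.symm hne')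
    · exact absurd hab (lt_irrefl _)
    · rw [hfy, hfo' b hb']
      rcases hb' with h | h <;> linarith
  · rw [hfo' a ha']
    rcases hrow b hb with rfl | rfl | hb'
    · rw [hfx]
      rcases ha' with h | h <;> linarith
    · rw [hfy]
      rcases ha' with h | h <;> linarith
    · rw [hfo' b hb']; exact hab

omit hw hp hτ in
/-- order dependence of a shape -/
def dep (c : Str r K (V ⊕ (ℚ × G))) (t₀ : Fin r → V ⊕ (ℚ × G)) (x₀ y₀ : ℚ) (col : Fin r → G)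
    (g : {j // j ∈ EE t₀ x₀} → G) : Prop :=
  ∃ g' : Fin r → G, (∀ j ∈ EE t₀ y₀, ∃ j' ∈ EE t₀ y₀, g' j = col j') ∧
    FF c t₀ x₀ y₀ x₀ g y₀ g' ≠ FF c t₀ x₀ y₀ y₀ g x₀ g'

omit hp hτ τ in
theorem FF_lt {x y : ℚ} (g : {j // j ∈ EE t₀ x₀} → G) (g' : Fin r → G) (hxl : l < x)
    (hyu : y < u) (hlt : x < y) :
    FF c t₀ x₀ y₀ x g y g' = FF c t₀ x₀ y₀ x₀ g y₀ g' :=
  FF_pat hw g g' hxl (hlt.trans hyu) (hxl.trans hlt) hyu hw.lx (hw.lt.trans hw.yu)
    (hw.lx.trans hw.lt) hw.yu hlt.ne hw.lt.ne ⟨fun _ => hw.lt, fun _ => hlt⟩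

omit hp hτ τ in
theorem FF_gt {x y : ℚ} (g : {j // j ∈ EE t₀ x₀} → G) (g' : Fin r → G) (hyl : l < y)
    (hxu : x < u) (hlt : y < x) :
    FF c t₀ x₀ y₀ x g y g' = FF c t₀ x₀ y₀ y₀ g x₀ g' :=
  FF_pat hw g g' (hyl.trans hlt) hxu hyl (hlt.trans hxu) (hw.lx.trans hw.lt) hw.yu hw.lx
    (hw.lt.trans hw.yu) hlt.ne' hw.lt.ne'
    ⟨fun h => absurd h (not_lt.2 hlt.le), fun h => absurd h (not_lt.2 hw.lt.le)⟩

theorem cls_infinite_of_not_dep (U : {j // j ∈ EE t₀ x₀} → DD t₀ x₀ y₀ col L M) {x : ℚ}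
    (h1 : l < x) (h2 : x < u) {g : {j // j ∈ EE t₀ x₀} → G}
    (hU : ∀ j, (U j).1 = Sum.inr (x, g j)) (hdep : ¬ dep c t₀ x₀ y₀ col g) :
    ¬ (cls (cD c (DD t₀ x₀ y₀ col L M)) (EE t₀ x₀) (EE t₀ y₀) τ U).Finite := by
  classical
  obtain ⟨j₀, hj₀⟩ := hw.nonemptyE
  obtain ⟨j₁, hj₁⟩ := hw.nonemptyE'
  have hrU : ∀ j, row (U j).1 = some x := fun j => by rw [hU]; rfl
  have hxk : x ∈ L ∨ x ∈ M := by
    rcases mem_row hw (U ⟨j₀, hj₀⟩).2 (hrU _) h1 h2 with h | h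
    · exact Or.inl h.1
    · exact Or.inr h.1
  have hinf : (Kd L M x \ {x}).Infinite := (kd_infinite hp hxk).sdiff (Set.finite_singleton x)
  intro hfin
  let F : ℚ → ({j // j ∈ EE t₀ x₀} → DD t₀ x₀ y₀ col L M) := fun y =>
    if hy : y ∈ Kd L M x then mvU U x y h1 h2 hy hw else U
  refine hinf (Set.Finite.of_injOn (f := F) (t := cls (cD c (DD t₀ x₀ y₀ col L M)) (EE t₀ x₀)
    (EE t₀ y₀) τ U) ?_ ?_ hfin)
  · rintro y ⟨hy, hyx⟩
    have hyx : y ≠ x := hyx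
    simp only [F, dif_pos hy]
    obtain ⟨hy1, hy2⟩ := kd_bd hp hy
    obtain ⟨R, hR⟩ : ∃ R : Finset ℚ, ∀ w, w ∈ L → ((x < w ∧ w < y) ∨ (y < w ∧ w < x)) → w ∈ R := by
      refine ⟨((hp.Lfin x y h1 hy2).union (hp.Lfin y x hy1 h2)).toFinset, fun w hwL hb => ?_⟩
      rw [Set.Finite.mem_toFinset]
      rcases hb with hb | hb
      · exact Or.inl ⟨hwL, hb⟩
      · exact Or.inr ⟨hwL, hb⟩
    obtain ⟨S, hS⟩ := exists_avoid hw (L := L) (M := M) (insert x (insert y R))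
    refine ⟨S, fun z hz => ?_⟩
    rw [cD_comb τ hτ, cD_comb τ hτ]
    have hzx : ∀ j ∈ EE t₀ y₀, row (z j).1 ≠ some x := fun j hj =>
      hS (z j) (hz j hj) x (by simp) h1 h2
    have hzy : ∀ j ∈ EE t₀ y₀, row (z j).1 ≠ some y := fun j hj =>
      hS (z j) (hz j hj) y (by simp) hy1 hy2
    have hzR : ∀ w ∈ R, l < w → w < u → ∀ j ∈ EE t₀ y₀, row (z j).1 ≠ some w :=
      fun w hwR h3 h4 j hj => hS (z j) (hz j hj) w (by simp [hwR]) h3 h4
    by_cases hsing : ∃ w, ((x < w ∧ w < y) ∨ (y < w ∧ w < x)) ∧ ∀ j ∈ EE t₀ y₀, row (z j).1 = some w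
    · obtain ⟨w, hb, hall⟩ := hsing
      have hwl : l < w := by rcases hb with h | h <;> linarith
      have hwu : w < u := by rcases hb with h | h <;> linarith
      have hmemz : ∀ j ∈ EE t₀ y₀, ∃ j' ∈ EE t₀ y₀, (z j).1 = Sum.inr (w, col j') := by
        intro j hj
        rcases mem_row hw (z j).2 (hall j hj) hwl hwu with h | h
        · exact absurd (hall j hj) (hzR w (hR w h.1 hb) hwl hwu j hj)
        · exact h.2
      have hch : ∀ j, ∃ γ : G, j ∈ EE t₀ y₀ → (z j).1 = Sum.inr (w, γ) ∧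
          ∃ j' ∈ EE t₀ y₀, γ = col j' := by
        intro j
        by_cases hj : j ∈ EE t₀ y₀
        · obtain ⟨j', hj', h⟩ := hmemz j hj
          exact ⟨col j', fun _ => ⟨h, j', hj', rfl⟩⟩
        · exact ⟨col j, fun h => absurd h hj⟩
      choose g' hg' using hch
      have e1 : c (TT U z) = FF c t₀ x₀ y₀ x g w g' := by
        unfold TT FF
        congr 1
        funext j
        unfold comb
        split_ifs with h3 h4
        · exact hU _
        · exact (hg' j h4).1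
        · rfl
      have e2 : c (TT (mvU U x y h1 h2 hy hw) z) = FF c t₀ x₀ y₀ y g w g' := by
        unfold TT FF
        congr 1
        funext j
        unfold comb
        split_ifs with h3 h4
        · simp only [mvU, hU]
          simp
        · exact (hg' j h4).1
        · rfl
      have hnd : FF c t₀ x₀ y₀ x₀ g y₀ g' = FF c t₀ x₀ y₀ y₀ g x₀ g' := by
        by_contra hne
        exact hdep ⟨g', fun j hj => (hg' j hj).2, hne⟩
      rw [e1, e2]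
      rcases hb with ⟨h3, h4⟩ | ⟨h3, h4⟩
      · rw [FF_lt hw g g' h1 hwu h3, FF_gt hw g g' hwl hy2 h4, hnd]
      · rw [FF_gt hw g g' hwl h2 h4, FF_lt hw g g' hy1 hwu h3, hnd]
    · rw [TT_mvU hw U x y h1 h2 hy z hzx]
      symm
      apply move hw.pat hw.adj'
      · intro hmem
        obtain ⟨j, hj⟩ := mem_rows.1 hmem
        rcases TT_row hw hj hy1 hy2 with h | h
        · obtain ⟨_, h⟩ := h
          rw [hrU] at h
          exact hyx (Option.some.inj h).symm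
        · exact hzy j h.2.1 h.2.2
      · intro w hwr hb
        have hwl : l < w := by rcases hb with h | h <;> linarith
        have hwu : w < u := by rcases hb with h | h <;> linarith
        have hwx : x ≠ w := by rcases hb with h | h <;> [exact h.1.ne; exact h.2.ne']
        have h3 := nrT_le_E hw (U := U) (z := z) h1 h2 hzx
        have h4 := nrT_lt_E' hw (U := U) (z := z) hwl hwu
          (fun j hj => by rw [hrU] at hj; exact hwx (Option.some.inj hj)) (by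
            by_contra hcon
            push Not at hcon
            exact hsing ⟨w, hb, hcon⟩)
        omega
  · rintro y ⟨hy, -⟩ y' ⟨hy', -⟩ hyy
    simp only [F, dif_pos hy, dif_pos hy'] at hyy
    have := congrArg Subtype.val (congrFun hyy ⟨j₀, hj₀⟩)
    simp only [mvU] at this
    rw [hU] at this
    simp only [mv_inr, Function.update_self, Sum.inr.injEq, Prod.mk.injEq, and_true] at this
    exact this

omit hp in
/-- classes of order dependent partial tuples -/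
theorem cls_of_dep (hp : Pos l u L M I Gr) (U U' : {j // j ∈ EE t₀ x₀} → DD t₀ x₀ y₀ col L M) {x : ℚ}
    (h1 : l < x) (h2 : x < u) {g : {j // j ∈ EE t₀ x₀} → G}
    (hU : ∀ j, (U j).1 = Sum.inr (x, g j)) (hdep : dep c t₀ x₀ y₀ col g)
    (hU' : U' ∈ cls (cD c (DD t₀ x₀ y₀ col L M)) (EE t₀ x₀) (EE t₀ y₀) τ U) :
    ∃ y, l < y ∧ y < u ∧ (∀ j, row (U' j).1 = some y) ∧
      ¬ {z | z ∈ M ∧ ((x < z ∧ z < y) ∨ (y < z ∧ z < x))}.Infinite := by
  classical
  obtain ⟨g', hg', hne⟩ := hdep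
  obtain ⟨S, hS⟩ := hU'
  have hrU : ∀ j, row (U j).1 = some x := fun j => by rw [hU]; rfl
  obtain ⟨j₀, hj₀⟩ := hw.nonemptyE
  obtain ⟨j₁, hj₁⟩ := hw.nonemptyE'
  -- bad rows
  let RS : Finset ℚ := Finset.eraseNone (S.image (fun v => row v.1)) ∪ RU U'
  have hRS : ∀ w, w ∉ RS → ∀ v : DD t₀ x₀ y₀ col L M, row v.1 = some w → v ∉ S := by
    intro w hw' v hv hvS
    apply hw'
    refine Finset.mem_union_left _ ?_
    rw [Finset.mem_eraseNone]
    exact Finset.mem_image.2 ⟨v, hvS, hv⟩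
  have hRS' : ∀ w, w ∉ RS → ∀ j, row (U' j).1 ≠ some w := by
    intro w hw' j hj
    exact hw' (Finset.mem_union_right _ (mem_RU.2 ⟨j, hj⟩))
  -- test tuples
  have hmemz : ∀ μ ∈ M, ∀ j ∈ EE t₀ y₀, (Sum.inr (μ, g' j) : V ⊕ (ℚ × G)) ∈
      DD t₀ x₀ y₀ col L M := by
    intro μ hμ j hj
    obtain ⟨j', hj', h⟩ := hg' j hj
    right; right
    exact ⟨μ, hμ, j', hj', by rw [h]⟩
  let Z : ℚ → (Fin r → DD t₀ x₀ y₀ col L M) := fun μ j =>
    if h : μ ∈ M ∧ j ∈ EE t₀ y₀ then ⟨Sum.inr (μ, g' j), hmemz μ h.1 j h.2⟩ else τ j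
  have hZ : ∀ μ ∈ M, ∀ j ∈ EE t₀ y₀, (Z μ j).1 = Sum.inr (μ, g' j) := by
    intro μ hμ j hj
    simp only [Z, dif_pos (And.intro hμ hj)]
  have hZr : ∀ μ ∈ M, ∀ j ∈ EE t₀ y₀, row (Z μ j).1 = some μ := fun μ hμ j hj => by
    rw [hZ μ hμ j hj]; rfl
  have hval : ∀ μ ∈ M, c (TT U (Z μ)) = FF c t₀ x₀ y₀ x g μ g' := by
    intro μ hμ
    unfold TT FF
    congr 1
    funext j
    unfold comb
    split_ifs with h3 h4
    · exact hU _
    · exact hZ μ hμ j h4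
    · rfl
  have htest : ∀ μ ∈ M, μ ∉ RS → FF c t₀ x₀ y₀ x g μ g' = c (TT U' (Z μ)) := by
    intro μ hμ hμR
    rw [← hval μ hμ, ← cD_comb (c := c) τ hτ U, ← cD_comb (c := c) τ hτ U']
    exact hS (Z μ) (fun j hj => hRS μ hμR _ (hZr μ hμ j hj))
  have hpick : ∀ A : Set ℚ, A.Infinite → ∃ μ ∈ A, μ ∉ RS := fun A hA =>
    hA.exists_notMem_finset RS
  -- single row
  have hsing : ∃ y, l < y ∧ y < u ∧ ∀ j, row (U' j).1 = some y := by
    by_contra hcon
    push Not at hcon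
    obtain ⟨μ₁, ⟨hμ₁, hμ₁x⟩, hμ₁R⟩ := hpick _ (hp.Ml x h1 h2)
    obtain ⟨μ₂, ⟨hμ₂, hμ₂x⟩, hμ₂R⟩ := hpick _ (hp.Mr x h1 h2)
    obtain ⟨hl₁, hu₁⟩ := hp.lM μ₁ hμ₁
    obtain ⟨hl₂, hu₂⟩ := hp.lM μ₂ hμ₂
    have e1 := htest μ₁ hμ₁ hμ₁R
    have e2 := htest μ₂ hμ₂ hμ₂R
    rw [FF_gt hw g g' hl₁ h2 hμ₁x] at e1
    rw [FF_lt hw g g' h1 hu₂ hμ₂x] at e2
    have e3 : c (TT U' (Z μ₂)) = c (TT U' (Z μ₁)) := by
      have h3 : TT U' (Z μ₂) = mv (Function.update id μ₁ μ₂) ∘ TT U' (Z μ₁) := by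
        funext j
        simp only [Function.comp]
        by_cases hj : j ∈ EE t₀ x₀
        · rw [TT_E _ _ hj, TT_E _ _ hj, mv_id]
          intro w hw'
          rw [Function.update_of_ne (fun h : w = μ₁ => hRS' μ₁ hμ₁R _ (h ▸ hw'))]
          rfl
        · by_cases hj' : j ∈ EE t₀ y₀
          · rw [TT_E' _ _ hj hj', TT_E' _ _ hj hj', hZ μ₁ hμ₁ j hj', hZ μ₂ hμ₂ j hj']
            simp
          · rw [TT_o _ _ hj hj', TT_o _ _ hj hj', mv_id]
            intro w hw'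
            rw [Function.update_of_ne (fun h : w = μ₁ => hw.not_row hj hj' hl₁ hu₁ (h ▸ hw'))]
            rfl
      rw [h3]
      apply move hw.pat hw.adj'
      · intro hmem
        obtain ⟨j, hj⟩ := mem_rows.1 hmem
        rcases TT_row hw hj hl₂ hu₂ with ⟨_, h⟩ | h
        · exact hRS' μ₂ hμ₂R _ h
        · rw [hZr μ₁ hμ₁ j h.2.1] at h
          exact absurd (Option.some.inj h.2.2) (hμ₁x.trans hμ₂x).ne
      · intro w hwr hb
        have hwl : l < w := by rcases hb with h | h <;> linarith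
        have hwu : w < u := by rcases hb with h | h <;> linarith
        have hw1 : μ₁ ≠ w := by rcases hb with h | h <;> [exact h.1.ne; exact h.2.ne']
        have h4 := nrT_le_E' hw (U := U') (z := Z μ₁) hl₁ hu₁ (hRS' μ₁ hμ₁R)
        have h5 := nrT_lt_E hw (U := U') (z := Z μ₁) hwl hwu (fun j hj => by
          rw [hZr μ₁ hμ₁ j hj]
          exact fun h => hw1 (Option.some.inj h)) (hcon w hwl hwu)
        omega
    rw [← e1, ← e2] at e3
    exact hne e3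
  obtain ⟨y, hy1, hy2, hy⟩ := hsing
  refine ⟨y, hy1, hy2, hy, fun hinf => ?_⟩
  have hch : ∀ j, ∃ γ, (U' j).1 = Sum.inr (y, γ) := fun j => row_eq_some (hy j)
  choose g₁ hg₁ using hch
  have hval' : ∀ μ ∈ M, c (TT U' (Z μ)) = FF c t₀ x₀ y₀ y g₁ μ g' := by
    intro μ hμ
    unfold TT FF
    congr 1
    funext j
    unfold comb
    split_ifs with h3 h4
    · exact hg₁ _
    · exact hZ μ hμ j h4
    · rfl
  have htest' : ∀ μ ∈ M, μ ∉ RS → FF c t₀ x₀ y₀ x g μ g' = FF c t₀ x₀ y₀ y g₁ μ g' :=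
    fun μ hμ hμR => (htest μ hμ hμR).trans (hval' μ hμ)
  obtain ⟨μ₂, ⟨hμ₂, hb⟩, hμ₂R⟩ := hpick _ hinf
  have e2 := htest' μ₂ hμ₂ hμ₂R
  rcases hb with ⟨hb1, hb2⟩ | ⟨hb1, hb2⟩
  · -- `x < y`
    obtain ⟨μ₁, ⟨hμ₁, hμ₁x⟩, hμ₁R⟩ := hpick _ (hp.Ml x h1 h2)
    have e1 := htest' μ₁ hμ₁ hμ₁R
    have hl₁ := (hp.lM μ₁ hμ₁).1
    rw [FF_gt hw g g' hl₁ h2 hμ₁x, FF_gt hw g₁ g' hl₁ hy2 (hμ₁x.trans (hb1.trans hb2))] at e1
    rw [FF_lt hw g g' h1 (hp.lM μ₂ hμ₂).2 hb1, FF_gt hw g₁ g' (hp.lM μ₂ hμ₂).1 hy2 hb2] at e2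
    exact hne (e2.trans e1.symm)
  · obtain ⟨μ₃, ⟨hμ₃, hμ₃x⟩, hμ₃R⟩ := hpick _ (hp.Mr x h1 h2)
    have e3 := htest' μ₃ hμ₃ hμ₃R
    have hu₃ := (hp.lM μ₃ hμ₃).2
    rw [FF_lt hw g g' h1 hu₃ hμ₃x, FF_lt hw g₁ g' hy1 hu₃ ((hb1.trans hb2).trans hμ₃x)] at e3
    rw [FF_gt hw g g' (hp.lM μ₂ hμ₂).1 h2 hb2, FF_lt hw g₁ g' hy1 (hp.lM μ₂ hμ₂).2 hb1] at e2
    exact hne (e3.trans e2.symm)

end

end Pool.Agent.H566V
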