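import Pool.Agent.H566V.Core2

/-!
The order case, part 3: sizes of the finite classes.
-/

set_option autoImplicit false

namespace Pool.Agent.H566V

open Set Filter Topology

variable {r : ℕ} {K V G : Type}

section

variable {c : Str r K (V ⊕ (ℚ × G))} {t₀ : Fin r → V ⊕ (ℚ × G)} {x₀ y₀ l u : ℚ}
  {col : Fin r → G} (hw : Wit c t₀ x₀ y₀ l u col) {L M : Set ℚ} {I : Set ℕ} {Gr : ℕ → Finset ℚ}
  (hp : Pos l u L M I Gr) (τ : Fin r → DD t₀ x₀ y₀ col L M)
  (hτ : ∀ j, j ∉ EE t₀ x₀ → j ∉ EE t₀ y₀ → (τ j).1 = t₀ j)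

/-- the number of maps of coordinates -/
noncomputable def CC (t₀ : Fin r → V ⊕ (ℚ × G)) (x₀ : ℚ) : ℕ :=
  Nat.card ({j // j ∈ EE t₀ x₀} → Fin r)

theorem ncard_le_of_rows (R : Finset ℚ) (𝒜 : Set ({j // j ∈ EE t₀ x₀} → DD t₀ x₀ y₀ col L M))
    (h : ∀ U ∈ 𝒜, ∃ y ∈ R, ∀ j, ∃ j', (U j).1 = Sum.inr (y, col j')) :
    𝒜.ncard ≤ R.card * CC t₀ x₀ := by
  classical
  have h' : ∀ U : 𝒜, ∃ y : R, ∀ j, ∃ j', (U.1 j).1 = Sum.inr (y.1, col j') := fun U => by
    obtain ⟨y, hy, hh⟩ := h U.1 U.2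
    exact ⟨⟨y, hy⟩, hh⟩
  choose y f hf using h'
  have h1 := Nat.card_le_card_of_injective (α := 𝒜)
    (β := R × ({j // j ∈ EE t₀ x₀} → Fin r)) (fun U => (y U, f U)) (fun U U' hUU => by
      simp only [Prod.mk.injEq] at hUU
      apply Subtype.ext
      funext j
      apply Subtype.ext
      rw [hf U j, hf U' j, hUU.1, hUU.2])
  rw [Nat.card_prod, Nat.card_coe_set_eq] at h1
  rw [CC]
  simpa using h1

theorem ncard_le_of_const (𝒜 : Set ({j // j ∈ EE t₀ x₀} → DD t₀ x₀ y₀ col L M))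
    (h : ∀ U ∈ 𝒜, ∀ j, ∃ j', (U j).1 = t₀ j') :
    𝒜.ncard ≤ CC t₀ x₀ := by
  classical
  have h' : ∀ U : 𝒜, ∀ j, ∃ j', (U.1 j).1 = t₀ j' := fun U => h U.1 U.2
  choose f hf using h'
  have h1 := Nat.card_le_card_of_injective (α := 𝒜)
    (β := ({j // j ∈ EE t₀ x₀} → Fin r)) (fun U => f U) (fun U U' hUU => by
      apply Subtype.ext
      funext j
      apply Subtype.ext
      have hUU' : f U = f U' := hUU
      rw [hf U j, hf U' j, hUU'])
  rw [Nat.card_coe_set_eq] at h1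
  rw [CC]
  exact h1

include hw hp hτ

/-- finite classes of partial tuples having a row between `l` and `u` -/
theorem cls_bound (U : {j // j ∈ EE t₀ x₀} → DD t₀ x₀ y₀ col L M)
    (hfin : (cls (cD c (DD t₀ x₀ y₀ col L M)) (EE t₀ x₀) (EE t₀ y₀) τ U).Finite)
    {j₀ : {j // j ∈ EE t₀ x₀}} {x : ℚ} (h1 : l < x) (h2 : x < u) (hj₀ : row (U j₀).1 = some x) :
    (∀ U' ∈ cls (cD c (DD t₀ x₀ y₀ col L M)) (EE t₀ x₀) (EE t₀ y₀) τ U,
      ∃ y, l < y ∧ y < u ∧ ∀ j, row (U' j).1 = some y) ∧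
    ((x ∈ M ∧ (cls (cD c (DD t₀ x₀ y₀ col L M)) (EE t₀ x₀) (EE t₀ y₀) τ U).ncard ≤ CC t₀ x₀) ∨
      ∃ i ∈ I, x ∈ Gr i ∧
        (Gr i).card ≤ (cls (cD c (DD t₀ x₀ y₀ col L M)) (EE t₀ x₀) (EE t₀ y₀) τ U).ncard ∧
        (cls (cD c (DD t₀ x₀ y₀ col L M)) (EE t₀ x₀) (EE t₀ y₀) τ U).ncard ≤
          (Gr i).card * CC t₀ x₀) := by
  classical
  set Cl := cls (cD c (DD t₀ x₀ y₀ col L M)) (EE t₀ x₀) (EE t₀ y₀) τ U with hCl
  have hsing : ∀ j, row (U j).1 = some x := by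
    by_contra hcon
    push Not at hcon
    exact cls_infinite_of_not_single hw hp τ hτ U h1 h2 hj₀ hcon hfin
  have hch : ∀ j, ∃ γ, (U j).1 = Sum.inr (x, γ) := fun j => row_eq_some (hsing j)
  choose g hg using hch
  have hdep : dep c t₀ x₀ y₀ col g := by
    by_contra hnd
    exact cls_infinite_of_not_dep hw hp τ hτ U h1 h2 hg hnd hfin
  have hall := fun U' (hU' : U' ∈ Cl) => cls_of_dep hw τ hτ hp U U' h1 h2 hg hdep hU'
  refine ⟨fun U' hU' => ?_, ?_⟩
  · obtain ⟨y, hy1, hy2, hy, _⟩ := hall U' hU'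
    exact ⟨y, hy1, hy2, hy⟩
  -- the column of an element
  have hcol : ∀ (v : DD t₀ x₀ y₀ col L M) (y : ℚ), l < y → y < u → row v.1 = some y →
      ∃ j', v.1 = Sum.inr (y, col j') := by
    intro v y hy1 hy2 hv
    rcases mem_row hw v.2 hv hy1 hy2 with ⟨_, j', _, h⟩ | ⟨_, j', _, h⟩
    · exact ⟨j', h⟩
    · exact ⟨j', h⟩
  have hLM : ∀ (v : DD t₀ x₀ y₀ col L M) (y : ℚ), l < y → y < u → row v.1 = some y →
      y ∈ L ∨ y ∈ M := by
    intro v y hy1 hy2 hv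
    rcases mem_row hw v.2 hv hy1 hy2 with ⟨h, _⟩ | ⟨h, _⟩
    · exact Or.inl h
    · exact Or.inr h
  have hxLM := hLM _ x h1 h2 hj₀
  have hsame : ∀ U' ∈ Cl, ∃ y, l < y ∧ y < u ∧ (∀ j, row (U' j).1 = some y) ∧
      (y = x ∨ ∃ i ∈ I, x ∈ Gr i ∧ y ∈ Gr i) := by
    intro U' hU'
    obtain ⟨y, hy1, hy2, hy, hninf⟩ := hall U' hU'
    refine ⟨y, hy1, hy2, hy, ?_⟩
    by_contra hcon
    push Not at hcon
    obtain ⟨hyx, hno⟩ := hcon
    apply hninf
    have hyLM := hLM _ y hy1 hy2 (hy j₀)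
    rcases lt_or_gt_of_ne hyx with hlt | hlt
    · refine (hp.sep y x hyLM hxLM hlt (fun ⟨i, hi, h3, h4⟩ => hno i hi h4 h3)).mono ?_
      rintro z ⟨hz, hz1, hz2⟩
      exact ⟨hz, Or.inr ⟨hz1, hz2⟩⟩
    · refine (hp.sep x y hxLM hyLM hlt (fun ⟨i, hi, h3, h4⟩ => hno i hi h3 h4)).mono ?_
      rintro z ⟨hz, hz1, hz2⟩
      exact ⟨hz, Or.inl ⟨hz1, hz2⟩⟩
  rcases hxLM with hxL | hxM
  · -- `x ∈ L`
    right
    obtain ⟨i, hi, hxi⟩ := (hp.hL x).1 hxL
    refine ⟨i, hi, hxi, ?_, ?_⟩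
    · -- lower bound
      let F : ℚ → ({j // j ∈ EE t₀ x₀} → DD t₀ x₀ y₀ col L M) := fun y =>
        if hy : y ∈ Kd L M x then mvU U x y h1 h2 hy hw else U
      have hkd : ∀ y ∈ Gr i, y ∈ Kd L M x := fun y hy =>
        ⟨fun _ => (hp.hL y).2 ⟨i, hi, hy⟩, fun h => absurd h (hp.disj x hxL), Or.inl hxL⟩
      have h3 := Set.ncard_le_ncard_of_injOn (s := (↑(Gr i) : Set ℚ)) (t := Cl) F (fun y hy => ?_)
        (fun y hy y' hy' hyy => ?_) hfin
      · rwa [Set.ncard_coe_finset] at h3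
      · have hy : y ∈ Gr i := Finset.mem_coe.1 hy
        simp only [F, dif_pos (hkd y hy)]
        obtain ⟨hy1, hy2⟩ := kd_bd hp (hkd y hy)
        by_cases hyx : y = x
        · have : mvU U x y h1 h2 (hkd y hy) hw = U := by
            funext j
            apply Subtype.ext
            simp only [mvU]
            rw [mv_id]
            intro w _
            rw [hyx]
            exact congrFun (Function.update_eq_self x id) w
          rw [this]
          exact Eqv.refl _ _ _ _ _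
        · obtain ⟨S, hS⟩ := exists_avoid hw (L := L) (M := M) (Gr i)
          refine ⟨S, fun z hz => ?_⟩
          rw [cD_comb τ hτ, cD_comb τ hτ]
          have hzR : ∀ w ∈ Gr i, l < w → w < u → ∀ j ∈ EE t₀ y₀, row (z j).1 ≠ some w :=
            fun w hwR h3 h4 j hj => hS (z j) (hz j hj) w hwR h3 h4
          rw [TT_mvU hw U x y h1 h2 (hkd y hy) z (hzR x hxi h1 h2)]
          symm
          apply move hw.pat hw.adj'
          · intro hmem
            obtain ⟨j, hj⟩ := mem_rows.1 hmem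
            rcases TT_row hw hj hy1 hy2 with ⟨_, h⟩ | h
            · rw [hsing] at h
              exact hyx (Option.some.inj h).symm
            · exact hzR y hy hy1 hy2 j h.2.1 h.2.2
          · intro w hwr hb
            exfalso
            have hwl : l < w := by rcases hb with h | h <;> linarith
            have hwu : w < u := by rcases hb with h | h <;> linarith
            have hwx : x ≠ w := by rcases hb with h | h <;> [exact h.1.ne; exact h.2.ne']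
            obtain ⟨j, hj⟩ := mem_rows.1 hwr
            rcases TT_row hw hj hwl hwu with ⟨_, h⟩ | ⟨_, hj', h⟩
            · rw [hsing] at h
              exact hwx (Option.some.inj h)
            · -- no row of `M` between `x` and `y`
              have hnoM : ∀ z ∈ M, ¬ ((x < z ∧ z < y) ∨ (y < z ∧ z < x)) := by
                rintro z hz (h | h)
                · exact hp.same i hi x hxi y hy z hz h
                · exact hp.same i hi y hy x hxi z hz h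
              rcases hLM _ w hwl hwu h with hwL | hwM
              · by_cases hwi : w ∈ Gr i
                · exact hzR w hwi hwl hwu j hj' h
                · have hnot : ¬ ∃ i' ∈ I, x ∈ Gr i' ∧ w ∈ Gr i' := by
                    rintro ⟨i', hi', h3, h4⟩
                    rw [hp.uniq i hi i' hi' x hxi h3] at hwi
                    exact hwi h4
                  rcases hb with ⟨h3, h4⟩ | ⟨h3, h4⟩
                  · obtain ⟨z', hz'⟩ := (hp.sep x w (Or.inl hxL) (Or.inl hwL) h3 hnot).nonempty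
                    exact hnoM z' hz'.1 (Or.inl ⟨hz'.2.1, hz'.2.2.trans h4⟩)
                  · obtain ⟨z', hz'⟩ := (hp.sep w x (Or.inl hwL) (Or.inl hxL) h4
                      (fun ⟨i', hi', h5, h6⟩ => hnot ⟨i', hi', h6, h5⟩)).nonempty
                    exact hnoM z' hz'.1 (Or.inr ⟨h3.trans hz'.2.1, hz'.2.2⟩)
              · exact hnoM w hwM hb
      · have hy : y ∈ Gr i := Finset.mem_coe.1 hy
        have hy' : y' ∈ Gr i := Finset.mem_coe.1 hy'
        simp only [F, dif_pos (hkd y hy), dif_pos (hkd y' hy')] at hyy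
        have := congrArg Subtype.val (congrFun hyy j₀)
        simp only [mvU, hg] at this
        simp only [mv_inr, Function.update_self, Sum.inr.injEq, Prod.mk.injEq, and_true] at this
        exact this
    · apply ncard_le_of_rows
      intro U' hU'
      obtain ⟨y, hy1, hy2, hy, hor⟩ := hsame U' hU'
      refine ⟨y, ?_, fun j => hcol _ y hy1 hy2 (hy j)⟩
      rcases hor with h | ⟨i', hi', h3, h4⟩
      · rw [h]; exact hxi
      · rw [hp.uniq i hi i' hi' x hxi h3]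
        exact h4
  · -- `x ∈ M`
    left
    have h3 := ncard_le_of_rows {x} Cl (fun U' hU' => by
      obtain ⟨y, hy1, hy2, hy, hor⟩ := hsame U' hU'
      have hyx : y = x := by
        rcases hor with h | ⟨i', hi', h3, h4⟩
        · exact h
        · exact absurd hxM (hp.disj x ((hp.hL x).2 ⟨i', hi', h3⟩))
      subst hyx
      exact ⟨y, by simp, fun j => hcol _ y hy1 hy2 (hy j)⟩)
    exact ⟨hxM, by simpa using h3⟩

theorem inv_sizes {n : ℕ} (hn : n ∈ inv (cD c (DD t₀ x₀ y₀ col L M)) (EE t₀ x₀) (EE t₀ y₀) τ) :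
    n ≤ CC t₀ x₀ ∨ ∃ i ∈ I, (Gr i).card ≤ n ∧ n ≤ (Gr i).card * CC t₀ x₀ := by
  classical
  obtain ⟨U, hfin, rfl⟩ := hn
  by_cases hrow : ∃ j₀ x, l < x ∧ x < u ∧ row (U j₀).1 = some x
  · obtain ⟨j₀, x, h1, h2, hj₀⟩ := hrow
    rcases (cls_bound hw hp τ hτ U hfin h1 h2 hj₀).2 with h | ⟨i, hi, -, h3, h4⟩
    · exact Or.inl h.2
    · exact Or.inr ⟨i, hi, h3, h4⟩
  · left
    push Not at hrow
    apply ncard_le_of_const
    intro U' hU' j
    have hno : ∀ x, l < x → x < u → row (U' j).1 ≠ some x := by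
      intro x h1 h2 h3
      have hcl := cls_eq hU'
      have h4 := (cls_bound hw hp τ hτ U' (by rw [hcl]; exact hfin) h1 h2 h3).1 U
        (by rw [hcl]; exact Eqv.refl _ _ _ _ _)
      obtain ⟨y, hy1, hy2, hy⟩ := h4
      obtain ⟨j₀, hj₀⟩ := hw.nonemptyE
      exact hrow ⟨j₀, hj₀⟩ y hy1 hy2 (hy _)
    rcases (U' j).2 with ⟨j', _, _, h⟩ | ⟨y, hy, j', _, h⟩ | ⟨y, hy, j', _, h⟩
    · exact ⟨j', h⟩
    · exact absurd (by rw [h]; rfl) (hno y (hp.lL y hy).1 (hp.lL y hy).2)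
    · exact absurd (by rw [h]; rfl) (hno y (hp.lM y hy).1 (hp.lM y hy).2)

omit hp hτ in
theorem dep_col : dep c t₀ x₀ y₀ col (fun j => col j.1) := by
  classical
  refine ⟨col, fun j hj => ⟨j, hj, rfl⟩, ?_⟩
  have h1 : FF c t₀ x₀ y₀ x₀ (fun j => col j.1) y₀ col = c t₀ := by
    unfold FF
    congr 1
    funext j
    unfold comb
    split_ifs with h3 h4
    · exact (hw.hcol j x₀ (mem_EE.1 h3)).symm
    · exact (hw.hcol j y₀ (mem_EE.1 h4)).symm
    · rfl
  have h2 : FF c t₀ x₀ y₀ y₀ (fun j => col j.1) x₀ col = c (mv (Equiv.swap x₀ y₀) ∘ t₀) := by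
    unfold FF
    congr 1
    funext j
    unfold comb
    simp only [Function.comp]
    split_ifs with h3 h4
    · rw [hw.hcol j x₀ (mem_EE.1 h3)]
      simp
    · rw [hw.hcol j y₀ (mem_EE.1 h4)]
      simp
    · rw [mv_id]
      intro w hw'
      rw [Equiv.swap_apply_of_ne_of_ne]
      · rintro rfl; exact h3 (mem_EE.2 hw')
      · rintro rfl; exact h4 (mem_EE.2 hw')
  rw [h1, h2]
  exact hw.ne.symm

/-- standard partial tuples have finite classes -/
theorem inv_hit {i : ℕ} (hi : i ∈ I) (hne : (Gr i).Nonempty) :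
    ∃ n ∈ inv (cD c (DD t₀ x₀ y₀ col L M)) (EE t₀ x₀) (EE t₀ y₀) τ,
      (Gr i).card ≤ n ∧ n ≤ (Gr i).card * CC t₀ x₀ := by
  classical
  have hfinM : ∀ x y, ¬ {z | z ∈ M ∧ ((x < z ∧ z < y) ∨ (y < z ∧ z < x))}.Infinite → x ∈ Gr i →
      (y ∈ L ∨ y ∈ M) → y ∈ Gr i := by
    intro x y hninf hx hy
    by_contra hyi
    apply hninf
    have hxL : x ∈ L := (hp.hL x).2 ⟨i, hi, hx⟩
    have hno : ¬ ∃ i' ∈ I, x ∈ Gr i' ∧ y ∈ Gr i' := by
      rintro ⟨i', hi', h1, h2⟩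
      rw [hp.uniq i hi i' hi' x hx h1] at hyi
      exact hyi h2
    rcases lt_trichotomy x y with h | h | h
    · exact (hp.sep x y (Or.inl hxL) hy h hno).mono (fun z hz => ⟨hz.1, Or.inl hz.2⟩)
    · exact absurd (h ▸ hx) hyi
    · exact (hp.sep y x hy (Or.inl hxL) h (fun ⟨i', hi', h1, h2⟩ => hno ⟨i', hi', h2, h1⟩)).mono
        (fun z hz => ⟨hz.1, Or.inr hz.2⟩)
  obtain ⟨x, hxi⟩ := hne
  have hxL : x ∈ L := (hp.hL x).2 ⟨i, hi, hxi⟩
  obtain ⟨h1, h2⟩ := hp.lL x hxL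
  let U : {j // j ∈ EE t₀ x₀} → DD t₀ x₀ y₀ col L M := fun j =>
    ⟨Sum.inr (x, col j.1), Or.inr (Or.inl ⟨x, hxL, j.1, j.2, rfl⟩)⟩
  have hU : ∀ j, (U j).1 = Sum.inr (x, col j.1) := fun j => rfl
  obtain ⟨j₀, hj₀⟩ := hw.nonemptyE
  have hfin : (cls (cD c (DD t₀ x₀ y₀ col L M)) (EE t₀ x₀) (EE t₀ y₀) τ U).Finite := by
    have hsub : cls (cD c (DD t₀ x₀ y₀ col L M)) (EE t₀ x₀) (EE t₀ y₀) τ U ⊆
        {U' | ∀ j, U' j ∈ {v : DD t₀ x₀ y₀ col L M | ∃ w ∈ Gr i, l < w ∧ w < u ∧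
          row v.1 = some w}} := by
      intro U' hU' j
      obtain ⟨y, hy1, hy2, hy, hninf⟩ := cls_of_dep hw τ hτ hp U U' h1 h2 hU (dep_col hw) hU'
      have hyLM : y ∈ L ∨ y ∈ M := by
        rcases mem_row hw (U' j).2 (hy j) hy1 hy2 with ⟨h, _⟩ | ⟨h, _⟩
        · exact Or.inl h
        · exact Or.inr h
      exact ⟨y, hfinM x y hninf hxi hyLM, hy1, hy2, hy j⟩
    refine Set.Finite.subset ?_ hsub
    apply Set.Finite.pi' (t := fun _ => _)
    intro _
    obtain ⟨S, hS⟩ := exists_avoid hw (L := L) (M := M) (Gr i)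
    refine (Finset.finite_toSet S).subset (fun v hv => ?_)
    obtain ⟨w, hwi, hw1, hw2, hw3⟩ := hv
    by_contra hvS
    exact hS v hvS w hwi hw1 hw2 hw3
  refine ⟨_, ⟨U, hfin, rfl⟩, ?_⟩
  rcases (cls_bound hw hp τ hτ U hfin h1 h2 (j₀ := ⟨j₀, hj₀⟩) rfl).2 with h | ⟨i', hi', hxi', h3, h4⟩
  · exact absurd h.1 (hp.disj x hxL)
  · rw [hp.uniq i hi i' hi' x hxi hxi']
    exact ⟨h3, h4⟩

end

end Pool.Agent.H566V
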