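import Pool.Agent.H566V.Cell2

/-!
The dichotomy, and counting of cellular structures.
-/

set_option autoImplicit false

namespace Pool.Agent.H566V

open Set Filter Topology

variable {r : ℕ} {K V G W' : Type}

/-- cellular structures -/
def IsDec (c : Str r K V) : Prop := ∃ N₀ F X h, Dec c N₀ F X h

/-- The main dichotomy. -/
theorem isDec_or_cont [Finite K] (S : Str r K ℕ) : IsDec S ∨ Cont S := by
  classical
  by_cases hC : Cont S
  · exact Or.inr hC
  left
  set p : Ultrafilter ℕ := Filter.hyperfilter ℕ with hpdef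
  have hp : (p : Filter ℕ) ≤ atTop := Nat.hyperfilter_le_atTop
  have hS : Cls S S := Cls.refl S
  have h1 : FullSym (ext (p := p) S) := fullSym_ext hS hC
  have h2 : SubP (ext (p := p) S) := ext_subP h1
  have h3 : FinTypes (ext (p := p) S) := finTypes_ext hp hS hC
  obtain ⟨k, hk⟩ : ∃ k : ℕ, ∀ C : Finset (Gm p ℕ), Indec (ext (p := p) S) C → C.card ≤ k := by
    by_contra hcon
    push Not at hcon
    exact hC (cont_of_unbounded h1 (cls_ext S) h3 hcon)
  apply exists_dec hp
  intro z
  obtain ⟨C, hzC, hC'⟩ := exists_sep_univ h1 h2 k hk z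
  refine ⟨C, hzC, ?_⟩
  filter_upwards [ev_injAt C, ev_exn_aut h1 C hC'] with n h4 h5
  exact ⟨h4, h5⟩

/-! ### Counting -/

/-- the standard universe -/
abbrev UU (N F : ℕ) (k : Fin F → ℕ) : Type := Fin N ⊕ (Σ f : Fin F, ℕ × Fin (k f))

/-- exchange of two rows -/
def rsw {N F : ℕ} {k : Fin F → ℕ} (f : Fin F) (i j : ℕ) : UU N F k → UU N F k :=
  Sum.map id (fun x => ⟨x.1, (if x.1 = f then Equiv.swap i j x.2.1 else x.2.1, x.2.2)⟩)

/-- standard cellular structures -/
def Cel {N F : ℕ} {k : Fin F → ℕ} (d : Str r K (UU N F k)) : Prop :=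
  ∀ f i j, Aut d (rsw f i j)

/-- the row of an element is small -/
def Sm {N F : ℕ} {k : Fin F → ℕ} (r : ℕ) (u : UU N F k) : Prop :=
  ∀ x, u = Sum.inr x → x.2.1 < r

theorem cel_det {N F : ℕ} {k : Fin F → ℕ} {d d' : Str r K (UU N F k)} (hd : Cel d)
    (hd' : Cel d') (h : ∀ t : Fin r → UU N F k, (∀ j, Sm r (t j)) → d t = d' t) : d = d' := by
  classical
  have key : ∀ (n : ℕ) (t : Fin r → UU N F k),
      (Finset.univ.filter (fun j => ¬ Sm r (t j))).card = n → d t = d' t := by
    intro n
    induction n using Nat.strong_induction_on with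
    | _ n ih =>
      intro t ht
      by_cases hn : ∀ j, Sm r (t j)
      · exact h t hn
      push Not at hn
      obtain ⟨j₀, hj₀⟩ := hn
      have hj₀' := hj₀
      unfold Sm at hj₀'
      push Not at hj₀'
      obtain ⟨⟨f, i, a⟩, hx, hi⟩ := hj₀'
      -- a free row
      obtain ⟨l, hl, hfree⟩ : ∃ l < r, ∀ j b, t j ≠ Sum.inr ⟨f, (l, b)⟩ := by
        by_contra hcon
        push Not at hcon
        have : ∀ l : Fin r, ∃ j, ∃ b, t j = Sum.inr ⟨f, (l.1, b)⟩ := fun l => hcon l.1 l.2
        choose g hg using this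
        have hinj : Function.Injective g := by
          intro l l' hll
          obtain ⟨b, hb⟩ := hg l
          obtain ⟨b', hb'⟩ := hg l'
          rw [hll, hb'] at hb
          simp only [Sum.inr.injEq, Sigma.mk.injEq, heq_eq_eq, Prod.mk.injEq, true_and] at hb
          exact Fin.ext hb.1.symm
        obtain ⟨l, hl⟩ := (Finite.injective_iff_surjective.1 hinj) j₀
        obtain ⟨b, hb⟩ := hg l
        rw [hl, hx] at hb
        simp only [Sum.inr.injEq, Sigma.mk.injEq, heq_eq_eq, Prod.mk.injEq, true_and] at hb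
        have := l.2
        simp only at hi
        omega
      have hne : i ≠ l := by
        simp only at hi
        omega
      have hval : ∀ j, rsw f i l (t j) = t j ∨ Sm r (rsw f i l (t j)) := by
        intro j
        rcases hj : t j with b | ⟨f', i', b⟩
        · left; rfl
        · by_cases hf : f' = f
          · subst hf
            by_cases hi' : i' = i
            · right
              subst hi'
              intro y hy
              simp only [rsw, Sum.map_inr, Sum.inr.injEq, if_true] at hy
              rw [← hy]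
              simp only [Equiv.swap_apply_left]
              exact hl
            · have hil : i' ≠ l := by
                rintro rfl
                exact hfree j b hj
              left
              simp only [rsw, Sum.map_inr, if_true, Equiv.swap_apply_of_ne_of_ne hi' hil]
          · left
            simp only [rsw, Sum.map_inr, hf, if_false]
      have hj₀s : Sm r (rsw f i l (t j₀)) := by
        rw [hx]
        intro y hy
        simp only [rsw, Sum.map_inr, Sum.inr.injEq, if_true] at hy
        rw [← hy]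
        simp only [Equiv.swap_apply_left]
        exact hl
      have hlt : (Finset.univ.filter (fun j => ¬ Sm r ((rsw f i l ∘ t) j))).card < n := by
        rw [← ht]
        apply Finset.card_lt_card
        rw [Finset.ssubset_iff_of_subset]
        · exact ⟨j₀, Finset.mem_filter.2 ⟨Finset.mem_univ _, hj₀⟩, fun h =>
            (Finset.mem_filter.1 h).2 hj₀s⟩
        · intro j hj
          rw [Finset.mem_filter] at hj ⊢
          refine ⟨hj.1, ?_⟩
          rcases hval j with h | h
          · rw [← h]; exact hj.2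
          · exact absurd h hj.2
      have e1 := ih _ hlt (rsw f i l ∘ t) rfl
      rw [hd f i l t, hd' f i l t] at e1
      exact e1
  funext t
  exact key _ t rfl

/-- codes of cellular structures -/
abbrev Code (r : ℕ) (K : Type) : Type :=
  Σ N : ℕ, Σ F : ℕ, Σ k : Fin F → ℕ, (Fin r → Fin N ⊕ (Σ f : Fin F, Fin r × Fin (k f))) → K

/-- inclusion of small elements -/
def incl {N F : ℕ} {k : Fin F → ℕ} : (Fin N ⊕ (Σ f : Fin F, Fin r × Fin (k f))) → UU N F k :=
  Sum.map id (fun x => ⟨x.1, (x.2.1.1, x.2.2)⟩)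

/-- `S` is coded by `x` -/
def Real (x : Code r K) (S : Str r K V) : Prop :=
  ∃ e : UU x.1 x.2.1 x.2.2.1 ≃ V, Cel (fun t => S (e ∘ t)) ∧
    ∀ t, S (e ∘ (incl ∘ t)) = x.2.2.2 t

theorem Real.isom {x : Code r K} {S S' : Str r K V} (h : Real x S) (h' : Real x S') :
    Isom S S' := by
  obtain ⟨e, h1, h2⟩ := h
  obtain ⟨e', h1', h2'⟩ := h'
  have h3 := cel_det h1 h1' (fun t ht => by
    have : ∃ s : Fin r → Fin x.1 ⊕ (Σ f : Fin x.2.1, Fin r × Fin (x.2.2.1 f)), t = incl ∘ s := by
      have h4 : ∀ j, ∃ s : Fin x.1 ⊕ (Σ f : Fin x.2.1, Fin r × Fin (x.2.2.1 f)),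
          t j = incl s := by
        intro j
        rcases hj : t j with a | ⟨f, i, b⟩
        · exact ⟨Sum.inl a, rfl⟩
        · exact ⟨Sum.inr ⟨f, (⟨i, ht j _ hj⟩, b)⟩, rfl⟩
      choose s hs using h4
      exact ⟨s, funext hs⟩
    obtain ⟨s, rfl⟩ := this
    show S (e ∘ (incl ∘ s)) = S' (e' ∘ (incl ∘ s))
    rw [h2, h2'])
  refine ⟨e.symm.trans e', fun t => ?_⟩
  have h4 : S (e ∘ (e.symm ∘ t)) = S' (e' ∘ (e.symm ∘ t)) := congrFun h3 (e.symm ∘ t)
  have e1 : e ∘ (e.symm ∘ t) = t := by funext j; simp
  rw [e1] at h4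
  rw [h4]
  rfl

theorem IsDec.real {S : Str r K V} (h : IsDec S) : ∃ x : Code r K, Real x S := by
  classical
  obtain ⟨N₀, F, X, h, hD⟩ := h
  let k : Fin F → ℕ := fun f => (X f).card
  let φ : UU N₀.card F k → V := Sum.elim (fun n => (N₀.equivFin.symm n).1)
    (fun x => h x.1 x.2.1 ((X x.1).equivFin.symm x.2.2).1)
  have hφl : ∀ n, φ (Sum.inl n) = (N₀.equivFin.symm n).1 := fun n => rfl
  have hφr : ∀ f i a, φ (Sum.inr ⟨f, (i, a)⟩) = h f i ((X f).equivFin.symm a).1 :=
    fun f i a => rfl
  have hinj : Function.Injective φ := by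
    rintro (n | ⟨f, i, a⟩) (n' | ⟨f', i', a'⟩) hu
    · rw [hφl, hφl] at hu
      rw [N₀.equivFin.symm.injective (Subtype.ext hu)]
    · rw [hφl, hφr] at hu
      exact absurd (hu ▸ (N₀.equivFin.symm n).2) (hD.out f' i' _ ((X f').equivFin.symm a').2)
    · rw [hφl, hφr] at hu
      exact absurd (hu ▸ (N₀.equivFin.symm n').2) (hD.out f i _ ((X f).equivFin.symm a).2)
    · rw [hφr, hφr] at hu
      have hf := hD.dis f f' i i' _ ((X f).equivFin.symm a).2 _ ((X f').equivFin.symm a').2 hu
      subst hf
      obtain ⟨h1, h2⟩ := (hD.fam f).inj i i' _ ((X f).equivFin.symm a).2 _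
        ((X f).equivFin.symm a').2 hu
      subst h1
      rw [(X f).equivFin.symm.injective (Subtype.ext h2)]
  have hsurj : Function.Surjective φ := by
    intro v
    by_cases hv : v ∈ N₀
    · refine ⟨Sum.inl (N₀.equivFin ⟨v, hv⟩), ?_⟩
      rw [hφl]
      simp
    · obtain ⟨f, i, a, ha, hav⟩ := hD.cov v hv
      refine ⟨Sum.inr ⟨f, (i, (X f).equivFin ⟨a, ha⟩)⟩, ?_⟩
      rw [hφr]
      simpa using hav
  let e : UU N₀.card F k ≃ V := Equiv.ofBijective φ ⟨hinj, hsurj⟩
  have he : ∀ u, e u = φ u := fun u => rfl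
  have hsw : ∀ f i j u, e (rsw f i j u) = swp (X f) (h f) i j (e u) := by
    intro f i j u
    rw [he, he]
    rcases u with n | ⟨f', l, a⟩
    · have : rsw f i j (Sum.inl n : UU N₀.card F k) = Sum.inl n := rfl
      rw [this, hφl, swp_other]
      · intro b hb hbn
        exact hD.out f i b hb (hbn ▸ (N₀.equivFin.symm n).2)
      · intro b hb hbn
        exact hD.out f j b hb (hbn ▸ (N₀.equivFin.symm n).2)
    · by_cases hf : f' = f
      · subst hf
        have h1 : rsw f' i j (Sum.inr ⟨f', (l, a)⟩ : UU N₀.card F k) =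
            Sum.inr ⟨f', (Equiv.swap i j l, a)⟩ := by simp [rsw]
        rw [h1, hφr, hφr]
        by_cases hl : l = i
        · subst hl
          rw [Equiv.swap_apply_left, swp_left (hD.fam f').inj _ _ ((X f').equivFin.symm a).2]
        · by_cases hl' : l = j
          · subst hl'
            rw [Equiv.swap_apply_right, swp_right (hD.fam f').inj _ _ ((X f').equivFin.symm a).2]
          · rw [Equiv.swap_apply_of_ne_of_ne hl hl', swp_other]
            · intro b hb
              exact (hD.fam f').inj.ne hb ((X f').equivFin.symm a).2 (Ne.symm hl)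
            · intro b hb
              exact (hD.fam f').inj.ne hb ((X f').equivFin.symm a).2 (Ne.symm hl')
      · have h1 : rsw f i j (Sum.inr ⟨f', (l, a)⟩ : UU N₀.card F k) =
            Sum.inr ⟨f', (l, a)⟩ := by simp [rsw, hf]
        rw [h1, hφr, swp_other]
        · intro b hb hbn
          exact hf (hD.dis f f' i l b hb _ ((X f').equivFin.symm a).2 hbn).symm
        · intro b hb hbn
          exact hf (hD.dis f f' j l b hb _ ((X f').equivFin.symm a).2 hbn).symm
  refine ⟨⟨N₀.card, F, k, fun t => S (e ∘ (incl ∘ t))⟩, e, ?_, fun t => rfl⟩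
  intro f i j t
  show S (e ∘ (rsw f i j ∘ t)) = S (e ∘ t)
  have h1 : e ∘ (rsw f i j ∘ t) = swp (X f) (h f) i j ∘ (e ∘ t) := by
    funext l
    exact hsw f i j (t l)
  rw [h1]
  exact (hD.fam f).aut i j (e ∘ t)

instance [Countable K] : Countable (Code r K) := by
  unfold Code
  infer_instance

/-- There are only countably many cellular structures. -/
theorem exists_code (r : ℕ) (K V : Type) [Countable K] :
    ∃ code : Str r K V → Option (Code r K),
      ∀ S S' : Str r K V, IsDec S → IsDec S' → code S = code S' → Isom S S' := by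
  classical
  refine ⟨fun S => if h : ∃ x : Code r K, Real x S then some h.choose else none, ?_⟩
  intro S S' hS hS' h
  have h1 := hS.real
  have h2 := hS'.real
  simp only [dif_pos h1, dif_pos h2, Option.some.injEq] at h
  exact h1.choose_spec.isom (h ▸ h2.choose_spec)

end Pool.Agent.H566V
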