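import Pool.Agent.H566V.Order
import Pool.Agent.H566V.Blk

/-!
Elements of the extension given by functions, and substitution in an arbitrary row.
-/

set_option autoImplicit false

namespace Pool.Agent.H566V

open Set Filter Topology

variable {r : ℕ} {K V G W' : Type} {p : Ultrafilter ℕ}

theorem Gm.eq_of {g g' : Gm p V} (h : ∀ᶠ n in (p : Filter ℕ), g.fn n = g'.fn n) : g = g' := by
  by_contra hne
  obtain ⟨n, h1, h2⟩ := (h.and (Gm.fn_ne_fn hne)).exists
  exact h2 h1

theorem ne_of_not_const {φ : ℕ → V} (h : ¬ ∃ a, ∀ᶠ n in (p : Filter ℕ), φ n = a) (a : V) :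
    ∀ᶠ n in (p : Filter ℕ), φ n ≠ a := by
  have h1 : ¬ ∀ᶠ n in (p : Filter ℕ), φ n = a := fun h2 => h ⟨a, h2⟩
  exact (Ultrafilter.eventually_not (f := p) (p := fun n => φ n = a)).2 h1

open Classical in
/-- the element of the extension given by a function -/
noncomputable def el (x : ℚ) (φ : ℕ → V) : E p V :=
  if h : ∃ a, ∀ᶠ n in (p : Filter ℕ), φ n = a then Sum.inl h.choose
  else Sum.inr (x, (exists_gm φ (ne_of_not_const h)).choose)

theorem el_const {x : ℚ} {φ : ℕ → V} {a : V} (h : ∀ᶠ n in (p : Filter ℕ), φ n = a) :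
    (el x φ : E p V) = Sum.inl a := by
  unfold el
  have hex : ∃ a, ∀ᶠ n in (p : Filter ℕ), φ n = a := ⟨a, h⟩
  rw [dif_pos hex]
  obtain ⟨n, h1, h2⟩ := (h.and hex.choose_spec).exists
  rw [← h1, ← h2]

theorem el_of_not_const {x : ℚ} {φ : ℕ → V} (h : ¬ ∃ a, ∀ᶠ n in (p : Filter ℕ), φ n = a) :
    ∃ g : Gm p V, (el x φ : E p V) = Sum.inr (x, g) ∧ ∀ᶠ n in (p : Filter ℕ), g.fn n = φ n := by
  refine ⟨_, by unfold el; rw [dif_neg h], ?_⟩
  exact (exists_gm φ (ne_of_not_const h)).choose_spec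

theorem el_fn (x : ℚ) (g : Gm p V) : (el x g.fn : E p V) = Sum.inr (x, g) := by
  have h : ¬ ∃ a, ∀ᶠ n in (p : Filter ℕ), g.fn n = a := by
    rintro ⟨a, ha⟩
    obtain ⟨n, h1, h2⟩ := (ha.and (g.fn_ne a)).exists
    exact h2 h1
  obtain ⟨g', h1, h2⟩ := el_of_not_const (p := p) (x := x) h
  rw [h1, Gm.eq_of h2]

theorem el_congr {x : ℚ} {φ ψ : ℕ → V} (h : ∀ᶠ n in (p : Filter ℕ), φ n = ψ n) :
    (el x φ : E p V) = el x ψ := by
  by_cases hc : ∃ a, ∀ᶠ n in (p : Filter ℕ), φ n = a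
  · obtain ⟨a, ha⟩ := hc
    rw [el_const ha, el_const (a := a)]
    filter_upwards [h, ha] with n h1 h2
    rw [← h1, h2]
  · have hc' : ¬ ∃ a, ∀ᶠ n in (p : Filter ℕ), ψ n = a := by
      rintro ⟨a, ha⟩
      apply hc
      refine ⟨a, ?_⟩
      filter_upwards [h, ha] with n h1 h2
      rw [h1, h2]
    obtain ⟨g, h1, h2⟩ := el_of_not_const (x := x) hc
    obtain ⟨g', h1', h2'⟩ := el_of_not_const (x := x) hc'
    rw [h1, h1', Gm.eq_of (g := g) (g' := g')]
    filter_upwards [h, h2, h2'] with n h3 h4 h5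
    rw [h4, h5, h3]

theorem ev_el (x : ℚ) (φ : ℕ → V) :
    ∀ᶠ ω in (W p : Filter (ℚ → ℕ)), ev ω (el x φ : E p V) = φ (ω x) := by
  by_cases hc : ∃ a, ∀ᶠ n in (p : Filter ℕ), φ n = a
  · obtain ⟨a, ha⟩ := hc
    rw [el_const ha]
    filter_upwards [(ev_W_single (p := p) x (fun n => φ n = a)).2 ha] with ω hω
    rw [ev_inl, hω]
  · obtain ⟨g, h1, h2⟩ := el_of_not_const (x := x) hc
    rw [h1]
    filter_upwards [(ev_W_single (p := p) x (fun n => g.fn n = φ n)).2 h2] with ω hω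
    rw [ev_inr, hω]

variable [Finite K]

theorem ext_el (c : Str r K V) (x : Fin r → ℚ) (φ : Fin r → ℕ → V) {k : K}
    (h : ∀ᶠ ω in (W p : Filter (ℚ → ℕ)), c (fun j => φ j (ω (x j))) = k) :
    ext c (fun j => (el (x j) (φ j) : E p V)) = k := by
  apply ext_eq_of
  have h1 : ∀ᶠ ω in (W p : Filter (ℚ → ℕ)), ∀ j, ev ω (el (x j) (φ j) : E p V) = φ j (ω (x j)) := by
    rw [Filter.eventually_all]
    intro j
    exact ev_el (x j) (φ j)
  filter_upwards [h, h1] with ω h2 h3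
  rw [← h2]
  congr 1
  funext j
  exact h3 j

theorem ext_el' (c : Str r K V) (x : Fin r → ℚ) (φ : Fin r → ℕ → V) :
    ∀ᶠ ω in (W p : Filter (ℚ → ℕ)), c (fun j => φ j (ω (x j))) =
      ext c (fun j => (el (x j) (φ j) : E p V)) := by
  have h1 : ∀ᶠ ω in (W p : Filter (ℚ → ℕ)), ∀ j, ev ω (el (x j) (φ j) : E p V) = φ j (ω (x j)) := by
    rw [Filter.eventually_all]
    intro j
    exact ev_el (x j) (φ j)
  filter_upwards [ext_spec c (fun j => (el (x j) (φ j) : E p V)), h1] with ω h2 h3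
  rw [← h2]
  congr 1
  funext j
  exact (h3 j).symm

theorem fullSym_ext {S : Str r K W'} {c : Str r K V} (hS : Cls S c) (hC : ¬ Cont S) :
    FullSym (ext (p := p) c) := by
  by_contra h
  exact hC (cont_of_not_fullSym (ext_patInv c) (hS.trans (cls_ext c)) h)

/-- substitution in an arbitrary row -/
theorem ext_sub {c : Str r K V} (hc : FullSym (ext (p := p) c)) (t : Fin r → E p V) (x₀ : ℚ) :
    ∀ᶠ n in (p : Filter ℕ), ext c (sub x₀ n ∘ t) = ext c t := by
  classical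
  obtain ⟨N, hN⟩ : ∃ N : ℚ, ∀ x ∈ rows t, N < x := by
    obtain ⟨N, hN⟩ := (rows t).exists_le (α := ℚᵒᵈ)
    exact ⟨OrderDual.ofDual N - 1, fun x hx => by
      have h1 : OrderDual.ofDual N ≤ x := hN x hx
      linarith⟩
  let f : ℚ → ℚ := fun u => if u = x₀ then N else u
  have hf : Set.InjOn f (rows t) := by
    intro a ha b hb hab
    simp only [f] at hab
    split_ifs at hab with h1 h2 h2
    · rw [h1, h2]
    · exact absurd (hN b hb) (by rw [hab]; exact lt_irrefl _)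
    · exact absurd (hN a ha) (by rw [hab]; exact lt_irrefl _)
    · exact hab
  have h1 := hc t f hf
  have h2 := ext_sub_min c (p := p) (t := mv f ∘ t) (x₀ := N) (fun x hx hxN => by
    rw [rows_mv, Finset.mem_image] at hx
    obtain ⟨u, hu, rfl⟩ := hx
    by_cases h3 : u = x₀
    · exact absurd (by simp [f, h3]) hxN
    · have : f u = u := by simp [f, h3]
      rw [this]
      exact hN u hu)
  filter_upwards [h2] with n hn
  rw [← h1, ← hn]
  congr 1
  funext j
  simp only [Function.comp]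
  rcases hj : t j with a | ⟨x, g⟩
  · rfl
  · by_cases hx : x = x₀
    · subst hx
      have : f x = N := by simp [f]
      rw [mv_inr, this, sub_inr_self, sub_inr_self]
    · have : f x = x := by simp [f, hx]
      have hxN : x ≠ N := (hN x (mem_rows.2 ⟨j, by rw [hj]; rfl⟩)).ne'
      rw [mv_inr, this, sub_inr_of_ne _ _ hx, sub_inr_of_ne _ _ hxN]

end Pool.Agent.H566V
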