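import Pool.Agent.H566V.Tensor

/-!
Extending a structure by independent rows of generic elements, one row for every rational number,
one column for every nonconstant germ along an ultrafilter.
-/

set_option autoImplicit false

namespace Pool.Agent.H566V

open Set Filter Topology

variable {r : ℕ} {K V G : Type}

/-- the row of an element -/
def row : V ⊕ (ℚ × G) → Option ℚ := Sum.elim (fun _ => none) (fun x => some x.1)

/-- move the rows -/
def mv (f : ℚ → ℚ) : V ⊕ (ℚ × G) → V ⊕ (ℚ × G) := Sum.map id (Prod.map f id)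

@[simp] theorem mv_inl (f : ℚ → ℚ) (a : V) : mv (G := G) f (Sum.inl a) = Sum.inl a := rfl

@[simp] theorem mv_inr (f : ℚ → ℚ) (x : ℚ) (g : G) :
    mv (V := V) f (Sum.inr (x, g)) = Sum.inr (f x, g) := rfl

@[simp] theorem row_inl (a : V) : row (G := G) (Sum.inl a) = none := rfl

@[simp] theorem row_inr (x : ℚ) (g : G) : row (V := V) (Sum.inr (x, g)) = some x := rfl

theorem row_mv (f : ℚ → ℚ) (x : V ⊕ (ℚ × G)) : row (mv f x) = (row x).map f := by
  rcases x with x | ⟨x, g⟩ <;> rfl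

theorem mv_mv (f g : ℚ → ℚ) (x : V ⊕ (ℚ × G)) : mv f (mv g x) = mv (f ∘ g) x := by
  rcases x with x | ⟨x, g⟩ <;> rfl

theorem mv_congr {f g : ℚ → ℚ} {x : V ⊕ (ℚ × G)} (h : ∀ y, row x = some y → f y = g y) :
    mv f x = mv g x := by
  rcases x with x | ⟨x, g⟩
  · rfl
  · simp only [mv_inr]
    rw [h x rfl]

theorem mv_id {f : ℚ → ℚ} {x : V ⊕ (ℚ × G)} (h : ∀ y, row x = some y → f y = y) :
    mv f x = x := by
  rcases x with x | ⟨x, g⟩
  · rfl
  · simp only [mv_inr]
    rw [h x rfl]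

theorem row_eq_some {x : V ⊕ (ℚ × G)} {y : ℚ} (h : row x = some y) : ∃ g, x = Sum.inr (y, g) := by
  rcases x with x | ⟨x, g⟩
  · simp at h
  · simp only [row_inr, Option.some.injEq] at h
    exact ⟨g, by rw [h]⟩

/-- the rows of a tuple -/
def rows (t : Fin r → V ⊕ (ℚ × G)) : Finset ℚ :=
  Finset.eraseNone (Finset.univ.image (fun j => row (t j)))

theorem mem_rows {t : Fin r → V ⊕ (ℚ × G)} {x : ℚ} : x ∈ rows t ↔ ∃ j, row (t j) = some x := by
  simp [rows, Finset.mem_eraseNone]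

theorem rows_mv (f : ℚ → ℚ) (t : Fin r → V ⊕ (ℚ × G)) : rows (mv f ∘ t) = (rows t).image f := by
  ext x
  simp only [mem_rows, Finset.mem_image, Function.comp, row_mv, Option.map_eq_some_iff]
  constructor
  · rintro ⟨j, y, hy, rfl⟩
    exact ⟨y, ⟨j, hy⟩, rfl⟩
  · rintro ⟨y, ⟨j, hy⟩, rfl⟩
    exact ⟨j, y, hy, rfl⟩

/-- The value of a tuple depends only on the order pattern of the rows. -/
def PatInv (c : Str r K (V ⊕ (ℚ × G))) : Prop :=
  ∀ (t : Fin r → V ⊕ (ℚ × G)) (f : ℚ → ℚ), StrictMonoOn f (rows t) → c (mv f ∘ t) = c t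

/-- The value of a tuple depends only on the equality pattern of the rows. -/
def FullSym (c : Str r K (V ⊕ (ℚ × G))) : Prop :=
  ∀ (t : Fin r → V ⊕ (ℚ × G)) (f : ℚ → ℚ), Set.InjOn f (rows t) → c (mv f ∘ t) = c t

/-! ### Germs -/

section germs

variable {p : Ultrafilter ℕ}

def gs (p : Ultrafilter ℕ) (V : Type) : Setoid (ℕ → V) where
  r f g := ∀ᶠ n in (p : Filter ℕ), f n = g n
  iseqv := ⟨fun _ => Filter.Eventually.of_forall fun _ => rfl,
    fun h => h.mono fun _ h => h.symm, fun h h' => by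
      filter_upwards [h, h'] with n h1 h2
      rw [h1, h2]⟩

/-- nonconstant germs -/
def Gm (p : Ultrafilter ℕ) (V : Type) : Type :=
  {g : Quotient (gs p V) // ∀ a : V, g ≠ Quotient.mk (gs p V) (fun _ => a)}

/-- a representative -/
noncomputable def Gm.fn (g : Gm p V) : ℕ → V := g.1.out

theorem Gm.fn_ne (g : Gm p V) (a : V) : ∀ᶠ n in (p : Filter ℕ), g.fn n ≠ a := by
  by_contra h
  have h1 : ∀ᶠ n in (p : Filter ℕ), g.fn n = a := by
    have := (Ultrafilter.eventually_not (f := p) (p := fun n => g.fn n ≠ a)).2 h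
    simpa using this
  apply g.2 a
  rw [← Quotient.out_eq g.1]
  exact Quotient.sound h1

theorem Gm.fn_ne_fn {g g' : Gm p V} (hg : g ≠ g') : ∀ᶠ n in (p : Filter ℕ), g.fn n ≠ g'.fn n := by
  by_contra h
  have h1 : ∀ᶠ n in (p : Filter ℕ), g.fn n = g'.fn n := by
    have := (Ultrafilter.eventually_not (f := p) (p := fun n => g.fn n ≠ g'.fn n)).2 h
    simpa using this
  apply hg
  apply Subtype.ext
  rw [← Quotient.out_eq g.1, ← Quotient.out_eq g'.1]
  exact Quotient.sound h1

theorem exists_gm (f : ℕ → V) (hf : ∀ a, ∀ᶠ n in (p : Filter ℕ), f n ≠ a) :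
    ∃ g : Gm p V, ∀ᶠ n in (p : Filter ℕ), g.fn n = f n := by
  refine ⟨⟨Quotient.mk (gs p V) f, fun a h => ?_⟩, ?_⟩
  · have h1 : ∀ᶠ n in (p : Filter ℕ), f n = a := Quotient.exact h
    obtain ⟨n, hn1, hn2⟩ := ((hf a).and h1).exists
    exact hn1 hn2
  · exact Quotient.exact (Quotient.out_eq (Quotient.mk (gs p V) f))

end germs

/-! ### The extension -/

/-- a finite valued function is eventually constant along an ultrafilter -/
theorem ulim {α β : Type*} [Finite β] (p : Ultrafilter α) (f : α → β) :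
    ∃ b, ∀ᶠ x in (p : Filter α), f x = b := by
  rw [← Ultrafilter.eventually_exists_iff]
  exact Filter.Eventually.of_forall fun x => ⟨f x, rfl⟩

variable {p : Ultrafilter ℕ}

/-- the universe of the extension -/
abbrev E (p : Ultrafilter ℕ) (V : Type) : Type := V ⊕ (ℚ × Gm p V)

/-- evaluation of the elements of the extension -/
noncomputable def ev (ω : ℚ → ℕ) : E p V → V := Sum.elim id (fun x => x.2.fn (ω x.1))

@[simp] theorem ev_inl (ω : ℚ → ℕ) (a : V) : ev (p := p) ω (Sum.inl a) = a := rfl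

@[simp] theorem ev_inr (ω : ℚ → ℕ) (x : ℚ) (g : Gm p V) : ev ω (Sum.inr (x, g)) = g.fn (ω x) := rfl

variable [Finite K]

/-- the extension of a structure -/
noncomputable def ext (c : Str r K V) : Str r K (E p V) :=
  fun t => (ulim (W p) (fun ω => c (ev ω ∘ t))).choose

theorem ext_spec (c : Str r K V) (t : Fin r → E p V) :
    ∀ᶠ ω in (W p : Filter (ℚ → ℕ)), c (ev ω ∘ t) = ext c t :=
  (ulim (W p) (fun ω => c (ev ω ∘ t))).choose_spec

theorem ext_eq_of (c : Str r K V) {t : Fin r → E p V} {k : K}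
    (h : ∀ᶠ ω in (W p : Filter (ℚ → ℕ)), c (ev ω ∘ t) = k) : ext c t = k := by
  obtain ⟨ω, h1, h2⟩ := (h.and (ext_spec c t)).exists
  exact h2.symm.trans h1

theorem ext_inl (c : Str r K V) (t : Fin r → V) :
    ext c (fun j => (Sum.inl (t j) : E p V)) = c t :=
  ext_eq_of c (Filter.Eventually.of_forall fun _ => rfl)

theorem ev_congr {ω ω' : ℚ → ℕ} {t : Fin r → E p V} (h : ∀ x ∈ rows t, ω x = ω' x) :
    ev ω ∘ t = ev ω' ∘ t := by
  funext j
  simp only [Function.comp]
  rcases hj : t j with a | ⟨x, g⟩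
  · rfl
  · simp only [ev_inr]
    rw [h x (mem_rows.2 ⟨j, by rw [hj]; rfl⟩)]

theorem ext_patInv (c : Str r K V) : PatInv (ext (p := p) c) := by
  intro t f hf
  apply ext_eq_of
  have h1 : ∀ᶠ ω in (W p : Filter (ℚ → ℕ)), c (ev (ω ∘ f) ∘ t) = ext c t := by
    rw [ev_W_comp hf (P := fun ω => c (ev ω ∘ t) = ext c t) (fun ω ω' h => by
      rw [ev_congr h])]
    exact ext_spec c t
  filter_upwards [h1] with ω hω
  rw [← hω]
  congr 1
  funext j
  simp only [Function.comp]
  rcases t j with a | ⟨x, g⟩ <;> rfl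

/-- replace the elements of the row `x₀` by their values at `n` -/
noncomputable def sub (x₀ : ℚ) (n : ℕ) : E p V → E p V :=
  Sum.elim Sum.inl (fun x => if x.1 = x₀ then Sum.inl (x.2.fn n) else Sum.inr x)

@[simp] theorem sub_inl (x₀ : ℚ) (n : ℕ) (a : V) : sub (p := p) x₀ n (Sum.inl a) = Sum.inl a := rfl

theorem sub_inr_self (x₀ : ℚ) (n : ℕ) (g : Gm p V) :
    sub x₀ n (Sum.inr (x₀, g)) = Sum.inl (g.fn n) := by
  simp [sub]

theorem sub_inr_of_ne {x₀ x : ℚ} (n : ℕ) (g : Gm p V) (h : x ≠ x₀) :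
    sub x₀ n (Sum.inr (x, g)) = Sum.inr (x, g) := by
  simp [sub, h]

theorem ev_update (x₀ : ℚ) (n : ℕ) (ω : ℚ → ℕ) (x : E p V) :
    ev (Function.update ω x₀ n) x = ev ω (sub x₀ n x) := by
  classical
  rcases x with a | ⟨x, g⟩
  · rfl
  · by_cases h : x = x₀
    · subst h
      rw [sub_inr_self]
      simp
    · rw [sub_inr_of_ne _ _ h]
      simp [h]

theorem ext_sub_min (c : Str r K V) {t : Fin r → E p V} {x₀ : ℚ}
    (h : ∀ x ∈ rows t, x ≠ x₀ → x₀ < x) :
    ∀ᶠ n in (p : Filter ℕ), ext c (sub x₀ n ∘ t) = ext c t := by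
  classical
  have h1 := ext_spec c t
  rw [ev_W_cons (R := (rows t).erase x₀) (x₀ := x₀) (fun x hx => h x (Finset.mem_of_mem_erase hx)
    (Finset.ne_of_mem_erase hx)) (P := fun ω => c (ev ω ∘ t) = ext c t) (fun ω ω' h1 h2 => by
      rw [ev_congr (t := t) (ω := ω) (ω' := ω')]
      intro x hx
      by_cases hx0 : x = x₀
      · rw [hx0]; exact h1
      · exact h2 x (Finset.mem_erase.2 ⟨hx0, hx⟩))] at h1
  filter_upwards [h1] with n hn
  apply ext_eq_of
  filter_upwards [hn] with ω hω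
  rw [← hω]
  congr 1
  funext j
  exact (ev_update x₀ n ω (t j)).symm

/-- distinct elements of the extension have distinct values almost everywhere -/
theorem ev_ne {x y : E p V} (hxy : x ≠ y) : ∀ᶠ ω in (W p : Filter (ℚ → ℕ)), ev ω x ≠ ev ω y := by
  have key : ∀ (x y : ℚ) (g g' : Gm p V), x < y →
      ∀ᶠ ω in (W p : Filter (ℚ → ℕ)), g.fn (ω x) ≠ g'.fn (ω y) := by
    intro x y g g' hlt
    rw [ev_W_cons (R := {y}) (x₀ := x) (by simpa using hlt)
      (P := fun ω => g.fn (ω x) ≠ g'.fn (ω y)) (fun ω ω' h1 h2 => by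
        rw [h1, h2 y (by simp)])]
    refine Filter.Eventually.of_forall fun n => ?_
    have h1 := (ev_W_single (p := p) y (fun m => g'.fn m ≠ g.fn n)).2 (g'.fn_ne _)
    filter_upwards [h1] with ω hω
    simp only [Function.update_self, Function.update_of_ne hlt.ne']
    exact hω.symm
  rcases x with a | ⟨x, g⟩
  · rcases y with b | ⟨y, g'⟩
    · have : a ≠ b := fun h => hxy (by rw [h])
      exact Filter.Eventually.of_forall fun _ => this
    · have h1 := (ev_W_single (p := p) y (fun m => g'.fn m ≠ a)).2 (g'.fn_ne _)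
      filter_upwards [h1] with ω hω
      exact hω.symm
  · rcases y with b | ⟨y, g'⟩
    · exact (ev_W_single (p := p) x (fun m => g.fn m ≠ b)).2 (g.fn_ne _)
    · rcases lt_trichotomy x y with h | h | h
      · exact key x y g g' h
      · subst h
        have hg : g ≠ g' := fun h => hxy (by rw [h])
        exact (ev_W_single (p := p) x (fun m => g.fn m ≠ g'.fn m)).2 (Gm.fn_ne_fn hg)
      · filter_upwards [key y x g' g h] with ω hω
        exact hω.symm

theorem cls_ext (c : Str r K V) : Cls c (ext (p := p) c) := by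
  classical
  intro F
  have h1 : ∀ᶠ ω in (W p : Filter (ℚ → ℕ)), ∀ xy ∈ F ×ˢ F, xy.1 ≠ xy.2 → ev ω xy.1 ≠ ev ω xy.2 := by
    rw [Filter.eventually_all_finset]
    rintro ⟨x, y⟩ _
    by_cases hxy : x = y
    · exact Filter.Eventually.of_forall fun _ h => absurd hxy h
    · filter_upwards [ev_ne hxy] with ω hω _
      exact hω
  have hfin : {t : Fin r → E p V | ∀ j, t j ∈ F}.Finite :=
    Set.Finite.pi' (t := fun _ : Fin r => (F : Set (E p V))) (fun _ => F.finite_toSet)
  have h2 : ∀ᶠ ω in (W p : Filter (ℚ → ℕ)), ∀ t ∈ {t : Fin r → E p V | ∀ j, t j ∈ F},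
      c (ev ω ∘ t) = ext c t := by
    rw [Filter.eventually_all_finite hfin]
    intro t _
    exact ext_spec c t
  obtain ⟨ω, h1, h2⟩ := (h1.and h2).exists
  refine ⟨ev ω, fun x hx y hy hxy => ?_, fun t ht => h2 t ht⟩
  by_contra hne
  exact h1 (x, y) (Finset.mem_product.2 ⟨hx, hy⟩) hne hxy

end Pool.Agent.H566V
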