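import Pool.Agent.H566V.Count

/-!
A free sequence of tuples with different colours.
-/

set_option autoImplicit false

namespace Pool.Agent.H566V

open Set Filter Topology

variable {r : ℕ} {Col : Type} {p : Ultrafilter ℕ}

/-- evaluation -/
def evx (ω : ℚ → ℕ) : ℕ ⊕ ℚ → ℕ := Sum.elim id ω

/-- the colour of the tuple is the colour of `v l` for generic rows -/
def QQ (p : Ultrafilter ℕ) (c : Str r Col ℕ) (v : ℕ → Fin r → ℕ) (y : Fin r → ℕ ⊕ ℚ)
    (σ : Fin r → Fin r) (l : ℕ) : Prop :=
  ∀ᶠ ω in (W p : Filter (ℚ → ℕ)), c (fun j => v (evx ω (y j)) (σ j)) = c (v l)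

theorem QQ_unique {c : Str r Col ℕ} {v : ℕ → Fin r → ℕ} (hv : ∀ l l', c (v l) = c (v l') → l = l')
    {y : Fin r → ℕ ⊕ ℚ} {σ : Fin r → Fin r} {l l' : ℕ} (h : QQ p c v y σ l)
    (h' : QQ p c v y σ l') : l = l' := by
  obtain ⟨ω, h1, h2⟩ := (h.and h').exists
  exact hv l l' (h1.symm.trans h2)

theorem QQ_pat {c : Str r Col ℕ} {v : ℕ → Fin r → ℕ} {y : Fin r → ℕ ⊕ ℚ} {σ : Fin r → Fin r}
    {l : ℕ} {R : Finset ℚ} (hR : ∀ j q, y j = Sum.inr q → q ∈ R) {f : ℚ → ℚ}
    (hf : StrictMonoOn f R) :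
    QQ p c v (fun j => Sum.map id f (y j)) σ l ↔ QQ p c v y σ l := by
  unfold QQ
  rw [← ev_W_comp hf (P := fun ω => c (fun j => v (evx ω (y j)) (σ j)) = c (v l))
    (fun ω ω' h => by
      have : (fun j => v (evx ω (y j)) (σ j)) = (fun j => v (evx ω' (y j)) (σ j)) := by
        funext j
        rcases hj : y j with a | q
        · rfl
        · show v (ω q) (σ j) = v (ω' q) (σ j)
          rw [h q (hR j q hj)]
      rw [this])]
  have key : ∀ ω : ℚ → ℕ, (fun j => v (evx ω (Sum.map id f (y j))) (σ j)) =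
      (fun j => v (evx (ω ∘ f) (y j)) (σ j)) := by
    intro ω
    funext j
    rcases y j with a | q <;> rfl
  simp only [key]

/-- substitution -/
noncomputable def sbx (q₀ : ℚ) (n : ℕ) : ℕ ⊕ ℚ → ℕ ⊕ ℚ :=
  Sum.elim Sum.inl (fun q => if q = q₀ then Sum.inl n else Sum.inr q)

theorem QQ_cons {c : Str r Col ℕ} {v : ℕ → Fin r → ℕ} {y : Fin r → ℕ ⊕ ℚ} {σ : Fin r → Fin r}
    {l : ℕ} {q₀ : ℚ} (hq : ∀ j q, y j = Sum.inr q → q₀ ≤ q) :
    QQ p c v y σ l ↔ ∀ᶠ n in (p : Filter ℕ), QQ p c v (fun j => sbx q₀ n (y j)) σ l := by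
  classical
  unfold QQ
  set R : Finset ℚ := (Finset.eraseNone (Finset.univ.image
    (fun j => (y j).elim (fun _ => none) (fun q => some q)))).erase q₀ with hR
  have hmem : ∀ q, q ∈ R ↔ q ≠ q₀ ∧ ∃ j, y j = Sum.inr q := by
    intro q
    rw [hR, Finset.mem_erase, Finset.mem_eraseNone, Finset.mem_image]
    constructor
    · rintro ⟨h1, j, -, h2⟩
      refine ⟨h1, j, ?_⟩
      rcases hj : y j with a | q'
      · rw [hj] at h2; simp at h2
      · rw [hj] at h2
        simp only [Sum.elim_inr, Option.some.injEq] at h2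
        rw [h2]
    · rintro ⟨h1, j, h2⟩
      exact ⟨h1, j, Finset.mem_univ _, by rw [h2]; rfl⟩
  rw [ev_W_cons (R := R) (x₀ := q₀) (fun q hq' => by
    obtain ⟨h1, j, h2⟩ := (hmem q).1 hq'
    exact lt_of_le_of_ne (hq j q h2) (Ne.symm h1))
    (P := fun ω => c (fun j => v (evx ω (y j)) (σ j)) = c (v l)) (fun ω ω' h1 h2 => by
      have : (fun j => v (evx ω (y j)) (σ j)) = (fun j => v (evx ω' (y j)) (σ j)) := by
        funext j
        rcases hj : y j with a | q
        · rfl
        · show v (ω q) (σ j) = v (ω' q) (σ j)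
          by_cases hq0 : q = q₀
          · rw [hq0, h1]
          · rw [h2 q ((hmem q).2 ⟨hq0, j, hj⟩)]
      rw [this])]
  refine Filter.eventually_congr (Filter.Eventually.of_forall fun n => ?_)
  refine Filter.eventually_congr (Filter.Eventually.of_forall fun ω => ?_)
  have key : (fun j => v (evx (Function.update ω q₀ n) (y j)) (σ j)) =
      (fun j => v (evx ω (sbx q₀ n (y j))) (σ j)) := by
    funext j
    rcases hj : y j with a | q
    · rfl
    · by_cases hq0 : q = q₀
      · subst hq0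
        show v (Function.update ω q n q) (σ j) = v (evx ω (sbx q n (Sum.inr q))) (σ j)
        rw [Function.update_self]
        simp [sbx, evx]
      · show v (Function.update ω q₀ n q) (σ j) = v (evx ω (sbx q₀ n (Sum.inr q))) (σ j)
        rw [Function.update_of_ne hq0]
        simp [sbx, evx, hq0]
  rw [key]

/-- normalised tuples over `s` -/
def YY (r : ℕ) (s : Finset ℕ) : Set (Fin r → ℕ ⊕ ℚ) :=
  {y | ∀ j, (∃ m ∈ s, y j = Sum.inl m) ∨ ∃ i < r, y j = Sum.inr ((i : ℕ) : ℚ)}

theorem YY_finite (r : ℕ) (s : Finset ℕ) : (YY r s).Finite := by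
  classical
  have h1 : (YY r s) ⊆ {y | ∀ j, y j ∈ (s.image Sum.inl ∪ (Finset.range r).image
      (fun i : ℕ => (Sum.inr ((i : ℕ) : ℚ) : ℕ ⊕ ℚ)) : Finset (ℕ ⊕ ℚ))} := by
    intro y hy j
    rcases hy j with ⟨m, hm, h⟩ | ⟨i, hi, h⟩
    · exact Finset.mem_union_left _ (Finset.mem_image.2 ⟨m, hm, h.symm⟩)
    · exact Finset.mem_union_right _ (Finset.mem_image.2 ⟨i, Finset.mem_range.2 hi, h.symm⟩)
  refine Set.Finite.subset ?_ h1
  exact Set.Finite.pi' (t := fun _ : Fin r => (((s.image Sum.inl ∪ (Finset.range r).image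
      (fun i : ℕ => (Sum.inr ((i : ℕ) : ℚ) : ℕ ⊕ ℚ)) : Finset (ℕ ⊕ ℚ))) : Set (ℕ ⊕ ℚ)))
    (fun _ => Finset.finite_toSet _)

/-- good next elements -/
def GG (p : Ultrafilter ℕ) (c : Str r Col ℕ) (v : ℕ → Fin r → ℕ) (s : Finset ℕ) (n : ℕ) : Prop :=
  (∀ m ∈ s, m < n) ∧ ∀ y ∈ YY r s, ∀ σ : Fin r → Fin r, ¬ QQ p c v y σ n ∧
    ((∀ j q, y j = Sum.inr q → 0 ≤ q) → ∀ l ∈ s, (QQ p c v y σ l ↔
      QQ p c v (fun j => sbx 0 n (y j)) σ l))

theorem ev_GG (hp : (p : Filter ℕ) ≤ atTop) {c : Str r Col ℕ} {v : ℕ → Fin r → ℕ}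
    (hv : ∀ l l', c (v l) = c (v l') → l = l') (s : Finset ℕ) :
    ∀ᶠ n in (p : Filter ℕ), GG p c v s n := by
  classical
  refine Filter.Eventually.and ?_ ?_
  · rw [Filter.eventually_all_finset]
    intro m _
    exact hp (eventually_gt_atTop m)
  · rw [Filter.eventually_all_finite (YY_finite r s)]
    intro y _
    rw [Filter.eventually_all]
    intro σ
    refine Filter.Eventually.and ?_ ?_
    · by_cases hex : ∃ l, QQ p c v y σ l
      · obtain ⟨l, hl⟩ := hex
        filter_upwards [hp (eventually_gt_atTop l)] with n hn h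
        have := QQ_unique hv hl h
        omega
      · push Not at hex
        exact Filter.Eventually.of_forall hex
    · by_cases h0 : ∀ j q, y j = Sum.inr q → 0 ≤ q
      · have : ∀ᶠ n in (p : Filter ℕ), ∀ l ∈ s, (QQ p c v y σ l ↔
            QQ p c v (fun j => sbx 0 n (y j)) σ l) := by
          rw [Filter.eventually_all_finset]
          intro l _
          by_cases hl : QQ p c v y σ l
          · filter_upwards [(QQ_cons h0).1 hl] with n hn
            exact ⟨fun _ => hn, fun _ => hl⟩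
          · have h1 := (Ultrafilter.eventually_not (f := p)
              (p := fun n => QQ p c v (fun j => sbx 0 n (y j)) σ l)).2
              (fun h => hl ((QQ_cons h0).2 h))
            filter_upwards [h1] with n hn
            exact ⟨fun h => absurd h hl, fun h => absurd h hn⟩
        filter_upwards [this] with n hn _
        exact hn
      · exact Filter.Eventually.of_forall fun _ h => absurd h h0

/-- rank function -/
noncomputable def rk (R : Finset ℚ) (u : ℚ) : ℚ := ((R.filter (fun w => w < u)).card : ℚ)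

theorem rk_strictMono (R : Finset ℚ) : StrictMonoOn (rk R) R := by
  classical
  intro a ha b _ hab
  unfold rk
  have : (R.filter (fun w => w < a)).card < (R.filter (fun w => w < b)).card := by
    apply Finset.card_lt_card
    rw [Finset.ssubset_iff_of_subset]
    · exact ⟨a, Finset.mem_filter.2 ⟨ha, hab⟩, fun h => lt_irrefl _ (Finset.mem_filter.1 h).2⟩
    · intro w hw
      rw [Finset.mem_filter] at hw ⊢
      exact ⟨hw.1, hw.2.trans hab⟩
  exact_mod_cast this

theorem rk_lt {R : Finset ℚ} {u : ℚ} (hu : u ∈ R) :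
    (R.filter (fun w => w < u)).card < R.card := by
  classical
  apply Finset.card_lt_card
  rw [Finset.ssubset_iff_of_subset (Finset.filter_subset _ _)]
  exact ⟨u, hu, fun h => lt_irrefl _ (Finset.mem_filter.1 h).2⟩

/-- The free sequence. -/
theorem exists_free (c : Str r Col ℕ) (hinf : (Set.range c).Infinite) :
    ∃ v : ℕ → (Fin r → ℕ), (∀ l l', c (v l) = c (v l') → l = l') ∧
      ∀ (x : Fin r → ℕ) (σ : Fin r → Fin r) (b : ℕ),
        c (fun j => v (x j) (σ j)) = c (v b) → ∃ j, x j = b := by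
  classical
  let e := hinf.natEmbedding
  have hv0 : ∀ l, ∃ t, c t = (e l).1 := fun l => (e l).2
  choose v hv1 using hv0
  have hv : ∀ l l', c (v l) = c (v l') → l = l' := by
    intro l l' h
    rw [hv1, hv1] at h
    exact e.injective (Subtype.ext h)
  set p : Ultrafilter ℕ := Filter.hyperfilter ℕ with hpdef
  have hp : (p : Filter ℕ) ≤ atTop := Nat.hyperfilter_le_atTop
  have hnx : ∀ s : Finset ℕ, ∃ n, GG p c v s n := fun s => (ev_GG hp hv s).exists
  choose nx hnx using hnx
  obtain ⟨s, hs0, hss⟩ : ∃ s : ℕ → Finset ℕ, s 0 = ∅ ∧ ∀ n, s (n + 1) = insert (nx (s n)) (s n) :=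
    ⟨fun n => Nat.rec ∅ (fun _ s => insert (nx s) s) n, rfl, fun _ => rfl⟩
  let h : ℕ → ℕ := fun n => nx (s n)
  have hmem : ∀ n m, m < n → h m ∈ s n := by
    intro n
    induction n with
    | zero => intro m hm; omega
    | succ n ih =>
      intro m hm
      rw [hss]
      rcases Nat.lt_succ_iff_lt_or_eq.1 hm with h1 | h1
      · exact Finset.mem_insert_of_mem (ih m h1)
      · rw [h1]; exact Finset.mem_insert_self _ _
  have hlt : ∀ m n, m < n → h m < h n := fun m n hmn => (hnx (s n)).1 _ (hmem n m hmn)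
  have hinj : Function.Injective h := by
    intro m n hmn
    rcases lt_trichotomy m n with h1 | h1 | h1
    · exact absurd hmn (hlt m n h1).ne
    · exact h1
    · exact absurd hmn (hlt n m h1).ne'
  refine ⟨fun l => v (h l), fun l l' hl => hinj (hv _ _ hl), ?_⟩
  intro x σ b hx
  by_contra hcon
  push Not at hcon
  let y : ℕ → Fin r → ℕ ⊕ ℚ := fun T j => if x j < T then Sum.inl (h (x j)) else
    Sum.inr ((x j : ℕ) : ℚ)
  have hy1 : ∀ T j, x j < T → y T j = Sum.inl (h (x j)) := fun T j hj => by simp [y, hj]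
  have hy2 : ∀ T j, T ≤ x j → y T j = Sum.inr ((x j : ℕ) : ℚ) := fun T j hj => by
    simp [y, not_lt.2 hj]
  -- rows
  let R : ℕ → Finset ℚ := fun T => (Finset.univ.filter (fun j => T ≤ x j)).image
    (fun j => ((x j : ℕ) : ℚ))
  have hR : ∀ T j q, y T j = Sum.inr q → q ∈ R T := by
    intro T j q hq
    by_cases hj : x j < T
    · rw [hy1 T j hj] at hq; simp at hq
    · push Not at hj
      rw [hy2 T j hj, Sum.inr.injEq] at hq
      exact Finset.mem_image.2 ⟨j, Finset.mem_filter.2 ⟨Finset.mem_univ _, hj⟩, hq⟩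
  have hRc : ∀ T, (R T).card ≤ r := by
    intro T
    refine Finset.card_image_le.trans ((Finset.card_filter_le _ _).trans ?_)
    simp
  have hnorm : ∀ T, (fun j => Sum.map id (rk (R T)) (y T j)) ∈ YY r (s T) := by
    intro T j
    by_cases hj : x j < T
    · left
      refine ⟨h (x j), hmem T _ hj, ?_⟩
      simp only [hy1 T j hj]
      rfl
    · push Not at hj
      right
      refine ⟨((R T).filter (fun w => w < ((x j : ℕ) : ℚ))).card, ?_, ?_⟩
      · refine lt_of_lt_of_le (rk_lt ?_) (hRc T)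
        exact hR T j _ (hy2 T j hj)
      · simp only [hy2 T j hj]
        rfl
  have hnn : ∀ T j q, (fun j => Sum.map id (rk (R T)) (y T j)) j = Sum.inr q → 0 ≤ q := by
    intro T j q hq
    by_cases hj : x j < T
    · simp only [hy1 T j hj] at hq
      simp at hq
    · push Not at hj
      simp only [hy2 T j hj, Sum.map_inr, Sum.inr.injEq] at hq
      rw [← hq]
      exact Nat.cast_nonneg _
  have hstep : ∀ T, b < T → QQ p c v (y (T + 1)) σ (h b) → QQ p c v (y T) σ (h b) := by
    intro T hbT hQ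
    by_cases hex : ∃ j, x j = T
    · rw [← QQ_pat (hR T) (rk_strictMono (R T))]
      have h1 := ((hnx (s T)).2 _ (hnorm T) σ).2 (hnn T) (h b) (hmem T b hbT)
      rw [h1]
      obtain ⟨j₀, hj₀⟩ := hex
      have hT0 : rk (R T) ((T : ℕ) : ℚ) = 0 := by
        unfold rk
        have : (R T).filter (fun w => w < ((T : ℕ) : ℚ)) = ∅ := by
          rw [Finset.filter_eq_empty_iff]
          intro w hw
          obtain ⟨j, hj, rfl⟩ := Finset.mem_image.1 hw
          rw [not_lt]
          exact_mod_cast (Finset.mem_filter.1 hj).2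
        rw [this]
        simp
      have hTR : ((T : ℕ) : ℚ) ∈ R T := Finset.mem_image.2 ⟨j₀, Finset.mem_filter.2
        ⟨Finset.mem_univ _, hj₀.ge⟩, by rw [hj₀]⟩
      have h2 : (fun j => sbx 0 (nx (s T)) (Sum.map id (rk (R T)) (y T j))) =
          (fun j => Sum.map id (rk (R T)) (y (T + 1) j)) := by
        funext j
        rcases lt_trichotomy (x j) T with h3 | h3 | h3
        · rw [hy1 T j h3, hy1 (T + 1) j (by omega)]
          rfl
        · rw [hy2 T j h3.ge, hy1 (T + 1) j (by omega), h3]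
          simp only [Sum.map_inr, hT0, sbx, Sum.elim_inr, if_true, Sum.map_inl, id]
          rfl
        · rw [hy2 T j h3.le, hy2 (T + 1) j h3]
          have h4 : rk (R T) ((x j : ℕ) : ℚ) ≠ 0 := by
            have h5 := rk_strictMono (R T) (Finset.mem_coe.2 hTR)
              (Finset.mem_coe.2 (hR T j _ (hy2 T j h3.le))) (by exact_mod_cast h3)
            rw [hT0] at h5
            exact h5.ne'
          simp [sbx, h4]
      rw [h2]
      have h6 : ∀ j q, y (T + 1) j = Sum.inr q → q ∈ R T := by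
        intro j q hq
        by_cases hj : x j < T + 1
        · rw [hy1 _ j hj] at hq; simp at hq
        · push Not at hj
          rw [hy2 _ j hj, Sum.inr.injEq] at hq
          exact Finset.mem_image.2 ⟨j, Finset.mem_filter.2 ⟨Finset.mem_univ _, by omega⟩, hq⟩
      rw [QQ_pat h6 (rk_strictMono (R T))]
      exact hQ
    · push Not at hex
      have : y (T + 1) = y T := by
        funext j
        rcases lt_or_gt_of_ne (hex j) with h3 | h3
        · rw [hy1 T j h3, hy1 (T + 1) j (by omega)]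
        · rw [hy2 T j h3.le, hy2 (T + 1) j h3]
      rwa [this] at hQ
  have hdown : ∀ k, QQ p c v (y (b + 1 + k)) σ (h b) → QQ p c v (y (b + 1)) σ (h b) := by
    intro k
    induction k with
    | zero => exact fun h => h
    | succ k ih =>
      intro hQ
      exact ih (hstep (b + 1 + k) (by omega) hQ)
  obtain ⟨T, hT⟩ : ∃ T, ∀ j, x j < T := by
    refine ⟨(Finset.univ.sup x) + 1, fun j => ?_⟩
    exact Nat.lt_succ_of_le (Finset.le_sup (f := x) (Finset.mem_univ j))
  have htop : QQ p c v (y (b + 1 + T)) σ (h b) := by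
    refine Filter.Eventually.of_forall fun ω => ?_
    have : (fun j => v (evx ω (y (b + 1 + T) j)) (σ j)) = fun j => v (h (x j)) (σ j) := by
      funext j
      rw [hy1 _ j (by have := hT j; omega)]
      rfl
    rw [this]
    exact hx
  have hbot := hdown T htop
  have hyb : y (b + 1) = y b := by
    funext j
    rcases lt_or_gt_of_ne (hcon j) with h3 | h3
    · rw [hy1 b j h3, hy1 (b + 1) j (by omega)]
    · rw [hy2 b j h3.le, hy2 (b + 1) j h3]
  rw [hyb, ← QQ_pat (hR b) (rk_strictMono (R b))] at hbot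
  exact ((hnx (s b)).2 _ (hnorm b) σ).1 hbot

end Pool.Agent.H566V
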