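import Pool.Agent.H566V.Closed

/-!
Reduction of `F_σ` classes to closed classes.
-/

set_option autoImplicit false

namespace Pool.Agent.H566V

open Set Filter Topology

variable {r : ℕ} {Col : Type}

/-- lifting of a permutation -/
def lift (m : ℕ) (e : Equiv.Perm ℕ) : Equiv.Perm ℕ where
  toFun n := if n < m then n else m + e (n - m)
  invFun n := if n < m then n else m + e.symm (n - m)
  left_inv n := by
    by_cases h : n < m
    · simp [h]
    · have h1 : ¬ m + e (n - m) < m := by omega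
      simp only [h, if_false, h1]
      have h2 : m + e (n - m) - m = e (n - m) := by omega
      rw [h2, Equiv.symm_apply_apply]
      omega
  right_inv n := by
    by_cases h : n < m
    · simp [h]
    · have h1 : ¬ m + e.symm (n - m) < m := by omega
      simp only [h, if_false, h1]
      have h2 : m + e.symm (n - m) - m = e.symm (n - m) := by omega
      rw [h2, Equiv.apply_symm_apply]
      omega

theorem lift_lt {m : ℕ} (e : Equiv.Perm ℕ) {n : ℕ} (h : n < m) : lift m e n = n := by
  show (if n < m then n else m + e (n - m)) = n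
  rw [if_pos h]

theorem lift_add (m : ℕ) (e : Equiv.Perm ℕ) (n : ℕ) : lift m e (m + n) = m + e n := by
  show (if m + n < m then m + n else m + e (m + n - m)) = m + e n
  rw [if_neg (by omega)]
  congr 2
  omega

theorem exists_lower {m : ℕ} {ρ : Equiv.Perm ℕ} (hρ : ∀ i < m, ρ i = i) :
    ∃ e : Equiv.Perm ℕ, ∀ n, ρ (m + n) = m + e n := by
  have h1 : ∀ (ρ : Equiv.Perm ℕ), (∀ i < m, ρ i = i) → ∀ n, m ≤ ρ (m + n) := by
    intro ρ hρ n
    by_contra h
    push Not at h
    have := ρ.injective (hρ _ h)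
    omega
  have hρ' : ∀ i < m, ρ.symm i = i := fun i hi => by
    rw [Equiv.symm_apply_eq, hρ i hi]
  refine ⟨⟨fun n => ρ (m + n) - m, fun n => ρ.symm (m + n) - m, fun n => ?_, fun n => ?_⟩,
    fun n => ?_⟩
  · have h2 := h1 ρ hρ n
    show ρ.symm (m + (ρ (m + n) - m)) - m = n
    have : m + (ρ (m + n) - m) = ρ (m + n) := by omega
    rw [this, Equiv.symm_apply_apply]
    omega
  · have h2 := h1 ρ.symm hρ' n
    show ρ (m + (ρ.symm (m + n) - m)) - m = n
    have : m + (ρ.symm (m + n) - m) = ρ.symm (m + n) := by omega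
    rw [this, Equiv.apply_symm_apply]
    omega
  · have h2 := h1 ρ hρ n
    show ρ (m + n) = m + (ρ (m + n) - m)
    omega

/-- tuples made of parameters and of entries of `t` -/
def par (m : ℕ) (t : Fin r → ℕ) (σ : Fin r → Fin m ⊕ Fin r) : Fin r → ℕ :=
  fun j => Sum.elim (fun i : Fin m => (i : ℕ)) (fun l : Fin r => m + t l) (σ j)

/-- adding parameters to the colours -/
def hat (m : ℕ) (x : Str r Col ℕ) : Str r ((Fin r → Fin m ⊕ Fin r) → Col) ℕ :=
  fun t σ => x (par m t σ)

/-- a pattern of parameters -/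
def patt (m : ℕ) (s : Fin r → ℕ) : Fin r → Fin m ⊕ Fin r :=
  fun j => if h : s j < m then Sum.inl ⟨s j, h⟩ else Sum.inr j

theorem par_patt (m : ℕ) (s : Fin r → ℕ) : par m (fun j => s j - m) (patt m s) = s := by
  funext j
  unfold par patt
  split_ifs with h
  · rfl
  · show m + (s j - m) = s j
    omega

/-- recovering the structure -/
def unhat (m : ℕ) (y : Str r ((Fin r → Fin m ⊕ Fin r) → Col) ℕ) : Str r Col ℕ :=
  fun s => y (fun j => s j - m) (patt m s)

theorem unhat_hat (m : ℕ) (x : Str r Col ℕ) : unhat m (hat m x) = x := by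
  funext s
  show x (par m (fun j => s j - m) (patt m s)) = x s
  rw [par_patt]

theorem par_lift (m : ℕ) (e : Equiv.Perm ℕ) (t : Fin r → ℕ) (σ : Fin r → Fin m ⊕ Fin r) :
    lift m e ∘ par m t σ = par m (e ∘ t) σ := by
  funext j
  simp only [Function.comp, par]
  rcases σ j with i | l
  · simp only [Sum.elim_inl]
    exact lift_lt e i.2
  · simp only [Sum.elim_inr]
    exact lift_add m e (t l)

theorem hat_comp (m : ℕ) (x : Str r Col ℕ) (e : Equiv.Perm ℕ) :
    (fun t : Fin r → ℕ => hat m x (e ∘ t)) = hat m (fun t => x (lift m e ∘ t)) := by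
  funext t σ
  show x (par m (e ∘ t) σ) = x (lift m e ∘ par m t σ)
  rw [par_lift]

theorem isom_of_hat {m : ℕ} {x x' : Str r Col ℕ} (h : Isom (hat m x) (hat m x')) :
    Isom x x' := by
  obtain ⟨e, he⟩ := h
  refine ⟨lift m e, fun s => ?_⟩
  have h1 := congrFun (he (fun j => s j - m)) (patt m s)
  have h2 : hat m x (fun j => s j - m) (patt m s) = x s := by
    show x (par m (fun j => s j - m) (patt m s)) = x s
    rw [par_patt]
  rw [h2] at h1
  rw [← h1]
  show x' (lift m e ∘ s) = x' (par m (e ∘ (fun j => s j - m)) (patt m s))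
  rw [← par_lift, par_patt]

theorem isom_hat {m : ℕ} {x x' : Str r Col ℕ} {ρ : Equiv.Perm ℕ} (hρ : ∀ i < m, ρ i = i)
    (h : ∀ t, x' (ρ ∘ t) = x t) : Isom (hat m x) (hat m x') := by
  obtain ⟨e, he⟩ := exists_lower hρ
  refine ⟨e, fun t => ?_⟩
  funext σ
  show x' (par m (e ∘ t) σ) = x (par m t σ)
  rw [← h]
  congr 1
  funext j
  simp only [Function.comp, par]
  rcases σ j with i | l
  · simp only [Sum.elim_inl]
    exact (hρ i i.2).symm
  · simp only [Sum.elim_inr]
    exact (he (t l)).symm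

/-- the largest subclass invariant under the stabiliser of `0, …, m - 1` -/
def EE' (F : Set (Str r Col ℕ)) (m : ℕ) : Set (Str r Col ℕ) :=
  {y | ∀ ρ : Equiv.Perm ℕ, (∀ i < m, ρ i = i) → (fun t => y (ρ ∘ t)) ∈ F}

theorem EE'_sub {F : Set (Str r Col ℕ)} {m : ℕ} : EE' F m ⊆ F := by
  intro y hy
  exact hy (Equiv.refl ℕ) (fun i _ => rfl)

theorem EE'_inv {F : Set (Str r Col ℕ)} {m : ℕ} {y : Str r Col ℕ} (hy : y ∈ EE' F m)
    {ρ : Equiv.Perm ℕ} (hρ : ∀ i < m, ρ i = i) : (fun t => y (ρ ∘ t)) ∈ EE' F m := by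
  intro ρ' hρ'
  exact hy (ρ'.trans ρ) (fun i hi => by
    rw [Equiv.trans_apply, hρ' i hi, hρ i hi])

section

variable [TopologicalSpace Col]

theorem EE'_closed {F : Set (Str r Col ℕ)} (hF : IsClosed F) (m : ℕ) : IsClosed (EE' F m) := by
  have : EE' F m = ⋂ ρ : Equiv.Perm ℕ, ⋂ _ : ∀ i < m, ρ i = i,
      (fun y : Str r Col ℕ => (fun t : Fin r → ℕ => y (ρ ∘ t))) ⁻¹' F := by
    ext y
    simp [EE']
  rw [this]
  refine isClosed_iInter fun ρ => isClosed_iInter fun _ => hF.preimage ?_
  exact continuous_pi fun t => continuous_apply (ρ ∘ t)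

theorem hat_closed [T2Space Col] {E : Set (Str r Col ℕ)} (hE : IsClosed E) (m : ℕ) :
    IsClosed (hat m '' E) := by
  have h1 : Continuous (hat (r := r) (Col := Col) m) :=
    continuous_pi fun t => continuous_pi fun σ => continuous_apply (par m t σ)
  have h2 : Continuous (unhat (r := r) (Col := Col) m) :=
    continuous_pi fun s => (continuous_apply (patt m s)).comp
      (continuous_apply (fun j => s j - m))
  have : hat m '' E = {y | hat m (unhat m y) = y} ∩ unhat m ⁻¹' E := by
    ext y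
    constructor
    · rintro ⟨x, hx, rfl⟩
      exact ⟨by show hat m (unhat m (hat m x)) = hat m x; rw [unhat_hat],
        by show unhat m (hat m x) ∈ E; rw [unhat_hat]; exact hx⟩
    · rintro ⟨h3, h4⟩
      exact ⟨unhat m y, h4, h3⟩
  rw [this]
  exact (isClosed_eq (h1.comp h2) continuous_id).inter (hE.preimage h2)

/-- classes invariant under a stabiliser -/
theorem small_or_big_EE' [PolishSpace Col] {F : Set (Str r Col ℕ)} (hF : IsClosed F) (m : ℕ) :
    Small (EE' F m) ∨ Big (EE' F m) := by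
  classical
  have hcl := hat_closed (EE'_closed hF m) m
  have hinv : PInv (hat m '' EE' F m) := by
    rintro _ ⟨x, hx, rfl⟩ σ
    rw [hat_comp]
    exact ⟨_, EE'_inv hx (fun i hi => lift_lt σ hi), rfl⟩
  rcases closed_class hcl hinv with ⟨C, hC, hCx⟩ | ⟨g, hg1, hg2⟩
  · left
    let φ : Str r ((Fin r → Fin m ⊕ Fin r) → Col) ℕ → Set (Str r Col ℕ) := fun y =>
      if h : ∃ x ∈ EE' F m, Isom y (hat m x) then {h.choose} else ∅
    have hφ : ∀ y, (φ y).Countable := by
      intro y
      simp only [φ]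
      split_ifs with h
      · exact Set.countable_singleton _
      · exact Set.countable_empty
    refine ⟨⋃ y ∈ C, φ y, hC.biUnion (fun y _ => hφ y), fun x hx => ?_⟩
    obtain ⟨y, hy, hyx⟩ := hCx (hat m x) ⟨x, hx, rfl⟩
    have hex : ∃ x ∈ EE' F m, Isom y (hat m x) := ⟨x, hx, hyx⟩
    refine ⟨hex.choose, ?_, isom_of_hat (hex.choose_spec.2.symm.trans hyx)⟩
    rw [Set.mem_iUnion₂]
    refine ⟨y, hy, ?_⟩
    simp only [φ, dif_pos hex]
    rfl
  · right
    choose x hx1 hx2 using hg1
    obtain ⟨f, hf⟩ := exists_inj_of_countable_classes (fun a b : Str r Col ℕ => Isom a b)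
      ⟨fun a => Isom.refl a, fun h => h.symm, fun h h' => h.trans h'⟩ x (fun A => by
        refine Set.MapsTo.countable_of_injOn (f := fun A' => if h : Isom (x A) (x A') then
          (fun i : Fin m => h.choose.symm i) else fun _ => 0) (t := Set.univ)
          (fun _ _ => Set.mem_univ _) ?_ Set.countable_univ
        intro A' hA' A'' hA'' hAA
        have hA' : Isom (x A) (x A') := hA'
        have hA'' : Isom (x A) (x A'') := hA''
        simp only [dif_pos hA', dif_pos hA''] at hAA
        apply hg2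
        rw [← hx2, ← hx2]
        refine isom_hat (ρ := hA'.choose.symm.trans hA''.choose) (fun i hi => ?_) (fun t => ?_)
        · have h1 := congrFun hAA ⟨i, hi⟩
          simp only at h1
          rw [Equiv.trans_apply, h1, Equiv.apply_symm_apply]
        · have h1 := hA''.choose_spec (hA'.choose.symm ∘ t)
          have h2 := hA'.choose_spec (hA'.choose.symm ∘ t)
          have h3 : hA'.choose ∘ (hA'.choose.symm ∘ t) = t := by funext j; simp
          rw [h3] at h2
          rw [h2, ← h1]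
          rfl)
    exact ⟨fun A => x (f A), fun A => hx1 _, hf⟩

/-- a Baire category argument -/
theorem exists_EE' {F : ℕ → Set (Str r Col ℕ)} (hF : ∀ n, IsClosed (F n)) {x : Str r Col ℕ}
    (hx : ∀ σ : Equiv.Perm ℕ, ∃ n, (fun t => x (σ ∘ t)) ∈ F n) :
    ∃ n m, ∃ π : Equiv.Perm ℕ, (fun t => x (π ∘ t)) ∈ EE' (F n) m := by
  classical
  by_contra hcon
  push Not at hcon
  have hstep : ∀ (n : ℕ) (s : Equiv.Perm ℕ × ℕ), ∃ s' : Equiv.Perm ℕ × ℕ, s.2 ≤ s'.2 ∧
      (∀ i < s.2, s'.1 i = s.1 i) ∧ n < s'.2 ∧ s'.1.symm n < s'.2 ∧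
      ∀ τ : Equiv.Perm ℕ, (∀ i < s'.2, τ i = s'.1 i) → (fun t => x (τ ∘ t)) ∉ F n := by
    intro n s
    have h1 := hcon n s.2 s.1
    unfold EE' at h1
    simp only [Set.mem_ofPred_eq] at h1
    push Not at h1
    obtain ⟨ρ, hρ, hρ2⟩ := h1
    set π' : Equiv.Perm ℕ := ρ.trans s.1 with hπ'
    have h2 : (fun t : Fin r → ℕ => x (π' ∘ t)) ∈ (F n)ᶜ := hρ2
    obtain ⟨I, u, hu1, hu2⟩ := isOpen_pi_iff.1 (hF n).isOpen_compl _ h2
    set M : ℕ := I.sup (fun t => Finset.univ.sup t) with hM
    refine ⟨(π', max (max s.2 (M + 1)) (max (n + 1) (π'.symm n + 1))), ?_, ?_, ?_, ?_, ?_⟩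
    · exact (le_max_left _ _).trans (le_max_left _ _)
    · intro i hi
      show s.1 (ρ i) = s.1 i
      rw [hρ i hi]
    · exact lt_of_lt_of_le (Nat.lt_succ_self n) ((le_max_left _ _).trans (le_max_right _ _))
    · exact lt_of_lt_of_le (Nat.lt_succ_self _) ((le_max_right _ _).trans (le_max_right _ _))
    · intro τ hτ
      apply hu2
      intro t ht
      have h3 : τ ∘ t = π' ∘ t := by
        funext j
        apply hτ
        have h4 : t j ≤ M := by
          refine (Finset.le_sup (f := t) (Finset.mem_univ j)).trans ?_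
          exact Finset.le_sup (f := fun t : Fin r → ℕ => Finset.univ.sup t) ht
        exact lt_of_lt_of_le (Nat.lt_succ_of_le h4) ((le_max_right _ _).trans (le_max_left _ _))
      show x (τ ∘ t) ∈ u t
      rw [h3]
      exact (hu1 t ht).2
  choose nxt h1 h2 h3 h4 h5 using hstep
  obtain ⟨s, hs0, hss⟩ : ∃ s : ℕ → Equiv.Perm ℕ × ℕ, s 0 = (Equiv.refl ℕ, 0) ∧
      ∀ n, s (n + 1) = nxt n (s n) :=
    ⟨fun n => Nat.rec (Equiv.refl ℕ, 0) (fun n s => nxt n s) n, rfl, fun _ => rfl⟩
  have hmono : ∀ n k, n ≤ k → (s n).2 ≤ (s k).2 := by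
    intro n k hnk
    induction k, hnk using Nat.le_induction with
    | base => exact le_rfl
    | succ k _ ih => rw [hss]; exact ih.trans (h1 _ _)
  have hagree : ∀ n k, n ≤ k → ∀ i < (s n).2, (s k).1 i = (s n).1 i := by
    intro n k hnk
    induction k, hnk using Nat.le_induction with
    | base => intro i _; rfl
    | succ k hk ih =>
      intro i hi
      rw [hss, h2 k (s k) i (lt_of_lt_of_le hi (hmono n k hk)), ih i hi]
  have hlt : ∀ n, n < (s (n + 1)).2 := fun n => by rw [hss]; exact h3 _ _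
  have hinv : ∀ n, (s (n + 1)).1.symm n < (s (n + 1)).2 := fun n => by rw [hss]; exact h4 _ _
  let τ : ℕ → ℕ := fun i => (s (i + 1)).1 i
  have hτ : ∀ n i, i < (s n).2 → τ i = (s n).1 i := by
    intro n i hi
    show (s (i + 1)).1 i = (s n).1 i
    rcases le_total n (i + 1) with h | h
    · exact hagree n (i + 1) h i hi
    · exact (hagree (i + 1) n h i (hlt i)).symm
  have hbij : Function.Bijective τ := by
    constructor
    · intro i j hij
      have e1 := hτ (max i j + 1) i (lt_of_lt_of_le (lt_of_le_of_lt (le_max_left i j)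
        (hlt (max i j))) le_rfl)
      have e2 := hτ (max i j + 1) j (lt_of_lt_of_le (lt_of_le_of_lt (le_max_right i j)
        (hlt (max i j))) le_rfl)
      rw [e1, e2] at hij
      exact (s (max i j + 1)).1.injective hij
    · intro n
      refine ⟨(s (n + 1)).1.symm n, ?_⟩
      rw [hτ (n + 1) _ (hinv n), Equiv.apply_symm_apply]
  obtain ⟨n, hn⟩ := hx (Equiv.ofBijective τ hbij)
  refine h5 n (s n) (Equiv.ofBijective τ hbij) (fun i hi => ?_) hn
  rw [← hss] at hi ⊢
  exact hτ (n + 1) i hi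

/-- The theorem for `F_σ` classes. -/
theorem fsigma_class [PolishSpace Col] {B : Set (Str r Col ℕ)} {F : ℕ → Set (Str r Col ℕ)}
    (hF : ∀ n, IsClosed (F n)) (hBF : B = ⋃ n, F n) (hB : PInv B) : Small B ∨ Big B := by
  classical
  by_cases hBig : Big B
  · exact Or.inr hBig
  left
  have hsmall : ∀ n m, Small (EE' (F n) m) := by
    intro n m
    rcases small_or_big_EE' (hF n) m with h | ⟨g, hg1, hg2⟩
    · exact h
    · exfalso
      apply hBig
      refine ⟨g, fun A => ?_, hg2⟩
      rw [hBF]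
      exact Set.mem_iUnion.2 ⟨n, EE'_sub (hg1 A)⟩
  choose C hC1 hC2 using hsmall
  refine ⟨⋃ n, ⋃ m, C n m, Set.countable_iUnion fun n => Set.countable_iUnion fun m => hC1 n m,
    fun x hx => ?_⟩
  obtain ⟨n, m, π, hπ⟩ := exists_EE' hF (x := x) (fun σ => by
    have := hB x hx σ
    rw [hBF] at this
    exact Set.mem_iUnion.1 this)
  obtain ⟨y, hy1, hy2⟩ := hC2 n m _ hπ
  refine ⟨y, Set.mem_iUnion.2 ⟨n, Set.mem_iUnion.2 ⟨m, hy1⟩⟩, hy2.trans ?_⟩
  exact ⟨π, fun t => rfl⟩

end

end Pool.Agent.H566V
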