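import Pool.Agent.H566V.Types2

/-!
Exchanging a tuple of elements of the structure with a generic row.
-/

set_option autoImplicit false

namespace Pool.Agent.H566V

open Set Filter Topology

variable {r : ℕ} {K V G W' : Type} {p : Ultrafilter ℕ}

open Classical in
/-- exchange the values at `n` of the columns in `C` with the row `0` -/
noncomputable def exn (C : Finset (Gm p V)) (n : ℕ) : E p V → E p V :=
  Sum.elim (fun a => if h : ∃ g ∈ C, g.fn n = a then Sum.inr (0, h.choose) else Sum.inl a)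
    (fun x => if x.1 = 0 ∧ x.2 ∈ C then Sum.inl (x.2.fn n) else Sum.inr x)

/-- the values of different columns are different -/
def InjAt (C : Finset (Gm p V)) (n : ℕ) : Prop := ∀ g ∈ C, ∀ g' ∈ C, g.fn n = g'.fn n → g = g'

theorem exn_inl {C : Finset (Gm p V)} {n : ℕ} (hC : InjAt C n) {g : Gm p V} (hg : g ∈ C) :
    exn C n (Sum.inl (g.fn n)) = Sum.inr (0, g) := by
  have h : ∃ g' ∈ C, g'.fn n = g.fn n := ⟨g, hg, rfl⟩
  simp only [exn, Sum.elim_inl, dif_pos h]
  rw [hC _ h.choose_spec.1 g hg h.choose_spec.2]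

theorem exn_inl_of {C : Finset (Gm p V)} {n : ℕ} {a : V} (h : ∀ g ∈ C, g.fn n ≠ a) :
    exn C n (Sum.inl a) = Sum.inl a := by
  have h' : ¬ ∃ g' ∈ C, g'.fn n = a := fun ⟨g, hg, hga⟩ => h g hg hga
  simp only [exn, Sum.elim_inl, dif_neg h']

theorem exn_zero {C : Finset (Gm p V)} {n : ℕ} {g : Gm p V} (hg : g ∈ C) :
    exn C n (Sum.inr (0, g)) = Sum.inl (g.fn n) := by
  simp [exn, hg]

theorem exn_inr {C : Finset (Gm p V)} {n : ℕ} {x : ℚ} {g : Gm p V} (h : ¬ (x = 0 ∧ g ∈ C)) :
    exn C n (Sum.inr (x, g)) = Sum.inr (x, g) := by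
  simp only [exn, Sum.elim_inr, if_neg h]

theorem ev_injAt (C : Finset (Gm p V)) : ∀ᶠ n in (p : Filter ℕ), InjAt C n := by
  unfold InjAt
  rw [Filter.eventually_all_finset]
  intro g _
  rw [Filter.eventually_all_finset]
  intro g' _
  by_cases h : g = g'
  · exact Filter.Eventually.of_forall fun _ _ => h
  · filter_upwards [Gm.fn_ne_fn h] with n hn h'
    exact absurd h' hn

theorem ev_avoid (C : Finset (Gm p V)) (F : Finset V) :
    ∀ᶠ n in (p : Filter ℕ), ∀ g ∈ C, g.fn n ∉ F := by
  rw [Filter.eventually_all_finset]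
  intro g _
  have : ∀ᶠ n in (p : Filter ℕ), ∀ a ∈ F, g.fn n ≠ a := by
    rw [Filter.eventually_all_finset]
    intro a _
    exact g.fn_ne a
  filter_upwards [this] with n hn hmem
  exact hn _ hmem rfl

theorem sub_el (x : ℚ) (φ : ℕ → V) :
    ∀ᶠ n in (p : Filter ℕ), sub x n (el x φ : E p V) = Sum.inl (φ n) := by
  rcases el_cases (p := p) φ with ⟨a, h1, h2⟩ | ⟨g, h1, h2⟩
  · filter_upwards [h2] with n hn
    rw [h1, hn]
    rfl
  · filter_upwards [h2] with n hn
    rw [h1, sub_inr_self, hn]

/-- normalisation of the rows -/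
theorem exists_normal (R : Finset ℚ) : ∃ f : ℚ → ℚ, f 0 = 0 ∧ Set.InjOn f (insert 0 (R : Set ℚ)) ∧
    ∀ u ∈ R, ∃ i : ℕ, i ≤ R.card ∧ f u = i := by
  classical
  let f : ℚ → ℚ := fun u => if u = 0 then 0 else
    (((R.erase 0).filter (fun v => v ≤ u)).card : ℚ)
  have h0 : f 0 = 0 := by simp [f]
  have hpos : ∀ u ∈ R, u ≠ 0 → 0 < ((R.erase 0).filter (fun v => v ≤ u)).card := by
    intro u hu hu0
    rw [Finset.card_pos]
    exact ⟨u, Finset.mem_filter.2 ⟨Finset.mem_erase.2 ⟨hu0, hu⟩, le_rfl⟩⟩
  have hmono : ∀ u ∈ R, ∀ v ∈ R, u ≠ 0 → v ≠ 0 → u < v →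
      ((R.erase 0).filter (fun w => w ≤ u)).card < ((R.erase 0).filter (fun w => w ≤ v)).card := by
    intro u hu v hv hu0 hv0 huv
    apply Finset.card_lt_card
    rw [Finset.ssubset_iff_of_subset]
    · exact ⟨v, Finset.mem_filter.2 ⟨Finset.mem_erase.2 ⟨hv0, hv⟩, le_rfl⟩, fun h =>
        absurd (Finset.mem_filter.1 h).2 (not_le.2 huv)⟩
    · intro w hw
      rw [Finset.mem_filter] at hw ⊢
      exact ⟨hw.1, hw.2.trans huv.le⟩
  refine ⟨f, h0, ?_, fun u hu => ?_⟩
  · have hf : ∀ u, u ≠ 0 → f u = (((R.erase 0).filter (fun v => v ≤ u)).card : ℚ) :=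
      fun u hu => by simp [f, hu]
    intro u hu v hv huv
    by_cases hu0 : u = 0
    · by_cases hv0 : v = 0
      · rw [hu0, hv0]
      · rw [hu0, h0, hf v hv0] at huv
        have := hpos v (hv.resolve_left hv0) hv0
        have h3 : (((R.erase 0).filter (fun w => w ≤ v)).card : ℚ) = ((0 : ℕ) : ℚ) := by
          rw [← huv]; simp
        have h4 : ((R.erase 0).filter (fun w => w ≤ v)).card = 0 := by exact_mod_cast h3
        omega
    · by_cases hv0 : v = 0
      · rw [hv0, h0, hf u hu0] at huv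
        have := hpos u (hu.resolve_left hu0) hu0
        have h3 : (((R.erase 0).filter (fun w => w ≤ u)).card : ℚ) = ((0 : ℕ) : ℚ) := by
          rw [huv]; simp
        have h4 : ((R.erase 0).filter (fun w => w ≤ u)).card = 0 := by exact_mod_cast h3
        omega
      · rw [hf u hu0, hf v hv0] at huv
        have h3 : ((R.erase 0).filter (fun w => w ≤ u)).card =
          ((R.erase 0).filter (fun w => w ≤ v)).card := by exact_mod_cast huv
        rcases lt_trichotomy u v with h | h | h
        · have := hmono u (hu.resolve_left hu0) v (hv.resolve_left hv0) hu0 hv0 h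
          omega
        · exact h
        · have := hmono v (hv.resolve_left hv0) u (hu.resolve_left hu0) hv0 hu0 h
          omega
  · by_cases hu0 : u = 0
    · exact ⟨0, Nat.zero_le _, by rw [hu0, h0]; simp⟩
    · refine ⟨((R.erase 0).filter (fun v => v ≤ u)).card,
        (Finset.card_filter_le _ _).trans (Finset.card_erase_le), ?_⟩
      simp [f, hu0]

theorem card_rows_le (t : Fin r → V ⊕ (ℚ × G)) : (rows t).card ≤ r := by
  classical
  unfold rows
  refine (Finset.card_eraseNone_le _).trans (Finset.card_image_le.trans ?_)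
  simp

/-- Theorem: exchanging with a generic row. -/
theorem ev_exn_aut [Finite K] {c : Str r K V} (hc : FullSym (ext (p := p) c))
    (C : Finset (Gm p V)) (hC : Sep (ext (p := p) c) Set.univ (C : Set (Gm p V))) :
    ∀ᶠ n in (p : Filter ℕ), AutOn (ext (p := p) c) (EZ (C : Set (Gm p V))) (exn C n) := by
  classical
  by_contra hcon
  have h1 : ∀ᶠ n in (p : Filter ℕ),
      ¬ AutOn (ext (p := p) c) (EZ (C : Set (Gm p V))) (exn C n) :=
    (Ultrafilter.eventually_not (f := p)
      (p := fun n => AutOn (ext (p := p) c) (EZ (C : Set (Gm p V))) (exn C n))).2 hcon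
  -- witnesses
  have h2 : ∀ n, ∃ t : Fin r → E p V,
      ¬ AutOn (ext (p := p) c) (EZ (C : Set (Gm p V))) (exn C n) →
      (∀ j, t j ∈ EZ (C : Set (Gm p V))) ∧ ext c (exn C n ∘ t) ≠ ext c t ∧
      ∀ x ∈ rows t, ∃ i : ℕ, i < r + 1 ∧ x = i := by
    intro n
    by_cases hn : AutOn (ext (p := p) c) (EZ (C : Set (Gm p V))) (exn C n)
    · by_cases hV : Nonempty (Fin r → E p V)
      · exact ⟨Classical.choice hV, fun h => absurd hn h⟩
      · exfalso
        obtain ⟨n, hn⟩ := h1.exists
        apply hn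
        intro t _
        exact absurd ⟨t⟩ hV
    · have hn' := hn
      unfold AutOn at hn'
      push Not at hn'
      obtain ⟨t, ht, hne⟩ := hn'
      obtain ⟨f, hf0, hfi, hfr⟩ := exists_normal (rows t)
      refine ⟨mv f ∘ t, fun _ => ⟨fun j => ?_, ?_, ?_⟩⟩
      · simp only [Function.comp]
        rcases hj : t j with a | ⟨x, g⟩
        · exact inl_mem_EZ
        · rw [mv_inr, inr_mem_EZ]
          exact ht j x g hj
      · have e1 : ext c (mv f ∘ t) = ext c t := hc t f (hfi.mono (fun x hx => Or.inr hx))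
        have hrows : (rows (exn C n ∘ t) : Set ℚ) ⊆ insert 0 (rows t : Set ℚ) := by
          intro x hx
          obtain ⟨j, hj⟩ := mem_rows.1 hx
          simp only [Function.comp] at hj
          rcases hj' : t j with a | ⟨y, g⟩
          · rw [hj'] at hj
            by_cases ha : ∃ g ∈ C, g.fn n = a
            · simp only [exn, Sum.elim_inl, dif_pos ha, row_inr, Option.some.injEq] at hj
              exact Or.inl hj.symm
            · simp only [exn, Sum.elim_inl, dif_neg ha, row_inl] at hj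
              simp at hj
          · rw [hj'] at hj
            by_cases hy : y = 0 ∧ g ∈ C
            · simp only [exn, Sum.elim_inr, if_pos hy] at hj
              simp at hj
            · rw [exn_inr hy, row_inr, Option.some.injEq] at hj
              right
              exact Finset.mem_coe.2 (mem_rows.2 ⟨j, by rw [hj', ← hj]; rfl⟩)
        have e2 : ext c (mv f ∘ (exn C n ∘ t)) = ext c (exn C n ∘ t) := hc _ f (hfi.mono hrows)
        have e3 : mv f ∘ (exn C n ∘ t) = exn C n ∘ (mv f ∘ t) := by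
          funext j
          simp only [Function.comp]
          rcases hj' : t j with a | ⟨y, g⟩
          · by_cases ha : ∃ g ∈ C, g.fn n = a
            · simp only [exn, Sum.elim_inl, dif_pos ha, mv_inr, mv_inl, hf0]
            · simp only [exn, Sum.elim_inl, dif_neg ha, mv_inl]
          · by_cases hy : y = 0 ∧ g ∈ C
            · obtain ⟨rfl, hg⟩ := hy
              rw [exn_zero hg, mv_inr, hf0, exn_zero hg, mv_inl]
            · rw [exn_inr hy, mv_inr, exn_inr]
              rintro ⟨h3, h4⟩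
              apply hy
              refine ⟨?_, h4⟩
              apply hfi (Or.inr (Finset.mem_coe.2 (mem_rows.2 ⟨j, by rw [hj']; rfl⟩)))
                (Or.inl rfl)
              rw [h3, hf0]
        rw [← e3, e2, e1]
        exact hne
      · intro x hx
        rw [rows_mv, Finset.mem_image] at hx
        obtain ⟨u, hu, rfl⟩ := hx
        obtain ⟨i, hi, hfu⟩ := hfr u hu
        exact ⟨i, lt_of_le_of_lt (hi.trans (card_rows_le t)) (Nat.lt_succ_self r), hfu⟩
  choose t ht using h2
  -- patterns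
  let pat : ℕ → Fin r → Option (Fin (r + 1) × C) := fun n j =>
    if h : ∃ x : Fin (r + 1) × C, t n j = Sum.inr (((x.1 : ℕ) : ℚ), x.2.1) then some h.choose else none
  obtain ⟨π, hπ⟩ := ulim p pat
  have hgood : ∀ᶠ n in (p : Filter ℕ), ∀ j, (∀ x, π j = some x →
      t n j = Sum.inr (((x.1 : ℕ) : ℚ), x.2.1)) ∧ (π j = none → ∃ a, t n j = Sum.inl a) := by
    filter_upwards [hπ, h1] with n h3 h4 j
    obtain ⟨h5, -, h6⟩ := ht n h4
    constructor
    · intro x hx
      have h7 : pat n j = some x := by rw [h3, hx]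
      simp only [pat] at h7
      split_ifs at h7 with h8
      rw [← Option.some.inj h7]
      exact h8.choose_spec
    · intro hx
      have h7 : pat n j = none := by rw [h3, hx]
      simp only [pat] at h7
      split_ifs at h7 with h8
      rcases hj : t n j with a | ⟨y, g⟩
      · exact ⟨a, rfl⟩
      · exfalso
        apply h8
        have hgC : g ∈ C := Finset.mem_coe.1 (h5 j y g hj)
        obtain ⟨i, hi, hy⟩ := h6 y (mem_rows.2 ⟨j, by rw [hj]; rfl⟩)
        subst hy
        exact ⟨(⟨i, hi⟩, ⟨g, hgC⟩), hj⟩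
  -- the limit tuple
  obtain ⟨n₀, hn₀⟩ := hgood.exists
  have hval : ∀ j, ∃ φ : ℕ → V, π j = none → ∀ n, (∃ a, t n j = Sum.inl a) →
      t n j = Sum.inl (φ n) := by
    intro j
    by_cases hj : π j = none
    · obtain ⟨a₀, -⟩ := (hn₀ j).2 hj
      refine ⟨fun n => (t n j).elim id (fun _ => a₀), fun _ n ⟨a, ha⟩ => ?_⟩
      simp only [ha, Sum.elim_inl, id]
    · by_cases hV : Nonempty V
      · exact ⟨fun _ => Classical.choice hV, fun h => absurd h hj⟩
      · exfalso
        obtain ⟨x, hx⟩ := Option.ne_none_iff_exists'.1 hj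
        exact hV ⟨x.2.1.fn 0⟩
  choose φ hφ using hval
  let T : Fin r → E p V := fun j => match π j with
    | some x => Sum.inr (((x.1 : ℕ) : ℚ), x.2.1)
    | none => el (-1) (φ j)
  have hTs : ∀ j x, π j = some x → T j = Sum.inr (((x.1 : ℕ) : ℚ), x.2.1) := by
    intro j x hx
    simp only [T, hx]
  have hTn : ∀ j, π j = none → T j = el (-1) (φ j) := by
    intro j hx
    simp only [T, hx]
  have hneg : ∀ i : ℕ, ((i : ℕ) : ℚ) ≠ -1 := by
    intro i h
    have : (0 : ℚ) ≤ i := Nat.cast_nonneg i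
    rw [h] at this
    norm_num at this
  have hs1 : ∀ᶠ n in (p : Filter ℕ), sub (-1) n ∘ T = t n := by
    have h3 : ∀ᶠ n in (p : Filter ℕ), ∀ j, sub (-1) n (el (-1) (φ j) : E p V) = Sum.inl (φ j n) := by
      rw [Filter.eventually_all]
      intro j
      exact sub_el (-1) (φ j)
    filter_upwards [h3, hgood] with n h4 h5
    funext j
    simp only [Function.comp]
    rcases hj : π j with _ | x
    · rw [hTn j hj, h4 j, ← hφ j hj n ((h5 j).2 hj)]
    · rw [hTs j x hj, sub_inr_of_ne _ _ (hneg _), (h5 j).1 x hj]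
  have hs2 : ∀ᶠ n in (p : Filter ℕ), sub (-1) n ∘ (sw (C : Set (Gm p V)) (-1) 0 ∘ T) =
      exn C n ∘ t n := by
    have h3 : ∀ᶠ n in (p : Filter ℕ), ∀ j, π j = none →
        sub (-1) n (sw (C : Set (Gm p V)) (-1) 0 (el (-1) (φ j) : E p V)) =
          exn C n (Sum.inl (φ j n)) := by
      rw [Filter.eventually_all]
      intro j
      rcases el_cases (p := p) (φ j) with ⟨a, h4, h5⟩ | ⟨g, h4, h5⟩
      · filter_upwards [h5, ev_avoid C {a}] with n h6 h7 _
        rw [h4, h6, sw_inl, sub_inl, exn_inl_of]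
        intro g hg h8
        exact h7 g hg (by rw [h8]; simp)
      · by_cases hg : g ∈ C
        · filter_upwards [h5, ev_injAt C] with n h6 h7 _
          rw [h4, ← h6, sw_mem _ _ (Finset.mem_coe.2 hg), Equiv.swap_apply_left,
            exn_inl h7 hg, sub_inr_of_ne]
          norm_num
        · filter_upwards [h5, ev_injAt (insert g C)] with n h6 h7 _
          rw [h4, ← h6, sw_notMem _ _ (fun h => hg (Finset.mem_coe.1 h)), sub_inr_self, exn_inl_of]
          intro g' hg' h8
          have := h7 g' (Finset.mem_insert_of_mem hg') g (Finset.mem_insert_self _ _) h8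
          exact hg (this ▸ hg')
    filter_upwards [h3, hgood, ev_injAt C] with n h4 h5 h6
    funext j
    simp only [Function.comp]
    rcases hj : π j with _ | x
    · rw [hTn j hj, h4 j hj, ← hφ j hj n ((h5 j).2 hj)]
    · rw [hTs j x hj, (h5 j).1 x hj, sw_mem _ _ (Finset.mem_coe.2 x.2.2)]
      by_cases hi : ((x.1 : ℕ) : ℚ) = 0
      · rw [hi, Equiv.swap_apply_right, sub_inr_self, exn_zero x.2.2]
      · rw [Equiv.swap_apply_of_ne_of_ne (hneg _) hi, sub_inr_of_ne _ _ (hneg _), exn_inr]
        exact fun h => hi h.1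
  have h3 := hC (-1) 0 T (fun j x g _ => Set.mem_univ g)
  obtain ⟨n, h4, h5, h6, h7, h8⟩ := (hs1.and (hs2.and ((ext_sub hc T (-1)).and
    ((ext_sub hc (sw (C : Set (Gm p V)) (-1) 0 ∘ T) (-1)).and h1)))).exists
  obtain ⟨-, h9, -⟩ := ht n h8
  apply h9
  rw [← h5, h7, h3, ← h6, h4]

end Pool.Agent.H566V
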