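import Pool.Agent.H566V.Move

/-!
An isomorphism invariant of structures with named parameters: sizes of finite classes of tuples
which look alike at infinity.
-/

set_option autoImplicit false

namespace Pool.Agent.H566V

open Set Filter Topology

variable {r : ℕ} {K V W : Type}

/-- combine two partial tuples with parameters -/
def comb (E E' : Finset (Fin r)) (τ : Fin r → V) (u : {j // j ∈ E} → V) (z : Fin r → V) :
    Fin r → V := fun j => if h : j ∈ E then u ⟨j, h⟩ else if j ∈ E' then z j else τ j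

theorem comb_comp {E E' : Finset (Fin r)} (f : V → W) (τ : Fin r → V) (u : {j // j ∈ E} → V)
    (z : Fin r → V) : f ∘ comb E E' τ u z = comb E E' (f ∘ τ) (f ∘ u) (f ∘ z) := by
  funext j
  unfold comb
  simp only [Function.comp]
  split_ifs <;> rfl

/-- the relation being alike at infinity -/
def Eqv (c : Str r K V) (E E' : Finset (Fin r)) (τ : Fin r → V)
    (u u' : {j // j ∈ E} → V) : Prop :=
  ∃ S : Finset V, ∀ z : Fin r → V, (∀ j ∈ E', z j ∉ S) →
    c (comb E E' τ u z) = c (comb E E' τ u' z)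

/-- the class of a partial tuple -/
def cls (c : Str r K V) (E E' : Finset (Fin r)) (τ : Fin r → V)
    (u : {j // j ∈ E} → V) : Set ({j // j ∈ E} → V) := {u' | Eqv c E E' τ u u'}

/-- the invariant -/
def inv (c : Str r K V) (E E' : Finset (Fin r)) (τ : Fin r → V) : Set ℕ :=
  {n | ∃ u : {j // j ∈ E} → V, (cls c E E' τ u).Finite ∧ (cls c E E' τ u).ncard = n}

theorem Eqv.symm {c : Str r K V} {E E' : Finset (Fin r)} {τ : Fin r → V}
    {u u' : {j // j ∈ E} → V} (h : Eqv c E E' τ u u') : Eqv c E E' τ u' u := by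
  obtain ⟨S, hS⟩ := h
  exact ⟨S, fun z hz => (hS z hz).symm⟩

theorem Eqv.refl (c : Str r K V) (E E' : Finset (Fin r)) (τ : Fin r → V)
    (u : {j // j ∈ E} → V) : Eqv c E E' τ u u := ⟨∅, fun _ _ => rfl⟩

theorem Eqv.trans {c : Str r K V} {E E' : Finset (Fin r)} {τ : Fin r → V}
    {u u' u'' : {j // j ∈ E} → V} (h : Eqv c E E' τ u u') (h' : Eqv c E E' τ u' u'') :
    Eqv c E E' τ u u'' := by
  classical
  obtain ⟨S, hS⟩ := h
  obtain ⟨S', hS'⟩ := h'
  refine ⟨S ∪ S', fun z hz => ?_⟩
  rw [hS z (fun j hj h => (hz j hj) (Finset.mem_union_left _ h)),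
    hS' z (fun j hj h => (hz j hj) (Finset.mem_union_right _ h))]

theorem cls_eq {c : Str r K V} {E E' : Finset (Fin r)} {τ : Fin r → V}
    {u u' : {j // j ∈ E} → V} (h : Eqv c E E' τ u u') :
    cls c E E' τ u' = cls c E E' τ u := by
  ext w
  exact ⟨fun hw => h.trans hw, fun hw => h.symm.trans hw⟩

theorem eqv_iso {c : Str r K V} {d : Str r K W} (e : V ≃ W) (he : ∀ t, d (e ∘ t) = c t)
    {E E' : Finset (Fin r)} {τ : Fin r → V} {u u' : {j // j ∈ E} → V} :
    Eqv d E E' (e ∘ τ) (e ∘ u) (e ∘ u') ↔ Eqv c E E' τ u u' := by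
  classical
  constructor
  · rintro ⟨S, hS⟩
    refine ⟨S.image e.symm, fun z hz => ?_⟩
    have := hS (e ∘ z) (fun j hj h => hz j hj (Finset.mem_image.2 ⟨e (z j), h, by simp⟩))
    rw [← comb_comp, ← comb_comp, he, he] at this
    exact this
  · rintro ⟨S, hS⟩
    refine ⟨S.image e, fun z hz => ?_⟩
    have := hS (e.symm ∘ z) (fun j hj h => hz j hj (Finset.mem_image.2 ⟨e.symm (z j), h, by simp⟩))
    rw [← he, ← he, comb_comp, comb_comp] at this
    have hz' : e ∘ (e.symm ∘ z) = z := by funext j; simp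
    rw [hz'] at this
    exact this

theorem inv_sub {c : Str r K V} {d : Str r K W} (e : V ≃ W) (he : ∀ t, d (e ∘ t) = c t)
    {E E' : Finset (Fin r)} {τ : Fin r → V} : inv c E E' τ ⊆ inv d E E' (e ∘ τ) := by
  classical
  rintro n ⟨u, hfin, hn⟩
  have him : cls d E E' (e ∘ τ) (e ∘ u) = (fun w : {j // j ∈ E} → V => e ∘ w) '' cls c E E' τ u := by
    ext w
    constructor
    · intro hw
      refine ⟨e.symm ∘ w, ?_, by funext j; simp⟩
      show Eqv c E E' τ u (e.symm ∘ w)
      rw [← eqv_iso e he]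
      have : e ∘ (e.symm ∘ w) = w := by funext j; simp
      rw [this]
      exact hw
    · rintro ⟨w, hw, rfl⟩
      exact (eqv_iso e he).2 hw
  refine ⟨e ∘ u, ?_, ?_⟩
  · rw [him]
    exact hfin.image _
  · rw [him, Set.ncard_image_of_injective _ (fun a b hab => by
      funext j
      exact e.injective (congrFun hab j))]
    exact hn

theorem inv_iso {c : Str r K V} {d : Str r K W} (e : V ≃ W) (he : ∀ t, d (e ∘ t) = c t)
    {E E' : Finset (Fin r)} {τ : Fin r → V} : inv c E E' τ = inv d E E' (e ∘ τ) := by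
  refine Set.Subset.antisymm (inv_sub e he) ?_
  have h1 := inv_sub (c := d) (d := c) e.symm (fun t => by
    rw [← he]
    congr 1
    funext j
    simp) (E := E) (E' := E') (τ := e ∘ τ)
  have : e.symm ∘ (e ∘ τ) = τ := by funext j; simp
  rw [this] at h1
  exact h1

end Pool.Agent.H566V
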