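import Pool.Agent.H566V.Ext

/-!
Moving a row of a tuple across other rows.
-/

set_option autoImplicit false

namespace Pool.Agent.H566V

open Set Filter Topology

variable {r : ℕ} {K V G : Type}

/-- the number of coordinates in a row -/
def nr (t : Fin r → V ⊕ (ℚ × G)) (x : ℚ) : ℕ :=
  (Finset.univ.filter (fun j => row (t j) = some x)).card

theorem nr_pos_iff {t : Fin r → V ⊕ (ℚ × G)} {x : ℚ} : 0 < nr t x ↔ x ∈ rows t := by
  rw [nr, Finset.card_pos, mem_rows]
  constructor
  · rintro ⟨j, hj⟩
    exact ⟨j, (Finset.mem_filter.1 hj).2⟩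
  · rintro ⟨j, hj⟩
    exact ⟨j, Finset.mem_filter.2 ⟨Finset.mem_univ j, hj⟩⟩

/-- adjacent swaps with few coordinates do not matter -/
def AdjInv (c : Str r K (V ⊕ (ℚ × G))) (m : ℕ) : Prop :=
  ∀ (t : Fin r → V ⊕ (ℚ × G)) (x y : ℚ), x < y → (∀ z ∈ rows t, ¬ (x < z ∧ z < y)) →
    nr t x + nr t y < m → c (mv (Equiv.swap x y) ∘ t) = c t

theorem comp_mv_mv (f g : ℚ → ℚ) (t : Fin r → V ⊕ (ℚ × G)) :
    mv f ∘ (mv g ∘ t) = mv (f ∘ g) ∘ t := by
  funext j
  exact mv_mv f g (t j)

theorem comp_mv_congr {f g : ℚ → ℚ} {t : Fin r → V ⊕ (ℚ × G)} (h : ∀ x ∈ rows t, f x = g x) :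
    mv f ∘ t = mv g ∘ t := by
  funext j
  exact mv_congr (fun y hy => h y (mem_rows.2 ⟨j, hy⟩))

theorem comp_mv_id {f : ℚ → ℚ} {t : Fin r → V ⊕ (ℚ × G)} (h : ∀ x ∈ rows t, f x = x) :
    mv f ∘ t = t := by
  funext j
  exact mv_id (fun y hy => h y (mem_rows.2 ⟨j, hy⟩))

theorem nr_mv_update_self {t : Fin r → V ⊕ (ℚ × G)} {x y : ℚ} (hy : y ∉ rows t) :
    nr (mv (Function.update id x y) ∘ t) y = nr t x := by
  classical
  unfold nr
  congr 1
  ext j
  simp only [Finset.mem_filter, Finset.mem_univ, true_and, Function.comp, row_mv,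
    Option.map_eq_some_iff]
  constructor
  · rintro ⟨z, hz, hzy⟩
    by_cases hzx : z = x
    · rw [← hzx]; exact hz
    · rw [Function.update_of_ne hzx] at hzy
      exfalso
      apply hy
      rw [← hzy]
      exact mem_rows.2 ⟨j, hz⟩
  · intro h
    exact ⟨x, h, by simp⟩

theorem nr_mv_update_of_ne {t : Fin r → V ⊕ (ℚ × G)} {x y z : ℚ} (hzx : z ≠ x) (hzy : z ≠ y) :
    nr (mv (Function.update id x y) ∘ t) z = nr t z := by
  classical
  unfold nr
  congr 1
  ext j
  simp only [Finset.mem_filter, Finset.mem_univ, true_and, Function.comp, row_mv,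
    Option.map_eq_some_iff]
  constructor
  · rintro ⟨u, hu, huz⟩
    by_cases hux : u = x
    · rw [hux, Function.update_self] at huz
      exact absurd huz.symm hzy
    · rw [Function.update_of_ne hux] at huz
      have huz' : u = z := huz
      rw [← huz']; exact hu
  · intro h
    exact ⟨z, h, by rw [Function.update_of_ne hzx]; rfl⟩

theorem mem_rows_update {t : Fin r → V ⊕ (ℚ × G)} {x y z : ℚ}
    (h : z ∈ rows (mv (Function.update id x y) ∘ t)) : (z = y ∧ x ∈ rows t) ∨ (z ∈ rows t ∧ z ≠ x) := by
  classical
  rw [rows_mv, Finset.mem_image] at h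
  obtain ⟨u, hu, huz⟩ := h
  by_cases hux : u = x
  · rw [hux, Function.update_self] at huz
    exact Or.inl ⟨huz.symm, hux ▸ hu⟩
  · rw [Function.update_of_ne hux] at huz
    have huz' : u = z := huz
    exact Or.inr ⟨huz' ▸ hu, huz' ▸ hux⟩

theorem move_up {c : Str r K (V ⊕ (ℚ × G))} (hc : PatInv c) {m : ℕ} (Hm : AdjInv c m) :
    ∀ (k : ℕ) (t : Fin r → V ⊕ (ℚ × G)) (x y : ℚ), x < y → y ∉ rows t →
      ((rows t).filter (fun z => x < z ∧ z < y)).card = k →
      (∀ z ∈ rows t, x < z → z < y → nr t x + nr t z < m) →
      c (mv (Function.update id x y) ∘ t) = c t := by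
  classical
  intro k
  induction k with
  | zero =>
    intro t x y hxy hy hk _
    have hno : ∀ z ∈ rows t, ¬ (x < z ∧ z < y) := by
      intro z hz h
      rw [Finset.card_eq_zero] at hk
      have : z ∈ (rows t).filter (fun z => x < z ∧ z < y) := Finset.mem_filter.2 ⟨hz, h⟩
      rw [hk] at this
      simp at this
    apply hc
    intro a ha b hb hab
    by_cases hax : a = x
    · subst hax
      rw [Function.update_self, Function.update_of_ne hab.ne']
      show y < b
      have h1 : b ≠ y := fun h => hy (h ▸ hb)
      by_contra h2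
      exact hno b hb ⟨hab, lt_of_le_of_ne (not_lt.1 h2) h1⟩
    · rw [Function.update_of_ne hax]
      by_cases hbx : b = x
      · subst hbx
        rw [Function.update_self]
        exact hab.trans hxy
      · rw [Function.update_of_ne hbx]
        exact hab
  | succ k ih =>
    intro t x y hxy hy hk hcond
    by_cases hx : x ∈ rows t
    swap
    · rw [comp_mv_id]
      intro u hu
      rw [Function.update_of_ne (fun h : u = x => hx (h ▸ hu))]
      rfl
    have hne : ((rows t).filter (fun z => x < z ∧ z < y)).Nonempty := by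
      rw [← Finset.card_pos, hk]; omega
    set z := ((rows t).filter (fun z => x < z ∧ z < y)).min' hne with hz
    have hzmem : z ∈ (rows t).filter (fun z => x < z ∧ z < y) := Finset.min'_mem _ _
    obtain ⟨hzr, hxz, hzy⟩ : z ∈ rows t ∧ x < z ∧ z < y := by
      have := Finset.mem_filter.1 hzmem
      exact ⟨this.1, this.2.1, this.2.2⟩
    have hzmin : ∀ u ∈ rows t, x < u → u < y → z ≤ u := fun u hu h1 h2 =>
      Finset.min'_le _ _ (Finset.mem_filter.2 ⟨hu, h1, h2⟩)
    obtain ⟨z', hzz', hz'y, hz'min⟩ : ∃ z', z < z' ∧ z' < y ∧ ∀ u ∈ rows t, z < u → z' < u := by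
      set S := insert y ((rows t).filter (fun u => z < u)) with hS
      have hSne : S.Nonempty := ⟨y, Finset.mem_insert_self _ _⟩
      have hw : z < S.min' hSne := by
        rw [Finset.lt_min'_iff]
        intro u hu
        rcases Finset.mem_insert.1 hu with h | h
        · rw [h]; exact hzy
        · exact (Finset.mem_filter.1 h).2
      obtain ⟨z', h1, h2⟩ := exists_between hw
      refine ⟨z', h1, h2.trans_le (Finset.min'_le _ _ (Finset.mem_insert_self _ _)), ?_⟩
      intro u hu hzu
      exact h2.trans_le (Finset.min'_le _ _ (Finset.mem_insert_of_mem (Finset.mem_filter.2 ⟨hu, hzu⟩)))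
    have hz'r : z' ∉ rows t := fun h => lt_irrefl _ (hz'min z' h hzz')
    have hxz' : x < z' := hxz.trans hzz'
    -- first step
    have h1 : c (mv (Equiv.swap x z) ∘ t) = c t := by
      refine Hm t x z hxz (fun u hu h => ?_) (hcond z hzr hxz hzy)
      exact absurd (hzmin u hu h.1 (h.2.trans hzy)) (not_le.2 h.2)
    have h2 : c (mv (Function.update id x z') ∘ t) = c t := by
      rw [← h1]
      let f : ℚ → ℚ := fun u => if u = x then z else if u = z then z' else u
      have hfe : mv (Function.update id x z') ∘ t = mv f ∘ (mv (Equiv.swap x z) ∘ t) := by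
        rw [comp_mv_mv]
        apply comp_mv_congr
        intro u _
        show _ = f (Equiv.swap x z u)
        by_cases hux : u = x
        · rw [hux, Function.update_self, Equiv.swap_apply_left]
          simp [f, hxz.ne']
        · rw [Function.update_of_ne hux]
          by_cases huz : u = z
          · rw [huz, Equiv.swap_apply_right]
            simp [f]
          · rw [Equiv.swap_apply_of_ne_of_ne hux huz]
            simp [f, hux, huz]
      rw [hfe]
      apply hc
      have hsub : ∀ a ∈ rows (mv (Equiv.swap x z) ∘ t), a ∈ rows t := by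
        intro a ha
        rw [rows_mv, Finset.mem_image] at ha
        obtain ⟨u, hu, rfl⟩ := ha
        by_cases hux : u = x
        · rw [hux, Equiv.swap_apply_left]; exact hzr
        · by_cases huz : u = z
          · rw [huz, Equiv.swap_apply_right]; exact hx
          · rw [Equiv.swap_apply_of_ne_of_ne hux huz]; exact hu
      intro a ha b hb hab
      have ha' := hsub a ha
      have hb' := hsub b hb
      show f a < f b
      by_cases hax : a = x
      · subst hax
        have hfa : f a = z := by simp [f]
        rw [hfa]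
        by_cases hbz : b = z
        · have : f b = z' := by simp [f, hab.ne', hbz]; intro h; exact absurd h hxz.ne'
          rw [this]; exact hzz'
        · have : f b = b := by simp [f, hab.ne', hbz]
          rw [this]
          by_cases hby : b < y
          · exact lt_of_le_of_ne (hzmin b hb' hab hby) (Ne.symm hbz)
          · exact hzy.trans_le (not_lt.1 hby)
      · by_cases haz : a = z
        · have hfa : f a = z' := by simp [f, hax, haz]; intro h; exact absurd h hxz.ne'
          rw [hfa]
          have hbz : z < b := haz ▸ hab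
          have hbx : b ≠ x := (hxz.trans hbz).ne'
          have : f b = b := by simp [f, hbx, hbz.ne']
          rw [this]
          exact hz'min b hb' hbz
        · have hfa : f a = a := by simp [f, hax, haz]
          rw [hfa]
          by_cases hbx : b = x
          · have : f b = z := by simp [f, hbx]
            rw [this]
            exact (hbx ▸ hab).trans hxz
          · by_cases hbz : b = z
            · have : f b = z' := by simp [f, hbz]; intro h; exact absurd h hxz.ne'
              rw [this]
              exact (hbz ▸ hab).trans hzz'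
            · have : f b = b := by simp [f, hbx, hbz]
              rw [this]; exact hab
    -- second step
    have h3 := ih (mv (Function.update id x z') ∘ t) z' y hz'y (by
      intro h
      rcases mem_rows_update h with h | h
      · exact hz'y.ne' h.1
      · exact hy h.1) (by
      have : (rows (mv (Function.update id x z') ∘ t)).filter (fun u => z' < u ∧ u < y) =
          ((rows t).filter (fun u => x < u ∧ u < y)).erase z := by
        ext u
        simp only [Finset.mem_filter, Finset.mem_erase]
        constructor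
        · rintro ⟨h, h1, h2⟩
          rcases mem_rows_update h with h | h
          · exact absurd h.1 h1.ne'
          · exact ⟨(hzz'.trans h1).ne', h.1, hxz'.trans h1, h2⟩
        · rintro ⟨h1, h2, h3, h4⟩
          have hzu : z < u := lt_of_le_of_ne (hzmin u h2 h3 h4) (Ne.symm h1)
          refine ⟨?_, hz'min u h2 hzu, h4⟩
          rw [rows_mv, Finset.mem_image]
          exact ⟨u, h2, by rw [Function.update_of_ne h3.ne']; rfl⟩
      rw [this, Finset.card_erase_of_mem hzmem, hk]
      omega) (by
      intro u hu h1 h2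
      rcases mem_rows_update hu with h | h
      · exact absurd h.1 h1.ne'
      · rw [nr_mv_update_self hz'r, nr_mv_update_of_ne h.2 h1.ne']
        exact hcond u h.1 (hxz'.trans h1) h2)
    rw [← h2, ← h3, comp_mv_mv]
    congr 1
    apply comp_mv_congr
    intro u hu
    show _ = Function.update id z' y (Function.update id x z' u)
    by_cases hux : u = x
    · rw [hux]; simp
    · have huz' : u ≠ z' := fun h => hz'r (h ▸ hu)
      rw [Function.update_of_ne hux, Function.update_of_ne hux]
      show u = Function.update id z' y u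
      rw [Function.update_of_ne huz']
      rfl

/-- Moving a row to a free place. -/
theorem move {c : Str r K (V ⊕ (ℚ × G))} (hc : PatInv c) {m : ℕ} (Hm : AdjInv c m)
    (t : Fin r → V ⊕ (ℚ × G)) (x y : ℚ) (hy : y ∉ rows t)
    (h : ∀ z ∈ rows t, (x < z ∧ z < y) ∨ (y < z ∧ z < x) → nr t x + nr t z < m) :
    c (mv (Function.update id x y) ∘ t) = c t := by
  classical
  rcases lt_trichotomy x y with hxy | hxy | hxy
  · exact move_up hc Hm _ t x y hxy hy rfl (fun z hz h1 h2 => h z hz (Or.inl ⟨h1, h2⟩))
  · subst hxy
    rw [comp_mv_id]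
    intro u hu
    rw [Function.update_of_ne (fun h : u = x => hy (h ▸ hu))]
    rfl
  · have h1 := move_up hc Hm _ (mv (Function.update id x y) ∘ t) y x hxy (by
      intro h
      rcases mem_rows_update h with h | h
      · exact hxy.ne' h.1
      · exact h.2 rfl) rfl (by
      intro z hz h1 h2
      rcases mem_rows_update hz with h' | h'
      · exact absurd h'.1 h1.ne'
      · rw [nr_mv_update_self hy, nr_mv_update_of_ne h'.2 h1.ne']
        exact h z h'.1 (Or.inr ⟨h1, h2⟩))
    rw [← h1, comp_mv_mv]
    congr 1
    apply comp_mv_id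
    intro u hu
    show Function.update id y x (Function.update id x y u) = u
    by_cases hux : u = x
    · rw [hux]; simp
    · have huy : u ≠ y := fun h => hy (h ▸ hu)
      rw [Function.update_of_ne hux]
      show Function.update id y x u = u
      rw [Function.update_of_ne huy]
      rfl

theorem nr_le (t : Fin r → V ⊕ (ℚ × G)) (x : ℚ) : nr t x ≤ r := by
  unfold nr
  refine (Finset.card_filter_le _ _).trans ?_
  simp

theorem fullSym_of_adjInv {c : Str r K (V ⊕ (ℚ × G))} (hc : PatInv c)
    (Hm : AdjInv c (2 * r + 1)) : FullSym c := by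
  classical
  intro t f hf
  obtain ⟨N, hN⟩ : ∃ N : ℚ, ∀ u ∈ rows t, ∀ v ∈ rows t, u < f v + N := by
    set S := (rows t ×ˢ rows t).image (fun uv => uv.1 - f uv.2) with hS
    obtain ⟨N, hN⟩ := S.exists_le
    refine ⟨N + 1, fun u hu v hv => ?_⟩
    have := hN (u - f v) (Finset.mem_image.2 ⟨(u, v), Finset.mem_product.2 ⟨hu, hv⟩, rfl⟩)
    linarith
  have key : ∀ R : Finset ℚ, R ⊆ rows t →
      c (mv (fun u => if u ∈ R then f u + N else u) ∘ t) = c t := by
    intro R
    induction R using Finset.induction with
    | empty =>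
      intro _
      rw [comp_mv_id]
      intro u _
      simp
    | insert a R ha ih =>
      intro hR
      have haR : a ∈ rows t := hR (Finset.mem_insert_self a R)
      have hRR : R ⊆ rows t := fun u hu => hR (Finset.mem_insert_of_mem hu)
      rw [← ih hRR]
      have h1 := move hc Hm (mv (fun u => if u ∈ R then f u + N else u) ∘ t) a (f a + N) (by
        intro h
        rw [rows_mv, Finset.mem_image] at h
        obtain ⟨u, hu, hua⟩ := h
        by_cases huR : u ∈ R
        · rw [if_pos huR] at hua
          have : f u = f a := by linarith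
          have := hf hu haR this
          rw [this] at huR
          exact ha huR
        · rw [if_neg huR] at hua
          exact absurd (hN u hu a haR) (by rw [hua]; exact lt_irrefl _)) (by
        intro z _ _
        have h1 := nr_le (mv (fun u => if u ∈ R then f u + N else u) ∘ t) a
        have h2 := nr_le (mv (fun u => if u ∈ R then f u + N else u) ∘ t) z
        omega)
      rw [← h1, comp_mv_mv]
      congr 1
      apply comp_mv_congr
      intro u hu
      show (if u ∈ insert a R then f u + N else u) =
        Function.update id a (f a + N) (if u ∈ R then f u + N else u)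
      by_cases hua : u = a
      · subst hua
        rw [if_pos (Finset.mem_insert_self _ _), if_neg ha, Function.update_self]
      · by_cases huR : u ∈ R
        · rw [if_pos (Finset.mem_insert_of_mem huR), if_pos huR, Function.update_of_ne]
          · rfl
          · intro h
            have := hN a haR u hu
            rw [h] at this
            exact lt_irrefl _ this
        · rw [if_neg (fun h => (Finset.mem_insert.1 h).elim hua huR), if_neg huR,
            Function.update_of_ne hua]
          rfl
  have h1 := key (rows t) (Finset.Subset.refl _)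
  rw [← h1]
  have h2 : mv f ∘ t = mv (fun u => u - N) ∘ (mv (fun u => if u ∈ rows t then f u + N else u) ∘ t) := by
    rw [comp_mv_mv]
    apply comp_mv_congr
    intro u hu
    show f u = (if u ∈ rows t then f u + N else u) - N
    rw [if_pos hu]
    ring
  rw [h2]
  apply hc
  intro a _ b _ hab
  exact sub_lt_sub_right hab N

theorem exists_min_witness {c : Str r K (V ⊕ (ℚ × G))} (hc : PatInv c) (h : ¬ FullSym c) :
    ∃ (t₀ : Fin r → V ⊕ (ℚ × G)) (x₀ y₀ : ℚ), x₀ < y₀ ∧ (∀ z ∈ rows t₀, ¬ (x₀ < z ∧ z < y₀)) ∧
      c (mv (Equiv.swap x₀ y₀) ∘ t₀) ≠ c t₀ ∧ x₀ ∈ rows t₀ ∧ y₀ ∈ rows t₀ ∧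
      AdjInv c (nr t₀ x₀ + nr t₀ y₀) := by
  classical
  let P : ℕ → Prop := fun n => ∃ (t₀ : Fin r → V ⊕ (ℚ × G)) (x₀ y₀ : ℚ), x₀ < y₀ ∧
    (∀ z ∈ rows t₀, ¬ (x₀ < z ∧ z < y₀)) ∧ c (mv (Equiv.swap x₀ y₀) ∘ t₀) ≠ c t₀ ∧
    nr t₀ x₀ + nr t₀ y₀ = n
  have hex : ∃ n, P n := by
    by_contra hno
    apply h
    apply fullSym_of_adjInv hc
    intro t x y hxy hb _
    by_contra hne
    exact hno ⟨_, t, x, y, hxy, hb, hne, rfl⟩
  obtain ⟨t₀, x₀, y₀, h1, h2, h3, h4⟩ := Nat.find_spec hex
  have hmin : AdjInv c (nr t₀ x₀ + nr t₀ y₀) := by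
    intro t x y hxy hb hlt
    by_contra hne
    rw [h4] at hlt
    exact Nat.find_min hex hlt ⟨t, x, y, hxy, hb, hne, rfl⟩
  refine ⟨t₀, x₀, y₀, h1, h2, h3, ?_, ?_, hmin⟩
  · by_contra hx
    apply h3
    apply hc
    intro a ha b hb hab
    have hax : a ≠ x₀ := fun h => hx (h ▸ ha)
    have hbx : b ≠ x₀ := fun h => hx (h ▸ hb)
    by_cases hay : a = y₀
    · rw [hay, Equiv.swap_apply_right, Equiv.swap_apply_of_ne_of_ne hbx (by rw [← hay]; exact hab.ne')]
      exact h1.trans (hay ▸ hab)
    · rw [Equiv.swap_apply_of_ne_of_ne hax hay]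
      by_cases hby : b = y₀
      · rw [hby, Equiv.swap_apply_right]
        by_contra h5
        exact h2 a ha ⟨lt_of_le_of_ne (not_lt.1 h5) (Ne.symm hax), hby ▸ hab⟩
      · rw [Equiv.swap_apply_of_ne_of_ne hbx hby]
        exact hab
  · by_contra hy
    apply h3
    apply hc
    intro a ha b hb hab
    have hay : a ≠ y₀ := fun h => hy (h ▸ ha)
    have hby : b ≠ y₀ := fun h => hy (h ▸ hb)
    by_cases hbx : b = x₀
    · rw [hbx, Equiv.swap_apply_left, Equiv.swap_apply_of_ne_of_ne (by rw [← hbx]; exact hab.ne) hay]
      exact (hbx ▸ hab).trans h1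
    · rw [Equiv.swap_apply_of_ne_of_ne hbx hby]
      by_cases hax : a = x₀
      · rw [hax, Equiv.swap_apply_left]
        by_contra h5
        exact h2 b hb ⟨hax ▸ hab, lt_of_le_of_ne (not_lt.1 h5) hby⟩
      · rw [Equiv.swap_apply_of_ne_of_ne hax hay]
        exact hab

end Pool.Agent.H566V
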