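import Pool.Agent.H566V.Core3

/-!
The order case: a structure on rows whose values depend on the order of the rows gives continuum
many structures.
-/

set_option autoImplicit false

namespace Pool.Agent.H566V

open Set Filter Topology

/-! ### Positions -/

/-- the test positions -/
def M₀ : Set ℚ := {q | ∃ k : ℤ, (k : ℚ) + 1 / 2 < q ∧ q < k + 1}

/-- groups of positions -/
def G₀ (n : ℕ → ℕ) (i : ℕ) : Finset ℚ :=
  (Finset.range (n i)).image (fun j : ℕ => (i : ℚ) + 1 / ((j : ℚ) + 3))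

theorem mem_G₀ {n : ℕ → ℕ} {i : ℕ} {x : ℚ} (h : x ∈ G₀ n i) : (i : ℚ) < x ∧ x ≤ i + 1 / 3 := by
  obtain ⟨j, _, rfl⟩ := Finset.mem_image.1 h
  have hj : (0 : ℚ) ≤ j := Nat.cast_nonneg j
  constructor
  · have : (0 : ℚ) < 1 / ((j : ℚ) + 3) := by positivity
    linarith
  · have : 1 / ((j : ℚ) + 3) ≤ 1 / 3 := by
      apply one_div_le_one_div_of_le <;> linarith
    linarith

theorem card_G₀ (n : ℕ → ℕ) (i : ℕ) : (G₀ n i).card = n i := by
  rw [G₀, Finset.card_image_of_injective, Finset.card_range]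
  intro a b hab
  have ha : (0 : ℚ) < (a : ℚ) + 3 := by positivity
  have hb : (0 : ℚ) < (b : ℚ) + 3 := by positivity
  have h1 : 1 / ((a : ℚ) + 3) = 1 / ((b : ℚ) + 3) := by
    have : (i : ℚ) + 1 / ((a : ℚ) + 3) = i + 1 / ((b : ℚ) + 3) := hab
    linarith
  have h2 : (a : ℚ) + 3 = b + 3 := by
    have := congrArg (fun x : ℚ => 1 / x) h1
    simpa using this
  have h3 : (a : ℚ) = b := by linarith
  exact_mod_cast h3

theorem G₀_sep {n : ℕ → ℕ} {i i' : ℕ} {x y : ℚ} (hx : x ∈ G₀ n i) (hy : y ∈ G₀ n i')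
    (h : x < y) : i ≤ i' := by
  have h1 := mem_G₀ hx
  have h2 := mem_G₀ hy
  by_contra hlt
  push Not at hlt
  have : (i' : ℚ) + 1 ≤ i := by exact_mod_cast hlt
  linarith

theorem G₀_uniq {n : ℕ → ℕ} {i i' : ℕ} {x : ℚ} (hx : x ∈ G₀ n i) (hy : x ∈ G₀ n i') :
    i = i' := by
  have h1 := mem_G₀ hx
  have h2 := mem_G₀ hy
  rcases lt_trichotomy i i' with h | h | h
  · have : (i : ℚ) + 1 ≤ i' := by exact_mod_cast h
    linarith
  · exact h
  · have : (i' : ℚ) + 1 ≤ i := by exact_mod_cast h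
    linarith

theorem G₀_M₀ {n : ℕ → ℕ} {i : ℕ} {x : ℚ} (hx : x ∈ G₀ n i) : x ∉ M₀ := by
  rintro ⟨k, hk1, hk2⟩
  have h1 := mem_G₀ hx
  have h3 : (k : ℚ) < i := by linarith
  have h4 : k < (i : ℤ) := by exact_mod_cast h3
  have h5 : k + 1 ≤ (i : ℤ) := h4
  have h6 : (k : ℚ) + 1 ≤ i := by exact_mod_cast h5
  linarith

theorem pos_exists (l u : ℚ) (hlu : l < u) (n : ℕ → ℕ) (hn : ∀ i, 0 < n i) (I : Set ℕ)
    (hI : I.Infinite) :
    ∃ (L M : Set ℚ) (Gr : ℕ → Finset ℚ), Pos l u L M I Gr ∧ ∀ i, (Gr i).card = n i := by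
  classical
  have hne : Nonempty (Set.Ioo l u) := by
    obtain ⟨x, h1, h2⟩ := exists_between hlu
    exact ⟨⟨x, h1, h2⟩⟩
  obtain ⟨e⟩ : Nonempty (ℚ ≃o Set.Ioo l u) := Order.iso_of_countable_dense ℚ (Set.Ioo l u)
  let ι : ℚ → ℚ := fun q => (e q : ℚ)
  have hι : StrictMono ι := fun a b hab => e.strictMono hab
  have hιr : ∀ x, l < x → x < u → ∃ q, ι q = x := fun x h1 h2 => ⟨e.symm ⟨x, h1, h2⟩, by simp [ι]⟩
  have hιl : ∀ q, l < ι q ∧ ι q < u := fun q => (e q).2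
  let L₀ : Set ℚ := {x | ∃ i ∈ I, x ∈ G₀ n i}
  have hsep₀ : ∀ x y : ℚ, (x ∈ L₀ ∨ x ∈ M₀) → (y ∈ L₀ ∨ y ∈ M₀) → x < y →
      (¬ ∃ i ∈ I, x ∈ G₀ n i ∧ y ∈ G₀ n i) → {z | z ∈ M₀ ∧ x < z ∧ z < y}.Infinite := by
    intro x y hx hy hxy hno
    rcases hx with ⟨i, hi, hxi⟩ | ⟨k, hk1, hk2⟩
    · rcases hy with ⟨i', hi', hyi⟩ | ⟨k, hk1, hk2⟩
      · have hle := G₀_sep hxi hyi hxy
        have hne : i ≠ i' := by
          rintro rfl
          exact hno ⟨i, hi, hxi, hyi⟩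
        have hlt : (i : ℚ) + 1 ≤ i' := by exact_mod_cast lt_of_le_of_ne hle hne
        have h1 := mem_G₀ hxi
        have h2 := mem_G₀ hyi
        refine (Set.Ioo_infinite (show (i : ℚ) + 1 / 2 < i + 1 by linarith)).mono ?_
        rintro z ⟨hz1, hz2⟩
        exact ⟨⟨i, by exact_mod_cast hz1, by exact_mod_cast hz2⟩, by linarith, by linarith⟩
      · refine (Set.Ioo_infinite (show max x ((k : ℚ) + 1 / 2) < y from max_lt hxy hk1)).mono ?_
        rintro z ⟨hz1, hz2⟩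
        exact ⟨⟨k, lt_of_le_of_lt (le_max_right _ _) hz1, hz2.trans hk2⟩,
          lt_of_le_of_lt (le_max_left _ _) hz1, hz2⟩
    · refine (Set.Ioo_infinite (show x < min y ((k : ℚ) + 1) from lt_min hxy hk2)).mono ?_
      rintro z ⟨hz1, hz2⟩
      exact ⟨⟨k, hk1.trans hz1, hz2.trans_le (min_le_right _ _)⟩, hz1,
        hz2.trans_le (min_le_left _ _)⟩
  have hMl₀ : ∀ x : ℚ, {y | y ∈ M₀ ∧ y < x}.Infinite := by
    intro x
    have h1 : ((⌊x⌋ - 1 : ℤ) : ℚ) + 1 / 2 < ((⌊x⌋ - 1 : ℤ) : ℚ) + 1 := by linarith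
    refine (Set.Ioo_infinite h1).mono ?_
    rintro z ⟨hz1, hz2⟩
    refine ⟨⟨⌊x⌋ - 1, hz1, hz2⟩, hz2.trans_le ?_⟩
    push_cast
    have := Int.floor_le x
    linarith
  have hMr₀ : ∀ x : ℚ, {y | y ∈ M₀ ∧ x < y}.Infinite := by
    intro x
    have h1 : ((⌊x⌋ + 1 : ℤ) : ℚ) + 1 / 2 < ((⌊x⌋ + 1 : ℤ) : ℚ) + 1 := by linarith
    refine (Set.Ioo_infinite h1).mono ?_
    rintro z ⟨hz1, hz2⟩
    refine ⟨⟨⌊x⌋ + 1, hz1, hz2⟩, lt_trans ?_ hz1⟩
    push_cast
    have := Int.lt_floor_add_one x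
    linarith
  refine ⟨ι '' L₀, ι '' M₀, fun i => (G₀ n i).image ι, ?_, fun i => ?_⟩
  swap
  · rw [Finset.card_image_of_injective _ hι.injective, card_G₀]
  have hmem : ∀ i q, ι q ∈ (G₀ n i).image ι ↔ q ∈ G₀ n i := by
    intro i q
    rw [Finset.mem_image]
    constructor
    · rintro ⟨q', h1, h2⟩
      rw [← hι.injective h2]; exact h1
    · intro h
      exact ⟨q, h, rfl⟩
  have hmemI : ∀ (T : Set ℚ) (q : ℚ), ι q ∈ ι '' T ↔ q ∈ T := fun T q =>
    hι.injective.mem_set_image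
  refine ⟨?_, ?_, ?_, ?_, ?_, ?_, ?_, ?_, ?_, ?_, ?_⟩
  · intro x
    constructor
    · rintro ⟨q, ⟨i, hi, hq⟩, rfl⟩
      exact ⟨i, hi, (hmem i q).2 hq⟩
    · rintro ⟨i, hi, hx⟩
      obtain ⟨q, hq, rfl⟩ := Finset.mem_image.1 hx
      exact ⟨q, ⟨i, hi, hq⟩, rfl⟩
  · rintro x ⟨q, -, rfl⟩
    exact hιl q
  · rintro x ⟨q, -, rfl⟩
    exact hιl q
  · rintro x ⟨q, ⟨i, hi, hq⟩, rfl⟩ hM
    rw [hmemI] at hM
    exact G₀_M₀ hq hM
  · intro x h1 h2
    obtain ⟨q, rfl⟩ := hιr x h1 h2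
    refine ((hMl₀ q).image hι.injective.injOn).mono ?_
    rintro _ ⟨z, ⟨hz1, hz2⟩, rfl⟩
    exact ⟨⟨z, hz1, rfl⟩, hι hz2⟩
  · intro x h1 h2
    obtain ⟨q, rfl⟩ := hιr x h1 h2
    refine ((hMr₀ q).image hι.injective.injOn).mono ?_
    rintro _ ⟨z, ⟨hz1, hz2⟩, rfl⟩
    exact ⟨⟨z, hz1, rfl⟩, hι hz2⟩
  · intro i _ x hx y hy z hz
    obtain ⟨q, hq, rfl⟩ := Finset.mem_image.1 hx
    obtain ⟨q', hq', rfl⟩ := Finset.mem_image.1 hy
    obtain ⟨w, ⟨k, hk1, hk2⟩, rfl⟩ := hz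
    rintro ⟨h1, h2⟩
    rw [hι.lt_iff_lt] at h1 h2
    have h3 := mem_G₀ hq
    have h4 := mem_G₀ hq'
    have h5 : (k : ℚ) < i := by linarith
    have h6 : (k : ℚ) + 1 ≤ i := by exact_mod_cast (by exact_mod_cast h5 : k < (i : ℤ))
    linarith
  · rintro x y hx hy hxy hno
    obtain ⟨q, rfl⟩ : ∃ q, ι q = x := by
      rcases hx with ⟨q, -, rfl⟩ | ⟨q, -, rfl⟩ <;> exact ⟨q, rfl⟩
    obtain ⟨q', rfl⟩ : ∃ q, ι q = y := by
      rcases hy with ⟨q, -, rfl⟩ | ⟨q, -, rfl⟩ <;> exact ⟨q, rfl⟩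
    rw [hmemI, hmemI] at hx hy
    have h1 := hsep₀ q q' hx hy (hι.lt_iff_lt.1 hxy) (fun ⟨i, hi, h1, h2⟩ =>
      hno ⟨i, hi, (hmem i q).2 h1, (hmem i q').2 h2⟩)
    refine (h1.image hι.injective.injOn).mono ?_
    rintro _ ⟨z, ⟨hz1, hz2, hz3⟩, rfl⟩
    exact ⟨⟨z, hz1, rfl⟩, hι hz2, hι hz3⟩
  · intro x y h1 h2
    by_cases hxy : x < y
    swap
    · refine Set.finite_empty.subset ?_
      rintro z ⟨-, hz1, hz2⟩
      exact hxy (hz1.trans hz2)
    obtain ⟨q', rfl⟩ := hιr y (h1.trans hxy) h2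
    have hfin : (⋃ i ∈ Set.Iic ⌈q'⌉₊, (((G₀ n i).image ι : Finset ℚ) : Set ℚ)).Finite :=
      (Set.finite_Iic _).biUnion (fun i _ => Finset.finite_toSet _)
    refine hfin.subset ?_
    rintro _ ⟨⟨z, ⟨i, hi, hz⟩, rfl⟩, hz1, hz2⟩
    rw [hι.lt_iff_lt] at hz2
    have h3 := mem_G₀ hz
    have h4 : (i : ℚ) < q' := by linarith
    rw [Set.mem_iUnion₂]
    refine ⟨i, ?_, Finset.mem_coe.2 ((hmem i z).2 hz)⟩
    have h5 : (i : ℚ) ≤ (⌈q'⌉₊ : ℚ) := h4.le.trans (Nat.le_ceil q')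
    exact_mod_cast h5
  · have h1 : (ι '' ((fun i : ℕ => (i : ℚ) + 1 / 3) '' I)).Infinite := by
      refine (hI.image ?_).image hι.injective.injOn
      intro a _ b _ hab
      have : (a : ℚ) + 1 / 3 = b + 1 / 3 := hab
      have h3 : (a : ℚ) = b := by linarith
      exact_mod_cast h3
    refine h1.mono (Set.image_mono ?_)
    rintro _ ⟨i, hi, rfl⟩
    exact ⟨i, hi, Finset.mem_image.2 ⟨0, Finset.mem_range.2 (hn i), by norm_num⟩⟩
  · intro i _ i' _ x hx hx'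
    obtain ⟨q, hq, rfl⟩ := Finset.mem_image.1 hx
    exact G₀_uniq hq ((hmem i' q).1 hx')

/-! ### The order case -/

/-- the code of a subset -/
def codeSet (A : ℕ → Bool) : Set ℕ := {i | (∃ k, i = 2 * k) ∨ ∃ k, i = 2 * k + 1 ∧ A k = true}

theorem codeSet_infinite (A : ℕ → Bool) : (codeSet A).Infinite := by
  refine (Set.infinite_range_of_injective (f := fun k : ℕ => 2 * k) (fun a b h => by
    have : 2 * a = 2 * b := h
    omega)).mono ?_
  rintro _ ⟨k, rfl⟩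
  exact Or.inl ⟨k, rfl⟩

theorem codeSet_inj {A B : ℕ → Bool} (h : codeSet A = codeSet B) : A = B := by
  funext k
  have key : ∀ (A : ℕ → Bool), (2 * k + 1) ∈ codeSet A ↔ A k = true := by
    intro A
    constructor
    · rintro (⟨m, hm⟩ | ⟨m, hm, h⟩)
      · omega
      · have : k = m := by omega
        rw [this]; exact h
    · intro h
      exact Or.inr ⟨k, rfl, h⟩
  have h1 := key A
  have h2 := key B
  rw [h] at h1
  have : A k = true ↔ B k = true := h1.symm.trans h2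
  cases hA : A k <;> cases hB : B k <;> simp_all

variable {r : ℕ} {K V G W' : Type}

theorem DD_countable (t₀ : Fin r → V ⊕ (ℚ × G)) (x₀ y₀ : ℚ) (col : Fin r → G) (L M : Set ℚ) :
    (DD t₀ x₀ y₀ col L M).Countable := by
  have h1 : (Set.range t₀ ∪ Set.range (fun x : ℚ × Fin r => (Sum.inr (x.1, col x.2) :
      V ⊕ (ℚ × G)))).Countable := (Set.countable_range _).union (Set.countable_range _)
  refine h1.mono ?_
  rintro v (⟨j, -, -, rfl⟩ | ⟨x, -, j, -, rfl⟩ | ⟨x, -, j, -, rfl⟩)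
  · exact Or.inl ⟨j, rfl⟩
  · exact Or.inr ⟨(x, j), rfl⟩
  · exact Or.inr ⟨(x, j), rfl⟩

theorem exists_wit {c : Str r K (V ⊕ (ℚ × G))} (hc : PatInv c) (h : ¬ FullSym c) :
    ∃ (t₀ : Fin r → V ⊕ (ℚ × G)) (x₀ y₀ l u : ℚ) (col : Fin r → G),
      Wit c t₀ x₀ y₀ l u col := by
  classical
  obtain ⟨t₀, x₀, y₀, hlt, hno, hne, hx, hy, hadj⟩ := exists_min_witness hc h
  obtain ⟨l, hl1, hl2⟩ : ∃ l, l < x₀ ∧ ∀ z ∈ rows t₀, z < x₀ → z < l := by
    have h1 : ∀ᶠ l in 𝓝[<] x₀, ∀ z ∈ rows t₀, z < x₀ → z < l := by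
      rw [Filter.eventually_all_finset]
      intro z _
      by_cases hz : z < x₀
      · filter_upwards [Ioo_mem_nhdsLT hz] with l hl _
        exact hl.1
      · exact Filter.Eventually.of_forall fun _ h => absurd h hz
    obtain ⟨l, h1, h2⟩ := (h1.and self_mem_nhdsWithin).exists
    exact ⟨l, h2, h1⟩
  obtain ⟨u, hu1, hu2⟩ : ∃ u, y₀ < u ∧ ∀ z ∈ rows t₀, y₀ < z → u < z := by
    have h1 : ∀ᶠ l in 𝓝[>] y₀, ∀ z ∈ rows t₀, y₀ < z → l < z := by
      rw [Filter.eventually_all_finset]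
      intro z _
      by_cases hz : y₀ < z
      · filter_upwards [Ioo_mem_nhdsGT hz] with l hl _
        exact hl.2
      · exact Filter.Eventually.of_forall fun _ h => absurd h hz
    obtain ⟨l, h1, h2⟩ := (h1.and self_mem_nhdsWithin).exists
    exact ⟨l, h2, h1⟩
  have hG : Nonempty G := by
    obtain ⟨j, hj⟩ := mem_rows.1 hx
    obtain ⟨g, _⟩ := row_eq_some hj
    exact ⟨g⟩
  have hcol : ∀ j, ∃ g, ∀ y, row (t₀ j) = some y → t₀ j = Sum.inr (y, g) := by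
    intro j
    rcases hj : t₀ j with a | ⟨x, g⟩
    · exact ⟨Classical.choice hG, fun y hy => by simp at hy⟩
    · refine ⟨g, fun y hy => ?_⟩
      simp only [row_inr, Option.some.injEq] at hy
      rw [hy]
  choose col hcol using hcol
  refine ⟨t₀, x₀, y₀, l, u, col, hc, hlt, hl1, hu1, ?_, hne, hx, hy, hadj, hcol⟩
  intro z hz h1 h2
  by_contra hcon
  push Not at hcon
  rcases lt_or_gt_of_ne hcon.1 with h3 | h3
  · exact absurd (hl2 z hz h3) (not_lt.2 h1.le)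
  · rcases lt_or_gt_of_ne hcon.2 with h4 | h4
    · exact hno z hz ⟨h3, h4⟩
    · exact absurd (hu2 z hz h4) (not_lt.2 h2.le)

/-- Theorem A. -/
theorem cont_of_not_fullSym {S : Str r K W'} {c : Str r K (V ⊕ (ℚ × G))} (hc : PatInv c)
    (hS : Cls S c) (h : ¬ FullSym c) : Cont S := by
  classical
  obtain ⟨t₀, x₀, y₀, l, u, col, hw⟩ := exists_wit hc h
  set C := CC t₀ x₀ with hC
  let n : ℕ → ℕ := fun i => (2 * C + 2) ^ (i + 1)
  have hn0 : ∀ i, 0 < n i := fun i => by positivity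
  have hnC : ∀ i, C < n i := fun i => by
    have : 2 * C + 2 ≤ (2 * C + 2) ^ (i + 1) := Nat.le_self_pow (by omega) _
    show C < (2 * C + 2) ^ (i + 1)
    omega
  have hnmono : ∀ i j, i < j → n i * C < n j := by
    intro i j hij
    have h1 : n i * (2 * C + 2) ≤ n j := by
      show (2 * C + 2) ^ (i + 1) * (2 * C + 2) ≤ (2 * C + 2) ^ (j + 1)
      rw [← pow_succ]
      exact Nat.pow_le_pow_right (by omega) (by omega)
    have h2 : n i * C < n i * (2 * C + 2) := Nat.mul_lt_mul_of_pos_left (by omega) (hn0 i)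
    omega
  have hnuniq : ∀ i j m, n i ≤ m → m ≤ n i * C → n j ≤ m → m ≤ n j * C → i = j := by
    intro i j m h1 h2 h3 h4
    rcases lt_trichotomy i j with h | h | h
    · have := hnmono i j h; omega
    · exact h
    · have := hnmono j i h; omega
  have hposA : ∀ A : ℕ → Bool, ∃ (L M : Set ℚ) (Gr : ℕ → Finset ℚ),
      Pos l u L M (codeSet A) Gr ∧ ∀ i, (Gr i).card = n i := fun A =>
    pos_exists l u (hw.lx.trans (hw.lt.trans hw.yu)) n hn0 (codeSet A) (codeSet_infinite A)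
  choose L M Gr hpos hcard using hposA
  let D : (ℕ → Bool) → Set (V ⊕ (ℚ × G)) := fun A => DD t₀ x₀ y₀ col (L A) (M A)
  have hDc : ∀ A, Countable (D A) := fun A => (DD_countable t₀ x₀ y₀ col (L A) (M A)).to_subtype
  have hDi : ∀ A, Infinite (D A) := by
    intro A
    obtain ⟨j, hj⟩ := hw.nonemptyE
    have hinj : Function.Injective (fun x : L A => (⟨Sum.inr (x.1, col j),
        Or.inr (Or.inl ⟨x.1, x.2, j, hj, rfl⟩)⟩ : D A)) := by
      intro x y hxy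
      have := congrArg Subtype.val hxy
      simp only [Sum.inr.injEq, Prod.mk.injEq, and_true] at this
      exact Subtype.ext this
    have := (hpos A).Linf.to_subtype
    exact Infinite.of_injective _ hinj
  have hτA : ∀ A, ∃ τ : Fin r → D A, ∀ j, j ∉ EE t₀ x₀ → j ∉ EE t₀ y₀ → (τ j).1 = t₀ j := by
    intro A
    have := hDi A
    obtain ⟨v⟩ : Nonempty (D A) := inferInstance
    refine ⟨fun j => if h : j ∉ EE t₀ x₀ ∧ j ∉ EE t₀ y₀ then ⟨t₀ j, Or.inl ⟨j, h.1, h.2, rfl⟩⟩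
      else v, fun j h1 h2 => ?_⟩
    simp [h1, h2]
  choose τ hτ using hτA
  have hrec : ∀ A, codeSet A = {i | ∃ m ∈ inv (cD c (D A)) (EE t₀ x₀) (EE t₀ y₀) (τ A),
      n i ≤ m ∧ m ≤ n i * C} := by
    intro A
    ext i
    constructor
    · intro hi
      obtain ⟨m, hm, h1, h2⟩ := inv_hit hw (hpos A) (τ A) (hτ A) hi (by
        rw [← Finset.card_pos, hcard]; exact hn0 i)
      rw [hcard] at h1 h2
      exact ⟨m, hm, h1, h2⟩
    · rintro ⟨m, hm, h1, h2⟩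
      rcases inv_sizes hw (hpos A) (τ A) (hτ A) hm with h3 | ⟨i', hi', h3, h4⟩
      · have := hnC i
        rw [← hC] at h3
        omega
      · rw [hcard] at h3 h4
        rw [hnuniq i i' m h1 h2 h3 h4]
        exact hi'
  refine cont_of_family (fun A => D A) hDc hDi (fun A => cD c (D A)) (fun A => ?_) (fun A => ?_)
  · exact hS.pull _ Subtype.val_injective
  · have := hDc A
    refine Set.MapsTo.countable_of_injOn (f := fun B => if h : Isom (cD c (D A)) (cD c (D B)) then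
      h.choose.symm ∘ τ B else τ A) (t := Set.univ) (fun _ _ => Set.mem_univ _) ?_
      Set.countable_univ
    intro B hB B' hB' hBB
    have hB : Isom (cD c (D A)) (cD c (D B)) := hB
    have hB' : Isom (cD c (D A)) (cD c (D B')) := hB'
    simp only [dif_pos hB, dif_pos hB'] at hBB
    have h1 : ∀ (B) (hB : Isom (cD c (D A)) (cD c (D B))),
        inv (cD c (D A)) (EE t₀ x₀) (EE t₀ y₀) (hB.choose.symm ∘ τ B) =
          inv (cD c (D B)) (EE t₀ x₀) (EE t₀ y₀) (τ B) := by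
      intro B hB
      rw [inv_iso hB.choose hB.choose_spec]
      congr 1
      funext j
      simp
    apply codeSet_inj
    rw [hrec B, hrec B', ← h1 B hB, ← h1 B' hB', hBB]

end Pool.Agent.H566V
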