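import Pool.Agent.H566V.Sep

/-!
Structures made of a finite set and infinitely many copies of finite rows.
-/

set_option autoImplicit false

namespace Pool.Agent.H566V

open Set Filter Topology

variable {r : ℕ} {K V G W' : Type}

/-- positions of the rows -/
def nu (m k : ℕ) : ℚ := (Nat.pair m k : ℚ)

theorem nu_inj {m k m' k' : ℕ} (h : nu m k = nu m' k') : m = m' ∧ k = k' := by
  have h0 : (Nat.pair m k : ℚ) = (Nat.pair m' k' : ℚ) := h
  have h1 : Nat.pair m k = Nat.pair m' k' := by exact_mod_cast h0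
  exact Nat.pair_eq_pair.1 h1

/-- the universe -/
def DI (P : Finset V) (Z : ℕ → Finset G) (I : Set ℕ) : Set (V ⊕ (ℚ × G)) :=
  {v | (∃ w ∈ P, v = Sum.inl w) ∨ ∃ m ∈ I, ∃ k, ∃ g ∈ Z m, v = Sum.inr (nu m k, g)}

abbrev TI (P : Finset V) (Z : ℕ → Finset G) (I : Set ℕ) : Type := DI P Z I

variable {P : Finset V} {Z : ℕ → Finset G} {I : Set ℕ}

theorem DI_row {v : V ⊕ (ℚ × G)} (hv : v ∈ DI P Z I) {m k : ℕ} (h : row v = some (nu m k)) :
    m ∈ I ∧ ∃ g ∈ Z m, v = Sum.inr (nu m k, g) := by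
  rcases hv with ⟨w, -, rfl⟩ | ⟨m', hm', k', g, hg, rfl⟩
  · simp at h
  · simp only [row_inr, Option.some.injEq] at h
    obtain ⟨rfl, rfl⟩ := nu_inj h
    exact ⟨hm', g, hg, rfl⟩

theorem row_fin (P : Finset V) (Z : ℕ → Finset G) (I : Set ℕ) (m k : ℕ) :
    {v : TI P Z I | row v.1 = some (nu m k)}.Finite := by
  classical
  have h1 : (((Z m).image (fun g => (Sum.inr (nu m k, g) : V ⊕ (ℚ × G))) : Finset _) :
      Set (V ⊕ (ℚ × G))).Finite := Finset.finite_toSet _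
  refine (h1.preimage (f := fun v : TI P Z I => v.1) Subtype.val_injective.injOn).subset ?_
  intro v hv
  obtain ⟨-, g, hg, h⟩ := DI_row v.2 hv
  exact Finset.mem_coe.2 (Finset.mem_image.2 ⟨g, hg, h.symm⟩)

/-- a row -/
noncomputable def RB (P : Finset V) (Z : ℕ → Finset G) (I : Set ℕ) (m k : ℕ) :
    Finset (TI P Z I) := (row_fin P Z I m k).toFinset

theorem mem_RB {m k : ℕ} {v : TI P Z I} : v ∈ RB P Z I m k ↔ row v.1 = some (nu m k) := by
  rw [RB, Set.Finite.mem_toFinset]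
  rfl

theorem mem_RB' {m k : ℕ} {v : TI P Z I} (h : v ∈ RB P Z I m k) :
    m ∈ I ∧ ∃ g ∈ Z m, v.1 = Sum.inr (nu m k, g) := DI_row v.2 (mem_RB.1 h)

theorem mv_mem_DI {v : V ⊕ (ℚ × G)} (hv : v ∈ DI P Z I) (m k k' : ℕ) :
    mv (Equiv.swap (nu m k) (nu m k')) v ∈ DI P Z I := by
  rcases hv with ⟨w, hw, rfl⟩ | ⟨m', hm', k'', g, hg, rfl⟩
  · exact Or.inl ⟨w, hw, rfl⟩
  · rw [mv_inr]
    by_cases h1 : nu m' k'' = nu m k
    · obtain ⟨rfl, rfl⟩ := nu_inj h1
      rw [Equiv.swap_apply_left]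
      exact Or.inr ⟨m', hm', k', g, hg, rfl⟩
    · by_cases h2 : nu m' k'' = nu m k'
      · obtain ⟨rfl, rfl⟩ := nu_inj h2
        rw [Equiv.swap_apply_right]
        exact Or.inr ⟨m', hm', k, g, hg, rfl⟩
      · rw [Equiv.swap_apply_of_ne_of_ne h1 h2]
        exact Or.inr ⟨m', hm', k'', g, hg, rfl⟩

/-- exchange of two rows -/
def mvD (m k k' : ℕ) (v : TI P Z I) : TI P Z I :=
  ⟨mv (Equiv.swap (nu m k) (nu m k')) v.1, mv_mem_DI v.2 m k k'⟩

theorem mvD_mvD (m k k' : ℕ) (v : TI P Z I) : mvD m k k' (mvD m k k' v) = v := by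
  apply Subtype.ext
  simp only [mvD]
  rw [mv_mv]
  apply mv_id
  intro y _
  simp

theorem row_mvD {m k k' : ℕ} {v : TI P Z I} (h : row v.1 = some (nu m k)) :
    row (mvD m k k' v).1 = some (nu m k') := by
  simp only [mvD, row_mv, h, Option.map_some, Equiv.swap_apply_left]

theorem row_mvD' {m k k' : ℕ} {v : TI P Z I} (h : row v.1 = some (nu m k')) :
    row (mvD m k k' v).1 = some (nu m k) := by
  simp only [mvD, row_mv, h, Option.map_some, Equiv.swap_apply_right]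

/-- the copies of a row -/
def hD (m k₀ : ℕ) (i : ℕ) : TI P Z I → TI P Z I := mvD m k₀ (Equiv.swap 0 k₀ i)

theorem hD_val {m k₀ i : ℕ} {v : TI P Z I} {g : G} (h : v.1 = Sum.inr (nu m k₀, g)) :
    (hD m k₀ i v).1 = Sum.inr (nu m (Equiv.swap 0 k₀ i), g) := by
  simp only [hD, mvD]
  rw [h, mv_inr, Equiv.swap_apply_left]

theorem hinj_RB (m k₀ : ℕ) : HInj (RB P Z I m k₀) (hD m k₀) := by
  intro i j a ha b hb hab
  obtain ⟨-, g, -, hg⟩ := mem_RB' ha
  obtain ⟨-, g', -, hg'⟩ := mem_RB' hb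
  have h1 := congrArg Subtype.val hab
  rw [hD_val hg, hD_val hg', Sum.inr.injEq, Prod.mk.injEq] at h1
  refine ⟨(Equiv.swap 0 k₀).injective (nu_inj h1.1).2, Subtype.ext ?_⟩
  rw [hg, hg', h1.2]

/-- the columns of a subset of a row -/
def colsOf (m k₀ : ℕ) (X : Finset (TI P Z I)) : Set G :=
  {g | ∃ v ∈ X, v.1 = Sum.inr (nu m k₀, g)}

theorem swp_val {m k₀ : ℕ} {X : Finset (TI P Z I)} (hX : X ⊆ RB P Z I m k₀) (i j : ℕ)
    (u : TI P Z I) : (swp X (hD m k₀) i j u).1 =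
      sw (colsOf m k₀ X) (nu m (Equiv.swap 0 k₀ i)) (nu m (Equiv.swap 0 k₀ j)) u.1 := by
  have H : HInj X (hD m k₀) := (hinj_RB m k₀).mono hX
  by_cases hex : ∃ a ∈ X, hD m k₀ i a = u
  · obtain ⟨a, ha, rfl⟩ := hex
    obtain ⟨-, g, -, hg⟩ := mem_RB' (hX ha)
    rw [swp_left H i j ha, hD_val hg, hD_val hg, sw_mem _ _ (show g ∈ colsOf m k₀ X from
      ⟨a, ha, hg⟩), Equiv.swap_apply_left]
  · by_cases hex' : ∃ a ∈ X, hD m k₀ j a = u
    · obtain ⟨a, ha, rfl⟩ := hex'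
      obtain ⟨-, g, -, hg⟩ := mem_RB' (hX ha)
      rw [swp_right H i j ha, hD_val hg, hD_val hg, sw_mem _ _ (show g ∈ colsOf m k₀ X from
        ⟨a, ha, hg⟩), Equiv.swap_apply_right]
    · push Not at hex hex'
      rw [swp_other hex hex']
      rcases hu : u.1 with a | ⟨x, g⟩
      · rfl
      · by_cases hg : g ∈ colsOf m k₀ X
        · rw [sw_mem _ _ hg]
          obtain ⟨a, ha, hag⟩ := hg
          rw [Equiv.swap_apply_of_ne_of_ne]
          · intro hx
            apply hex a ha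
            apply Subtype.ext
            rw [hD_val hag, hu, hx]
          · intro hx
            apply hex' a ha
            apply Subtype.ext
            rw [hD_val hag, hu, hx]
        · rw [sw_notMem _ _ hg]

theorem colsOf_RB {m k₀ : ℕ} (hm : m ∈ I) : colsOf m k₀ (RB P Z I m k₀) = Z m := by
  ext g
  constructor
  · rintro ⟨v, hv, hvg⟩
    obtain ⟨-, g', hg', h⟩ := mem_RB' hv
    rw [hvg, Sum.inr.injEq, Prod.mk.injEq] at h
    rw [h.2]; exact hg'
  · intro hg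
    exact ⟨⟨Sum.inr (nu m k₀, g), Or.inr ⟨m, hm, k₀, g, hg, rfl⟩⟩, mem_RB.2 rfl, rfl⟩

theorem fam_RB {c : Str r K (V ⊕ (ℚ × G))} (hc : FullSym c) (m k₀ : ℕ) :
    Fam (cD c (DI P Z I)) (RB P Z I m k₀) (hD m k₀) := by
  refine ⟨fun a ha => ?_, hinj_RB m k₀, fun i j t => ?_⟩
  · obtain ⟨-, g, -, hg⟩ := mem_RB' ha
    apply Subtype.ext
    rw [hD_val hg, Equiv.swap_apply_left, hg]
  · have h1 : (fun l => ((swp (RB P Z I m k₀) (hD m k₀) i j ∘ t) l).1) =
        mv (Equiv.swap (nu m (Equiv.swap 0 k₀ i)) (nu m (Equiv.swap 0 k₀ j))) ∘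
          (fun l => (t l).1) := by
      funext l
      simp only [Function.comp]
      rw [swp_val (Finset.Subset.refl _)]
      rcases hu : (t l).1 with a | ⟨x, g⟩
      · rfl
      · by_cases hg : g ∈ colsOf m k₀ (RB P Z I m k₀)
        · rw [sw_mem _ _ hg, mv_inr]
        · rw [sw_notMem _ _ hg, mv_inr, Equiv.swap_apply_of_ne_of_ne]
          · intro hx
            rw [hx] at hu
            obtain ⟨hm, g', hg', h⟩ := DI_row (t l).2 (by rw [hu]; rfl)
            rw [hu, Sum.inr.injEq, Prod.mk.injEq] at h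
            apply hg
            rw [colsOf_RB hm, h.2]
            exact hg'
          · intro hx
            rw [hx] at hu
            obtain ⟨hm, g', hg', h⟩ := DI_row (t l).2 (by rw [hu]; rfl)
            rw [hu, Sum.inr.injEq, Prod.mk.injEq] at h
            apply hg
            rw [colsOf_RB hm, h.2]
            exact hg'
    unfold cD
    rw [h1]
    exact hc _ _ (Equiv.injective _).injOn

/-- blocks contained in a row move with the row -/
theorem sepD_of_blk {c : Str r K (V ⊕ (ℚ × G))} (hc : FullSym c) {m k₀ : ℕ}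
    {X : Finset (TI P Z I)} (hX : X ⊆ RB P Z I m k₀) (hb : Blk (cD c (DI P Z I)) X) (k k' : ℕ) :
    AutOn c (DI P Z I) (sw (colsOf m k₀ X) (nu m k) (nu m k')) := by
  classical
  obtain ⟨g, hg⟩ := hb
  have h1 := (fam_RB (P := P) (Z := Z) (I := I) hc m k₀).inter hg
  have h2 : RB P Z I m k₀ ∩ X = X := Finset.inter_eq_right.2 hX
  rw [h2] at h1
  intro t ht
  have h3 := h1.aut (Equiv.swap 0 k₀ k) (Equiv.swap 0 k₀ k') (fun l => ⟨t l, ht l⟩)
  have h4 : (fun l => ((swp X (hD m k₀) (Equiv.swap 0 k₀ k) (Equiv.swap 0 k₀ k') ∘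
      (fun l => (⟨t l, ht l⟩ : TI P Z I))) l).1) = sw (colsOf m k₀ X) (nu m k) (nu m k') ∘ t := by
    funext l
    simp only [Function.comp]
    rw [swp_val hX, Equiv.swap_apply_self, Equiv.swap_apply_self]
  unfold cD at h3
  rw [h4] at h3
  exact h3

theorem TI_countable (P : Finset V) (Z : ℕ → Finset G) (I : Set ℕ) : Countable (TI P Z I) := by
  classical
  have h1 : ((Set.range (fun w : P => (Sum.inl w.1 : V ⊕ (ℚ × G)))) ∪
      ⋃ m : ℕ, Set.range (fun x : ℕ × Z m => (Sum.inr (nu m x.1, x.2.1) : V ⊕ (ℚ × G)))).Countable :=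
    (Set.countable_range _).union (Set.countable_iUnion fun m => Set.countable_range _)
  refine (h1.mono ?_).to_subtype
  rintro v (⟨w, hw, rfl⟩ | ⟨m, -, k, g, hg, rfl⟩)
  · exact Or.inl ⟨⟨w, hw⟩, rfl⟩
  · exact Or.inr (Set.mem_iUnion.2 ⟨m, (k, ⟨g, hg⟩), rfl⟩)

/-- The main criterion. -/
theorem cont_of_rows {S : Str r K W'} {c : Str r K (V ⊕ (ℚ × G))} (hc : FullSym c)
    (hS : Cls S c) (P : Finset V) (Z : ℕ → Finset G) (hZ : ∀ m, (Z m).Nonempty) (k₀ : ℕ)
    (α β : ℕ → ℕ) (hk₀ : ∀ m, k₀ < α m) (hαβ : ∀ m m', m < m' → β m < α m')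
    (H1 : ∀ (I : Set ℕ) (m k : ℕ), m ∈ I → ∀ X ⊆ RB P Z I m k, Ind (cD c (DI P Z I)) X →
      X.card ≤ k₀ ∨ (α m ≤ X.card ∧ X.card ≤ β m))
    (H2 : ∀ (I : Set ℕ) (m : ℕ), m ∈ I → ∃ k, ∃ X ⊆ RB P Z I m k, Ind (cD c (DI P Z I)) X ∧
      α m ≤ X.card) : Cont S := by
  classical
  refine cont_of_siz (fun A => TI P Z (codeSet A)) (fun A => TI_countable _ _ _) (fun A => ?_)
    (fun A => cD c (DI P Z (codeSet A))) (fun A => hS.pull _ Subtype.val_injective) ?_
  · obtain ⟨m, hm⟩ := (codeSet_infinite A).nonempty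
    obtain ⟨g, hg⟩ := hZ m
    have hmem : ∀ k, (Sum.inr (nu m k, g) : V ⊕ (ℚ × G)) ∈ DI P Z (codeSet A) :=
      fun k => Or.inr ⟨m, hm, k, g, hg, rfl⟩
    have hinj : Function.Injective (fun k : ℕ => (⟨Sum.inr (nu m k, g), hmem k⟩ :
        TI P Z (codeSet A))) := by
      intro k k' hkk
      have := congrArg Subtype.val hkk
      simp only [Sum.inr.injEq, Prod.mk.injEq, and_true] at this
      exact (nu_inj this).2
    exact Infinite.of_injective _ hinj
  · have hsub : ∀ A n, n ∈ Siz (cD c (DI P Z (codeSet A))) →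
        n ≤ k₀ ∨ ∃ m ∈ codeSet A, α m ≤ n ∧ n ≤ β m := by
      intro A n hn
      have hPfin : {v : TI P Z (codeSet A) | ∃ w ∈ P, v.1 = Sum.inl w}.Finite := by
        have h1 : ((P.image (fun w => (Sum.inl w : V ⊕ (ℚ × G))) : Finset _) :
            Set (V ⊕ (ℚ × G))).Finite := Finset.finite_toSet _
        refine (h1.preimage (f := fun v : TI P Z (codeSet A) => v.1)
          Subtype.val_injective.injOn).subset ?_
        rintro v ⟨w, hw, hvw⟩
        exact Finset.mem_coe.2 (Finset.mem_image.2 ⟨w, hw, hvw.symm⟩)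
      refine siz_subset (c := cD c (DI P Z (codeSet A))) hPfin.toFinset
        {B | ∃ m ∈ codeSet A, ∃ k, B = RB P Z (codeSet A) m k} ?_ ?_
        {n | n ≤ k₀ ∨ ∃ m ∈ codeSet A, α m ≤ n ∧ n ≤ β m} ?_ hn
      · rintro B ⟨m, hm, k, rfl⟩
        exact ⟨_, fam_RB hc m k⟩
      · intro u hu
        have hu2 : u.1 ∈ DI P Z (codeSet A) := u.2
        rcases hu2 with ⟨w, hw, h⟩ | ⟨m, hm, k, g, hg, h⟩
        · exact absurd ((Set.Finite.mem_toFinset hPfin).2 (show _ ∈ {v : TI P Z (codeSet A) |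
            ∃ w ∈ P, v.1 = Sum.inl w} from ⟨w, hw, h⟩)) hu
        · exact ⟨RB P Z (codeSet A) m k, ⟨m, hm, k, rfl⟩, mem_RB.2 (by rw [h]; rfl)⟩
      · rintro B ⟨m, hm, k, rfl⟩ Y hY hYi
        rcases H1 (codeSet A) m k hm Y hY hYi with h | h
        · exact Or.inl h
        · exact Or.inr ⟨m, hm, h⟩
    have hsup : ∀ A m, m ∈ codeSet A → ∃ n ∈ Siz (cD c (DI P Z (codeSet A))),
        α m ≤ n ∧ n ≤ β m := by
      intro A m hm
      obtain ⟨k, X, hX, hXi, hXc⟩ := H2 (codeSet A) m hm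
      refine ⟨X.card, ⟨X, hXi, rfl⟩, hXc, ?_⟩
      rcases H1 (codeSet A) m k hm X hX hXi with h | h
      · have := hk₀ m
        omega
      · exact h.2
    have hle : ∀ A B, Siz (cD c (DI P Z (codeSet A))) = Siz (cD c (DI P Z (codeSet B))) →
        codeSet A ⊆ codeSet B := by
      intro A B hAB m hm
      obtain ⟨n, hn, h1, h2⟩ := hsup A m hm
      rw [hAB] at hn
      rcases hsub B n hn with h3 | ⟨m', hm', h3, h4⟩
      · have := hk₀ m
        omega
      · rcases lt_trichotomy m m' with h | h | h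
        · have := hαβ m m' h
          omega
        · rw [h]; exact hm'
        · have := hαβ m' m h
          omega
    intro A B hAB
    exact codeSet_inj (Set.Subset.antisymm (hle A B hAB) (hle B A hAB.symm))

end Pool.Agent.H566V
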