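import Pool.Agent.H566V.El

/-!
Separated sets of columns.
-/

set_option autoImplicit false

namespace Pool.Agent.H566V

open Set Filter Topology

variable {r : ℕ} {K V G W' : Type}

open Classical in
/-- move the rows of the columns in `Y` -/
noncomputable def mvY (Y : Set G) (f : ℚ → ℚ) : V ⊕ (ℚ × G) → V ⊕ (ℚ × G) :=
  Sum.map id (fun x => if x.2 ∈ Y then (f x.1, x.2) else x)

@[simp] theorem mvY_inl (Y : Set G) (f : ℚ → ℚ) (a : V) :
    mvY Y f (Sum.inl a : V ⊕ (ℚ × G)) = Sum.inl a := rfl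

theorem mvY_mem {Y : Set G} (f : ℚ → ℚ) {x : ℚ} {g : G} (h : g ∈ Y) :
    mvY Y f (Sum.inr (x, g) : V ⊕ (ℚ × G)) = Sum.inr (f x, g) := by
  simp [mvY, h]

theorem mvY_notMem {Y : Set G} (f : ℚ → ℚ) {x : ℚ} {g : G} (h : g ∉ Y) :
    mvY Y f (Sum.inr (x, g) : V ⊕ (ℚ × G)) = Sum.inr (x, g) := by
  simp [mvY, h]

/-- exchange two rows of the columns in `Y` -/
noncomputable def sw (Y : Set G) (x y : ℚ) : V ⊕ (ℚ × G) → V ⊕ (ℚ × G) :=
  mvY Y (Equiv.swap x y)

@[simp] theorem sw_inl (Y : Set G) (x y : ℚ) (a : V) :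
    sw Y x y (Sum.inl a : V ⊕ (ℚ × G)) = Sum.inl a := rfl

theorem sw_mem {Y : Set G} (x y : ℚ) {z : ℚ} {g : G} (h : g ∈ Y) :
    sw Y x y (Sum.inr (z, g) : V ⊕ (ℚ × G)) = Sum.inr (Equiv.swap x y z, g) := mvY_mem _ h

theorem sw_notMem {Y : Set G} (x y : ℚ) {z : ℚ} {g : G} (h : g ∉ Y) :
    sw Y x y (Sum.inr (z, g) : V ⊕ (ℚ × G)) = Sum.inr (z, g) := mvY_notMem _ h

theorem sw_sw (Y : Set G) (x y : ℚ) (v : V ⊕ (ℚ × G)) : sw Y x y (sw Y x y v) = v := by
  rcases v with a | ⟨z, g⟩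
  · rfl
  · by_cases h : g ∈ Y
    · rw [sw_mem _ _ h, sw_mem _ _ h, Equiv.swap_apply_self]
    · rw [sw_notMem _ _ h, sw_notMem _ _ h]

/-- elements with columns in `Z` -/
def EZ (Z : Set G) : Set (V ⊕ (ℚ × G)) := {v | ∀ x g, v = Sum.inr (x, g) → g ∈ Z}

theorem inr_mem_EZ {Z : Set G} {x : ℚ} {g : G} : (Sum.inr (x, g) : V ⊕ (ℚ × G)) ∈ EZ Z ↔ g ∈ Z := by
  constructor
  · intro h; exact h x g rfl
  · intro h y g' he
    rw [Sum.inr.injEq, Prod.mk.injEq] at he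
    rw [← he.2]; exact h

theorem inl_mem_EZ {Z : Set G} {a : V} : (Sum.inl a : V ⊕ (ℚ × G)) ∈ EZ Z := by
  intro y g' he
  exact absurd he (by simp)

theorem mvY_mem_EZ {Z Y : Set G} {f : ℚ → ℚ} {v : V ⊕ (ℚ × G)} (h : v ∈ EZ Z) :
    mvY Y f v ∈ EZ Z := by
  rcases v with a | ⟨z, g⟩
  · exact inl_mem_EZ
  · rw [inr_mem_EZ] at h
    by_cases hg : g ∈ Y
    · rw [mvY_mem _ hg, inr_mem_EZ]; exact h
    · rw [mvY_notMem _ hg, inr_mem_EZ]; exact h

theorem sw_mem_EZ {Z Y : Set G} {x y : ℚ} {v : V ⊕ (ℚ × G)} (h : v ∈ EZ Z) : sw Y x y v ∈ EZ Z :=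
  mvY_mem_EZ h

/-- invariance on a subset -/
def AutOn {U : Type} (c : Str r K U) (D : Set U) (s : U → U) : Prop :=
  ∀ t : Fin r → U, (∀ j, t j ∈ D) → c (s ∘ t) = c t

/-- separated sets of columns -/
def Sep (c : Str r K (V ⊕ (ℚ × G))) (Z Y : Set G) : Prop := ∀ x y, AutOn c (EZ Z) (sw Y x y)

theorem Sep.mono {c : Str r K (V ⊕ (ℚ × G))} {Z Z' Y : Set G} (h : Sep c Z Y) (hZ : Z' ⊆ Z) :
    Sep c Z' Y := fun x y t ht => h x y t (fun j x' g he => hZ (ht j x' g he))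

theorem sw_eq_mv {Z Y : Set G} (h : Z ⊆ Y) {x y : ℚ} {v : V ⊕ (ℚ × G)} (hv : v ∈ EZ Z) :
    sw Y x y v = mv (Equiv.swap x y) v := by
  rcases v with a | ⟨z, g⟩
  · rfl
  · rw [inr_mem_EZ] at hv
    rw [sw_mem _ _ (h hv)]
    rfl

theorem sep_self {c : Str r K (V ⊕ (ℚ × G))} (hc : FullSym c) {Z Y : Set G} (hY : Z ⊆ Y) :
    Sep c Z Y := by
  intro x y t ht
  have h1 : sw Y x y ∘ t = mv (Equiv.swap x y) ∘ t := by
    funext j
    exact sw_eq_mv hY (ht j)
  rw [h1]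
  exact hc t _ (Equiv.injective _).injOn

theorem Sep.compl {c : Str r K (V ⊕ (ℚ × G))} (hc : FullSym c) {Z Y : Set G} (h : Sep c Z Y) :
    Sep c Z Yᶜ := by
  intro x y t ht
  have h1 : sw Yᶜ x y ∘ t = mv (Equiv.swap x y) ∘ (sw Y x y ∘ t) := by
    funext j
    simp only [Function.comp]
    rcases t j with a | ⟨z, g⟩
    · rfl
    · by_cases hg : g ∈ Y
      · rw [sw_mem _ _ hg, sw_notMem _ _ (show g ∉ Yᶜ from fun h => h hg), mv_inr,
          Equiv.swap_apply_self]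
      · rw [sw_notMem _ _ hg, sw_mem _ _ (show g ∈ Yᶜ from hg), mv_inr]
  rw [h1, hc _ _ (Equiv.injective _).injOn]
  exact h x y t ht

/-- the commutator identity on rows -/
theorem swap_comm_id {x y a b w : ℚ} (hxy : x ≠ y) (hxa : x ≠ a) (hxb : x ≠ b)
    (hya : y ≠ a) (hyb : y ≠ b) (hab : a ≠ b) (hwa : w ≠ a) (hwb : w ≠ b) :
    Equiv.swap x b (Equiv.swap x a (Equiv.swap x b (Equiv.swap x a (Equiv.swap x y (Equiv.swap x a
      (Equiv.swap x y (Equiv.swap x a w))))))) = Equiv.swap x y w ∧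
    Equiv.swap x b (Equiv.swap x b (Equiv.swap x y (Equiv.swap x y w))) = w ∧
    Equiv.swap x a (Equiv.swap x a (Equiv.swap x a (Equiv.swap x a w))) = w := by
  refine ⟨?_, by simp, by simp⟩
  by_cases h1 : w = x
  · subst h1
    rw [Equiv.swap_apply_left, Equiv.swap_apply_of_ne_of_ne hxa.symm hya.symm,
      Equiv.swap_apply_right, Equiv.swap_apply_left,
      Equiv.swap_apply_of_ne_of_ne hxy.symm hya, Equiv.swap_apply_of_ne_of_ne hxy.symm hyb,
      Equiv.swap_apply_of_ne_of_ne hxy.symm hya, Equiv.swap_apply_of_ne_of_ne hxy.symm hyb]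
  · by_cases h2 : w = y
    · subst h2
      rw [Equiv.swap_apply_of_ne_of_ne h1 hwa, Equiv.swap_apply_right, Equiv.swap_apply_left,
        Equiv.swap_apply_of_ne_of_ne hxa.symm hwa.symm, Equiv.swap_apply_right,
        Equiv.swap_apply_left, Equiv.swap_apply_of_ne_of_ne hxb.symm hab.symm,
        Equiv.swap_apply_right]
    · rw [Equiv.swap_apply_of_ne_of_ne h1 hwa, Equiv.swap_apply_of_ne_of_ne h1 h2,
        Equiv.swap_apply_of_ne_of_ne h1 hwa, Equiv.swap_apply_of_ne_of_ne h1 h2,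
        Equiv.swap_apply_of_ne_of_ne h1 hwa, Equiv.swap_apply_of_ne_of_ne h1 hwb,
        Equiv.swap_apply_of_ne_of_ne h1 hwa, Equiv.swap_apply_of_ne_of_ne h1 hwb]

theorem exists_fresh_row (R : Finset ℚ) : ∃ x : ℚ, x ∉ R :=
  ⟨_, (Set.Infinite.exists_notMem_finset (Set.infinite_univ (α := ℚ)) R).choose_spec.2⟩

theorem Sep.inter {c : Str r K (V ⊕ (ℚ × G))} {Z Y Y' : Set G} (h : Sep c Z Y)
    (h' : Sep c Z Y') : Sep c Z (Y ∩ Y') := by
  classical
  intro x y t ht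
  by_cases hxy : x = y
  · subst hxy
    congr 1
    funext j
    simp only [Function.comp]
    rcases t j with a | ⟨z, g⟩
    · rfl
    · by_cases hg : g ∈ Y ∩ Y'
      · rw [sw_mem _ _ hg]; simp
      · rw [sw_notMem _ _ hg]
  obtain ⟨a, ha⟩ := exists_fresh_row (insert x (insert y (rows t)))
  obtain ⟨b, hb⟩ := exists_fresh_row (insert a (insert x (insert y (rows t))))
  simp only [Finset.mem_insert, not_or] at ha hb
  have key : sw (Y ∩ Y') x y ∘ t = sw Y x b ∘ (sw Y' x a ∘ (sw Y x b ∘ (sw Y' x a ∘ (sw Y x y ∘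
      (sw Y' x a ∘ (sw Y x y ∘ (sw Y' x a ∘ t))))))) := by
    funext j
    simp only [Function.comp]
    rcases hj : t j with v | ⟨w, g⟩
    · rfl
    · have hw : w ∈ rows t := mem_rows.2 ⟨j, by rw [hj]; rfl⟩
      have hid := swap_comm_id (w := w) hxy (Ne.symm ha.1) (Ne.symm hb.2.1) (Ne.symm ha.2.1)
        (Ne.symm hb.2.2.1) (Ne.symm hb.1) (fun h => ha.2.2 (h ▸ hw)) (fun h => hb.2.2.2 (h ▸ hw))
      by_cases h1 : g ∈ Y
      · by_cases h2 : g ∈ Y'
        · rw [sw_mem _ _ (show g ∈ Y ∩ Y' from ⟨h1, h2⟩)]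
          simp only [sw_mem _ _ h1, sw_mem _ _ h2]
          rw [hid.1]
        · rw [sw_notMem _ _ (fun h => h2 h.2)]
          simp only [sw_mem _ _ h1, sw_notMem _ _ h2]
          rw [hid.2.1]
      · by_cases h2 : g ∈ Y'
        · rw [sw_notMem _ _ (fun h => h1 h.1)]
          simp only [sw_notMem _ _ h1, sw_mem _ _ h2]
          rw [hid.2.2]
        · rw [sw_notMem _ _ (fun h => h1 h.1)]
          simp only [sw_notMem _ _ h1, sw_notMem _ _ h2]
  have m1 : ∀ (s : Fin r → V ⊕ (ℚ × G)) (Y : Set G) (x y : ℚ), (∀ j, s j ∈ EZ Z) →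
      ∀ j, (sw Y x y ∘ s) j ∈ EZ Z := fun s Y x y hs j => sw_mem_EZ (hs j)
  rw [key]
  rw [h _ _ _ (m1 _ _ _ _ (m1 _ _ _ _ (m1 _ _ _ _ (m1 _ _ _ _ (m1 _ _ _ _ (m1 _ _ _ _
    (m1 _ _ _ _ ht))))))),
    h' _ _ _ (m1 _ _ _ _ (m1 _ _ _ _ (m1 _ _ _ _ (m1 _ _ _ _ (m1 _ _ _ _ (m1 _ _ _ _ ht)))))),
    h _ _ _ (m1 _ _ _ _ (m1 _ _ _ _ (m1 _ _ _ _ (m1 _ _ _ _ (m1 _ _ _ _ ht))))),
    h' _ _ _ (m1 _ _ _ _ (m1 _ _ _ _ (m1 _ _ _ _ (m1 _ _ _ _ ht)))),
    h _ _ _ (m1 _ _ _ _ (m1 _ _ _ _ (m1 _ _ _ _ ht))),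
    h' _ _ _ (m1 _ _ _ _ (m1 _ _ _ _ ht)),
    h _ _ _ (m1 _ _ _ _ ht), h' _ _ _ ht]

theorem Sep.congr {c : Str r K (V ⊕ (ℚ × G))} {Z Y Y' : Set G} (h : Sep c Z Y)
    (hY : ∀ g ∈ Z, g ∈ Y ↔ g ∈ Y') : Sep c Z Y' := by
  intro x y t ht
  rw [← h x y t ht]
  congr 1
  funext j
  simp only [Function.comp]
  have := ht j
  rcases hj : t j with a | ⟨z, g⟩
  · rfl
  · rw [hj, inr_mem_EZ] at this
    by_cases hg : g ∈ Y
    · rw [sw_mem _ _ hg, sw_mem _ _ ((hY g this).1 hg)]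
    · rw [sw_notMem _ _ hg, sw_notMem _ _ (fun h => hg ((hY g this).2 h))]

/-- indecomposable sets of columns -/
def Indec (c : Str r K (V ⊕ (ℚ × G))) (C : Finset G) : Prop :=
  C.Nonempty ∧ ∀ Y ⊆ C, Y.Nonempty → Sep c C Y → Y = C

/-- The component of a column. -/
theorem exists_comp {c : Str r K (V ⊕ (ℚ × G))} (hc : FullSym c) (Z : Finset G) {z : G}
    (hz : z ∈ Z) : ∃ C ⊆ Z, z ∈ C ∧ Sep c Z C ∧ (∀ Y ⊆ C, Y.Nonempty → Sep c Z Y → Y = C) ∧
      ∀ Y : Finset G, z ∈ Y → Sep c Z Y → C ⊆ Y := by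
  classical
  have hne : (Z.powerset.filter (fun Y : Finset G => z ∈ Y ∧ Sep c Z Y)).Nonempty :=
    ⟨Z, Finset.mem_filter.2 ⟨Finset.mem_powerset_self Z, hz, sep_self hc (Set.Subset.refl _)⟩⟩
  obtain ⟨C, hC, hmin⟩ := Finset.exists_min_image _ Finset.card hne
  obtain ⟨hC1, hC2, hC3⟩ := Finset.mem_filter.1 hC
  rw [Finset.mem_powerset] at hC1
  have hmin' : ∀ Y : Finset G, z ∈ Y → Sep c Z Y → C ⊆ Y := by
    intro Y hzY hY
    have h1 : Sep c Z (C ∩ Y : Finset G) := by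
      rw [Finset.coe_inter]
      exact hC3.inter hY
    have h2 := hmin (C ∩ Y) (Finset.mem_filter.2 ⟨Finset.mem_powerset.2
      (Finset.inter_subset_left.trans hC1), Finset.mem_inter.2 ⟨hC2, hzY⟩, h1⟩)
    have h3 := Finset.eq_of_subset_of_card_le Finset.inter_subset_left h2
    rw [← h3]
    exact Finset.inter_subset_right
  refine ⟨C, hC1, hC2, hC3, fun Y hY hYne hYs => ?_, hmin'⟩
  by_cases hzY : z ∈ Y
  · exact Finset.Subset.antisymm hY (hmin' Y hzY hYs)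
  · exfalso
    have h1 : Sep c Z (C \ Y : Finset G) := by
      rw [Finset.coe_sdiff, Set.sdiff_eq]
      exact hC3.inter (hYs.compl hc)
    have h2 := hmin' _ (Finset.mem_sdiff.2 ⟨hC2, hzY⟩) h1
    obtain ⟨y, hy⟩ := hYne
    exact (Finset.mem_sdiff.1 (h2 (hY hy))).2 hy

/-- substitution of the elements of a row -/
def sb (x₀ : ℚ) (φ : G → V) : V ⊕ (ℚ × G) → V ⊕ (ℚ × G) :=
  Sum.elim Sum.inl (fun x => if x.1 = x₀ then Sum.inl (φ x.2) else Sum.inr x)

@[simp] theorem sb_inl (x₀ : ℚ) (φ : G → V) (a : V) : sb x₀ φ (Sum.inl a) = Sum.inl a := rfl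

theorem sb_self (x₀ : ℚ) (φ : G → V) (g : G) : sb x₀ φ (Sum.inr (x₀, g)) = Sum.inl (φ g) := by
  simp [sb]

theorem sb_of_ne {x₀ x : ℚ} (φ : G → V) (g : G) (h : x ≠ x₀) :
    sb x₀ φ (Sum.inr (x, g)) = Sum.inr (x, g) := by
  simp [sb, h]

/-- two tuples allow a common substitution -/
def SubP (c : Str r K (V ⊕ (ℚ × G))) : Prop :=
  ∀ (t t' : Fin r → V ⊕ (ℚ × G)) (x₀ : ℚ), ∃ φ : G → V,
    c (sb x₀ φ ∘ t) = c t ∧ c (sb x₀ φ ∘ t') = c t'

theorem ext_subP [Finite K] {p : Ultrafilter ℕ} {c : Str r K V} (hc : FullSym (ext (p := p) c)) :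
    SubP (ext (p := p) c) := by
  intro t t' x₀
  obtain ⟨n, h1, h2⟩ := ((ext_sub hc t x₀).and (ext_sub hc t' x₀)).exists
  exact ⟨fun g => g.fn n, h1, h2⟩

/-- transfer of separation to a larger set of columns -/
theorem Sep.transfer {c : Str r K (V ⊕ (ℚ × G))} (hs : SubP c) {Z C Y : Set G}
    (hCZ : C ⊆ Z) (hYC : Y ⊆ C) (hC : Sep c Z C) (hY : Sep c C Y) : Sep c Z Y := by
  classical
  have key : ∀ (n : ℕ) (t : Fin r → V ⊕ (ℚ × G)), (∀ j, t j ∈ EZ Z) →
      ((rows t).filter (fun x => ∃ j g, t j = Sum.inr (x, g) ∧ g ∉ C)).card = n →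
      ∀ x y, c (sw Y x y ∘ t) = c t := by
    intro n
    induction n with
    | zero =>
      intro t ht hn x y
      apply hY x y t
      intro j z g hj
      by_contra hg
      rw [Finset.card_eq_zero] at hn
      have : z ∈ (rows t).filter (fun x => ∃ j g, t j = Sum.inr (x, g) ∧ g ∉ C) :=
        Finset.mem_filter.2 ⟨mem_rows.2 ⟨j, by rw [hj]; rfl⟩, j, g, hj, hg⟩
      rw [hn] at this
      simp at this
    | succ n ih =>
      intro t ht hn x y
      have hne : ((rows t).filter (fun x => ∃ j g, t j = Sum.inr (x, g) ∧ g ∉ C)).Nonempty := by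
        rw [← Finset.card_pos, hn]; omega
      obtain ⟨x₁, hx₁⟩ := hne
      obtain ⟨x₂, hx₂⟩ := exists_fresh_row (insert x₁ (insert x (insert y (rows t))))
      simp only [Finset.mem_insert, not_or] at hx₂
      obtain ⟨h21, h2x, h2y, h2r⟩ := hx₂
      set θ : V ⊕ (ℚ × G) → V ⊕ (ℚ × G) := sw C x₁ x₂ with hθ
      set t' := θ ∘ t with ht'
      set x' := Equiv.swap x₁ x₂ x with hx'
      set y' := Equiv.swap x₁ x₂ y with hy'
      have hx'1 : x' ≠ x₁ := by
        intro h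
        rw [hx', Equiv.swap_apply_eq_iff, Equiv.swap_apply_left] at h
        exact h2x h.symm
      have hy'1 : y' ≠ x₁ := by
        intro h
        rw [hy', Equiv.swap_apply_eq_iff, Equiv.swap_apply_left] at h
        exact h2y h.symm
      have e1 : c t' = c t := hC x₁ x₂ t ht
      have e2 : c (θ ∘ (sw Y x y ∘ t)) = c (sw Y x y ∘ t) :=
        hC x₁ x₂ _ (fun j => sw_mem_EZ (ht j))
      have e3 : θ ∘ (sw Y x y ∘ t) = sw Y x' y' ∘ t' := by
        funext j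
        simp only [Function.comp, ht']
        rcases t j with a | ⟨z, g⟩
        · rfl
        · by_cases hg : g ∈ C
          · by_cases hg' : g ∈ Y
            · rw [sw_mem _ _ hg', hθ, sw_mem _ _ hg, sw_mem _ _ hg, sw_mem _ _ hg']
              rw [hx', hy', (Equiv.injective (Equiv.swap x₁ x₂)).swap_apply x y z]
            · rw [sw_notMem _ _ hg', hθ, sw_mem _ _ hg, sw_notMem _ _ hg']
          · have hg' : g ∉ Y := fun h => hg (hYC h)
            rw [sw_notMem _ _ hg', hθ, sw_notMem _ _ hg, sw_notMem _ _ hg']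
      obtain ⟨φ, hφ1, hφ2⟩ := hs t' (sw Y x' y' ∘ t') x₁
      have hrow : ∀ j g, t' j = Sum.inr (x₁, g) → g ∉ C := by
        intro j g hj hg
        have h1 : t j = Sum.inr (x₂, g) := by
          have h2 : θ (t' j) = t j := sw_sw C x₁ x₂ (t j)
          rw [← h2, hj, hθ, sw_mem _ _ hg, Equiv.swap_apply_left]
        exact h2r (mem_rows.2 ⟨j, by rw [h1]; rfl⟩)
      have e4 : sb x₁ φ ∘ (sw Y x' y' ∘ t') = sw Y x' y' ∘ (sb x₁ φ ∘ t') := by
        funext j
        simp only [Function.comp]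
        rcases hj : t' j with a | ⟨z, g⟩
        · rfl
        · by_cases hz : z = x₁
          · subst hz
            have hg : g ∉ Y := fun h => hrow j g hj (hYC h)
            rw [sw_notMem _ _ hg, sb_self, sw_inl]
          · rw [sb_of_ne _ _ hz]
            by_cases hg : g ∈ Y
            · rw [sw_mem _ _ hg, sb_of_ne]
              intro h
              by_cases h3 : z = x'
              · rw [h3, Equiv.swap_apply_left] at h
                exact hy'1 h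
              · by_cases h4 : z = y'
                · rw [h4, Equiv.swap_apply_right] at h
                  exact hx'1 h
                · rw [Equiv.swap_apply_of_ne_of_ne h3 h4] at h
                  exact hz h
            · rw [sw_notMem _ _ hg, sb_of_ne _ _ hz]
      have ht'Z : ∀ j, t' j ∈ EZ Z := fun j => sw_mem_EZ (ht j)
      have hsbZ : ∀ j, (sb x₁ φ ∘ t') j ∈ EZ Z := by
        intro j
        have h1 := ht'Z j
        simp only [Function.comp]
        rcases hj : t' j with a | ⟨z, g⟩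
        · exact inl_mem_EZ
        · by_cases hz : z = x₁
          · subst hz
            rw [sb_self]
            exact inl_mem_EZ
          · rw [sb_of_ne _ _ hz, ← hj]
            exact h1
      have hcard : ((rows (sb x₁ φ ∘ t')).filter
          (fun x => ∃ j g, (sb x₁ φ ∘ t') j = Sum.inr (x, g) ∧ g ∉ C)).card = n := by
        have : (rows (sb x₁ φ ∘ t')).filter
            (fun x => ∃ j g, (sb x₁ φ ∘ t') j = Sum.inr (x, g) ∧ g ∉ C) =
            ((rows t).filter (fun x => ∃ j g, t j = Sum.inr (x, g) ∧ g ∉ C)).erase x₁ := by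
          ext z
          simp only [Finset.mem_filter, Finset.mem_erase]
          constructor
          · rintro ⟨-, j, g, hj, hg⟩
            simp only [Function.comp] at hj
            rcases hj' : t' j with a | ⟨w, g'⟩
            · rw [hj'] at hj; simp at hj
            · rw [hj'] at hj
              by_cases hw : w = x₁
              · subst hw
                rw [sb_self] at hj; simp at hj
              · rw [sb_of_ne _ _ hw, Sum.inr.injEq, Prod.mk.injEq] at hj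
                obtain ⟨rfl, rfl⟩ := hj
                have h1 : t j = Sum.inr (w, g') := by
                  have h2 : θ (t' j) = t j := sw_sw C x₁ x₂ (t j)
                  rw [← h2, hj', hθ, sw_notMem _ _ hg]
                exact ⟨hw, mem_rows.2 ⟨j, by rw [h1]; rfl⟩, j, g', h1, hg⟩
          · rintro ⟨hz, -, j, g, hj, hg⟩
            have h1 : (sb x₁ φ ∘ t') j = Sum.inr (z, g) := by
              simp only [Function.comp, ht']
              rw [hj, hθ, sw_notMem _ _ hg, sb_of_ne _ _ hz]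
            exact ⟨mem_rows.2 ⟨j, by rw [h1]; rfl⟩, j, g, h1, hg⟩
        rw [this, Finset.card_erase_of_mem hx₁, hn]
        omega
      have h5 := ih (sb x₁ φ ∘ t') hsbZ hcard x' y'
      rw [← e2, e3, ← hφ2, e4, h5, hφ1, e1]
  exact fun x y t ht => key _ t ht rfl x y

theorem indec_of_comp {c : Str r K (V ⊕ (ℚ × G))} (hs : SubP c) {Z C : Finset G} (hCZ : C ⊆ Z)
    (hne : C.Nonempty) (hC : Sep c Z C) (hmin : ∀ Y ⊆ C, Y.Nonempty → Sep c Z Y → Y = C) :
    Indec c C := by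
  refine ⟨hne, fun Y hY hYne hYs => hmin Y hY hYne ?_⟩
  exact Sep.transfer hs (Finset.coe_subset.2 hCZ) (Finset.coe_subset.2 hY) hC hYs

/-- If indecomposable sets of columns have bounded size then every column is contained in a finite
set of columns which is separated from everything. -/
theorem exists_sep_univ {c : Str r K (V ⊕ (ℚ × G))} (hc : FullSym c) (hs : SubP c) (k : ℕ)
    (hk : ∀ C : Finset G, Indec c C → C.card ≤ k) (z : G) :
    ∃ C : Finset G, z ∈ C ∧ Sep c Set.univ C := by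
  classical
  -- sizes of components
  let P : ℕ → Prop := fun m => ∃ Z C : Finset G, z ∈ C ∧ C ⊆ Z ∧ Sep c Z C ∧
    (∀ Y : Finset G, z ∈ Y → Sep c Z Y → C ⊆ Y) ∧ Indec c C ∧ C.card = m
  have hP0 : ∀ Z : Finset G, z ∈ Z → ∃ C : Finset G, z ∈ C ∧ C ⊆ Z ∧ Sep c Z C ∧
      (∀ Y : Finset G, z ∈ Y → Sep c Z Y → C ⊆ Y) ∧ Indec c C := by
    intro Z hz
    obtain ⟨C, h1, h2, h3, h4, h5⟩ := exists_comp hc Z hz
    exact ⟨C, h2, h1, h3, h5, indec_of_comp hs h1 ⟨z, h2⟩ h3 h4⟩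
  have hbd : ∀ m, P m → m ≤ k := by
    rintro m ⟨Z, C, -, -, -, -, h5, rfl⟩
    exact hk C h5
  have hex : ∃ m, P m := by
    obtain ⟨C, h1, h2, h3, h4, h5⟩ := hP0 {z} (by simp)
    exact ⟨_, {z}, C, h1, h2, h3, h4, h5, rfl⟩
  obtain ⟨m, hm, hmax⟩ : ∃ m, P m ∧ ∀ m', P m' → m' ≤ m := by
    obtain ⟨m₀, hm₀⟩ := hex
    exact ⟨Nat.findGreatest P k, Nat.findGreatest_spec (hbd m₀ hm₀) hm₀,
      fun m' hm' => Nat.le_findGreatest (hbd m' hm') hm'⟩
  obtain ⟨Z, C, h1, h2, h3, h4, h5, h6⟩ := hm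
  refine ⟨C, h1, ?_⟩
  intro x y t _
  -- columns of the tuple
  set Z' : Finset G := Z ∪ (Finset.univ.image (fun j => (t j).elim (fun _ => z) (fun v => v.2)))
    with hZ'
  have htZ' : ∀ j, t j ∈ EZ (Z' : Set G) := by
    intro j z' g hj
    rw [hZ']
    refine Finset.mem_coe.2 (Finset.mem_union_right _ (Finset.mem_image.2 ⟨j, Finset.mem_univ j, ?_⟩))
    rw [hj]
    rfl
  have hZZ' : Z ⊆ Z' := Finset.subset_union_left
  obtain ⟨C', g1, g2, g3, g4, g5⟩ := hP0 Z' (hZZ' (h2 h1))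
  have hCC' : C ⊆ C' := by
    apply h4 C' g1
    exact g3.mono (Finset.coe_subset.2 hZZ')
  have hcard : C'.card ≤ C.card := by
    rw [h6]
    exact hmax _ ⟨Z', C', g1, g2, g3, g4, g5, rfl⟩
  rw [Finset.eq_of_subset_of_card_le hCC' hcard]
  exact g3 x y t htZ'

end Pool.Agent.H566V
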