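import Mathlib

/-!
Relational structures coded by a single colouring `c : (Fin r → V) → K`, the class of structures
all whose finite substructures embed into a given structure, and continuum many structures.
-/

set_option autoImplicit false

namespace Pool.Agent.H566V

open Set Filter Topology Cardinal

variable {r : ℕ} {K : Type} {V W X : Type}

/-- structures -/
abbrev Str (r : ℕ) (K V : Type) : Type := (Fin r → V) → K

/-- isomorphism -/
def Isom (c : Str r K V) (d : Str r K W) : Prop := ∃ e : V ≃ W, ∀ t, d (e ∘ t) = c t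

theorem Isom.refl (c : Str r K V) : Isom c c := ⟨Equiv.refl V, fun _ => rfl⟩

theorem Isom.symm {c : Str r K V} {d : Str r K W} (h : Isom c d) : Isom d c := by
  obtain ⟨e, he⟩ := h
  refine ⟨e.symm, fun t => ?_⟩
  rw [← he]
  congr 1
  funext j
  simp

theorem Isom.trans {c : Str r K V} {d : Str r K W} {f : Str r K X} (h : Isom c d)
    (h' : Isom d f) : Isom c f := by
  obtain ⟨e, he⟩ := h
  obtain ⟨e', he'⟩ := h'
  exact ⟨e.trans e', fun t => by rw [← he, ← he']; rfl⟩

/-- every finite substructure of `c` embeds into `S` -/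
def Cls (S : Str r K W) (c : Str r K V) : Prop :=
  ∀ F : Finset V, ∃ e : V → W, Set.InjOn e F ∧ ∀ t : Fin r → V, (∀ j, t j ∈ F) → S (e ∘ t) = c t

theorem Cls.refl (c : Str r K V) : Cls c c := fun _ => ⟨id, injOn_id _, fun _ _ => rfl⟩

theorem Cls.trans {S : Str r K X} {c : Str r K W} {d : Str r K V} (h : Cls S c) (h' : Cls c d) :
    Cls S d := by
  classical
  intro F
  obtain ⟨e, he, he2⟩ := h' F
  obtain ⟨e', he', he2'⟩ := h (F.image e)
  refine ⟨e' ∘ e, ?_, fun t ht => ?_⟩
  · refine he'.comp he (fun x hx => ?_)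
    simp only [Finset.coe_image]
    exact ⟨x, hx, rfl⟩
  · rw [← he2 t ht, ← he2' (e ∘ t) (fun j => Finset.mem_image_of_mem e (ht j))]
    rfl

theorem Cls.pull {S : Str r K W} {c : Str r K V} (h : Cls S c) (ι : X → V)
    (hι : Function.Injective ι) : Cls S (fun t : Fin r → X => c (ι ∘ t)) := by
  classical
  intro F
  obtain ⟨e, he, he2⟩ := h (F.image ι)
  refine ⟨e ∘ ι, ?_, fun t ht => ?_⟩
  · refine he.comp hι.injOn (fun x hx => ?_)
    simp only [Finset.coe_image]
    exact ⟨x, hx, rfl⟩
  · exact he2 (ι ∘ t) (fun j => Finset.mem_image_of_mem ι (ht j))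

/-- continuum many structures on `ℕ` whose finite substructures embed into `S` -/
def Cont (S : Str r K W) : Prop :=
  ∃ g : (ℕ → Bool) → Str r K ℕ, (∀ A, Cls S (g A)) ∧ ∀ A B, Isom (g A) (g B) → A = B

/-- A family indexed by Cantor space with countable isomorphism classes gives continuum many
structures. -/
theorem exists_inj_of_countable_classes {α : Type} (R : α → α → Prop) (hR : Equivalence R)
    (f : (ℕ → Bool) → α) (hc : ∀ A, {B | R (f A) (f B)}.Countable) :
    ∃ g : (ℕ → Bool) → (ℕ → Bool), ∀ A B, R (f (g A)) (f (g B)) → A = B := by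
  classical
  let s : Setoid (ℕ → Bool) := ⟨fun A B => R (f A) (f B), ⟨fun A => hR.refl _,
    fun h => hR.symm h, fun h h' => hR.trans h h'⟩⟩
  set κ : Cardinal.{0} := #(ℕ → Bool) with hκ
  have hκ0 : ℵ₀ < κ := by
    rw [hκ]
    have : #(ℕ → Bool) = 2 ^ ℵ₀ := by simp
    rw [this]
    exact Cardinal.cantor _
  have h1 : κ ≤ #(Quotient s) * ℵ₀ := by
    have e := (Equiv.sigmaFiberEquiv (fun A : ℕ → Bool => (Quotient.mk s A))).symm
    rw [hκ, Cardinal.mk_congr e, Cardinal.mk_sigma]
    have : ∀ q : Quotient s, #{A : ℕ → Bool // Quotient.mk s A = q} ≤ ℵ₀ := by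
      intro q
      induction q using Quotient.inductionOn with
      | _ A =>
        rw [Cardinal.mk_le_aleph0_iff]
        have hs : {B : ℕ → Bool | Quotient.mk s B = Quotient.mk s A} ⊆ {B | R (f A) (f B)} := by
          intro B hB
          exact hR.symm (Quotient.exact hB)
        exact ((hc A).mono hs).to_subtype
    refine (Cardinal.sum_le_sum _ _ this).trans ?_
    rw [Cardinal.sum_const']
  have h2 : κ ≤ #(Quotient s) := by
    by_contra hlt
    push Not at hlt
    exact absurd h1 (not_le.2 (Cardinal.mul_lt_of_lt hκ0.le hlt hκ0))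
  obtain ⟨i⟩ := h2
  refine ⟨fun A => (i A).out, fun A B hAB => ?_⟩
  apply i.injective
  have : Quotient.mk s (i A).out = Quotient.mk s (i B).out := Quotient.sound hAB
  rwa [Quotient.out_eq, Quotient.out_eq] at this

theorem cont_of_family {S : Str r K W} (D : (ℕ → Bool) → Type) (hD : ∀ A, Countable (D A))
    (hD' : ∀ A, Infinite (D A)) (c : ∀ A, Str r K (D A)) (hcls : ∀ A, Cls S (c A))
    (hiso : ∀ A, {B | Isom (c A) (c B)}.Countable) : Cont S := by
  classical
  have he : ∀ A, Nonempty (D A ≃ ℕ) := fun A => by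
    have := hD A
    have := hD' A
    exact nonempty_equiv_of_countable
  let e : ∀ A, D A ≃ ℕ := fun A => Classical.choice (he A)
  let f : (ℕ → Bool) → Str r K ℕ := fun A t => c A ((e A).symm ∘ t)
  have hf : ∀ A, Isom (c A) (f A) := fun A => ⟨e A, fun t => by
    show c A ((e A).symm ∘ (e A) ∘ t) = c A t
    congr 1
    funext j
    simp⟩
  obtain ⟨g, hg⟩ := exists_inj_of_countable_classes (fun a b : Str r K ℕ => Isom a b)
    ⟨fun a => Isom.refl a, fun h => h.symm, fun h h' => h.trans h'⟩ f (fun A => by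
      refine (hiso A).mono (fun B hB => ?_)
      exact ((hf A).trans hB).trans (hf B).symm)
  refine ⟨fun A => f (g A), fun A => ?_, hg⟩
  exact (hcls (g A)).pull _ (e (g A)).symm.injective

end Pool.Agent.H566V
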