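import Pool.Agent.H566V.Str

/-!
Tensor powers of an ultrafilter, indexed by the rationals.
-/

set_option autoImplicit false

namespace Pool.Agent.H566V

open Set Filter Topology

/-- finite tensor powers -/
noncomputable def U (p : Ultrafilter ℕ) : (q : ℕ) → Ultrafilter (Fin q → ℕ)
  | 0 => pure (fun i => i.elim0)
  | q + 1 => p.bind (fun n => (U p q).map (fun w => (Fin.cons n w : Fin (q + 1) → ℕ)))

theorem ev_U_zero {p : Ultrafilter ℕ} (P : (Fin 0 → ℕ) → Prop) :
    (∀ᶠ w in (U p 0 : Filter (Fin 0 → ℕ)), P w) ↔ P (fun i => i.elim0) := by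
  show (∀ᶠ w in (pure (fun i => i.elim0) : Filter (Fin 0 → ℕ)), P w) ↔ _
  rw [Filter.eventually_pure]

theorem ev_U_succ {p : Ultrafilter ℕ} {q : ℕ} (P : (Fin (q + 1) → ℕ) → Prop) :
    (∀ᶠ w in (U p (q + 1) : Filter (Fin (q + 1) → ℕ)), P w) ↔
      ∀ᶠ n in (p : Filter ℕ), ∀ᶠ w in (U p q : Filter (Fin q → ℕ)),
        P (Fin.cons n w : Fin (q + 1) → ℕ) := Iff.rfl

theorem cons_pred {q n : ℕ} (w : Fin q → ℕ) (j : Fin (q + 1)) (h : j ≠ 0) :
    (Fin.cons n w : Fin (q + 1) → ℕ) j = w (j.pred h) := by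
  obtain ⟨j', rfl⟩ := Fin.exists_succ_eq.2 h
  simp

theorem U_comp {p : Ultrafilter ℕ} : ∀ (q k : ℕ) (e : Fin k → Fin q), StrictMono e →
    ∀ P : (Fin k → ℕ) → Prop, (∀ᶠ w in (U p q : Filter (Fin q → ℕ)), P (w ∘ e)) ↔
      ∀ᶠ w in (U p k : Filter (Fin k → ℕ)), P w := by
  intro q
  induction q with
  | zero =>
    intro k e he P
    have hk : k = 0 := by
      by_contra h
      exact (e ⟨0, Nat.pos_of_ne_zero h⟩).elim0
    subst hk
    rw [ev_U_zero, ev_U_zero]
    have : ((fun i : Fin 0 => i.elim0 : Fin 0 → ℕ) ∘ e) = fun i : Fin 0 => i.elim0 := by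
      funext i; exact i.elim0
    rw [this]
  | succ q ih =>
    intro k e he P
    cases k with
    | zero =>
      rw [ev_U_zero]
      have : ∀ w : Fin (q + 1) → ℕ, (w ∘ e) = fun i : Fin 0 => i.elim0 := fun w => by
        funext i; exact i.elim0
      simp only [this]
      simp
    | succ k =>
      by_cases h0 : e 0 = 0
      · have hpos : ∀ i : Fin k, e i.succ ≠ 0 := fun i h => by
          have := he (Fin.succ_pos i)
          rw [h, h0] at this
          exact lt_irrefl _ this
        let e' : Fin k → Fin q := fun i => (e i.succ).pred (hpos i)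
        have he' : StrictMono e' := fun i j hij => by
          simp only [e', Fin.pred_lt_pred_iff]
          exact he (Fin.succ_lt_succ_iff.2 hij)
        rw [ev_U_succ, ev_U_succ]
        have key : ∀ n (w : Fin q → ℕ), ((Fin.cons n w : Fin (q + 1) → ℕ) ∘ e) =
            (Fin.cons n (w ∘ e') : Fin (k + 1) → ℕ) := by
          intro n w
          funext i
          refine Fin.cases ?_ (fun i => ?_) i
          · simp [h0]
          · simp only [Function.comp, Fin.cons_succ, e']
            exact cons_pred w _ (hpos i)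
        simp only [key]
        refine Filter.eventually_congr (Filter.Eventually.of_forall fun n => ?_)
        exact ih k e' he' (fun w => P (Fin.cons n w : Fin (k + 1) → ℕ))
      · have hpos : ∀ i : Fin (k + 1), e i ≠ 0 := fun i h => by
          have : e 0 ≤ e i := he.monotone (Fin.zero_le i)
          rw [h] at this
          exact h0 (le_antisymm this (Fin.zero_le _))
        let e' : Fin (k + 1) → Fin q := fun i => (e i).pred (hpos i)
        have he' : StrictMono e' := fun i j hij => by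
          simp only [e', Fin.pred_lt_pred_iff]
          exact he hij
        rw [ev_U_succ]
        have key : ∀ n (w : Fin q → ℕ), ((Fin.cons n w : Fin (q + 1) → ℕ) ∘ e) = w ∘ e' := by
          intro n w
          funext i
          simp only [Function.comp, e']
          exact cons_pred w _ (hpos i)
        simp only [key]
        have := ih (k + 1) e' he' P
        rw [this]
        simp

/-- place the values `w` at the positions `lam` -/
noncomputable def plc {n : ℕ} (lam : Fin n → ℚ) (w : Fin n → ℕ) : ℚ → ℕ :=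
  open Classical in fun x => if h : ∃ i, lam i = x then w h.choose else 0

theorem plc_apply {n : ℕ} {lam : Fin n → ℚ} (h : Function.Injective lam) (w : Fin n → ℕ)
    (i : Fin n) : plc lam w (lam i) = w i := by
  unfold plc
  have hex : ∃ j, lam j = lam i := ⟨i, rfl⟩
  rw [dif_pos hex]
  congr 1
  exact h hex.choose_spec

noncomputable def WR (p : Ultrafilter ℕ) (R : Finset ℚ) : Ultrafilter (ℚ → ℕ) :=
  (U p R.card).map (plc (R.orderEmbOfFin rfl))

/-- the tensor power of `p` indexed by `ℚ` -/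
noncomputable def W (p : Ultrafilter ℕ) : Ultrafilter (ℚ → ℕ) :=
  (Ultrafilter.of (atTop : Filter (Finset ℚ))).bind (WR p)

theorem ev_W {p : Ultrafilter ℕ} {n : ℕ} {lam : Fin n → ℚ} (hl : StrictMono lam)
    {P : (ℚ → ℕ) → Prop} (hP : ∀ ω ω' : ℚ → ℕ, (∀ i, ω (lam i) = ω' (lam i)) → (P ω ↔ P ω')) :
    (∀ᶠ ω in (W p : Filter (ℚ → ℕ)), P ω) ↔
      ∀ᶠ w in (U p n : Filter (Fin n → ℕ)), P (plc lam w) := by
  classical
  have h1 : (∀ᶠ ω in (W p : Filter (ℚ → ℕ)), P ω) ↔
      ∀ᶠ R in (Ultrafilter.of (atTop : Filter (Finset ℚ)) : Filter (Finset ℚ)),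
        ∀ᶠ w in (U p R.card : Filter (Fin R.card → ℕ)), P (plc (R.orderEmbOfFin rfl) w) := Iff.rfl
  rw [h1]
  have h2 : ∀ᶠ R in (Ultrafilter.of (atTop : Filter (Finset ℚ)) : Filter (Finset ℚ)),
      ((∀ᶠ w in (U p R.card : Filter (Fin R.card → ℕ)), P (plc (R.orderEmbOfFin rfl) w)) ↔
        ∀ᶠ w in (U p n : Filter (Fin n → ℕ)), P (plc lam w)) := by
    refine (Ultrafilter.of_le (atTop : Filter (Finset ℚ))) ?_
    filter_upwards [eventually_ge_atTop (Finset.univ.image lam)] with R hR
    have hmem : ∀ i, lam i ∈ R := fun i => hR (Finset.mem_image_of_mem lam (Finset.mem_univ i))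
    let e : Fin n → Fin R.card := fun i => (R.orderIsoOfFin rfl).symm ⟨lam i, hmem i⟩
    have he : StrictMono e := fun i j hij => by
      apply (R.orderIsoOfFin rfl).symm.strictMono
      exact hl hij
    have hee : ∀ i, R.orderEmbOfFin rfl (e i) = lam i := fun i => by
      have : R.orderEmbOfFin rfl (e i) = ((R.orderIsoOfFin rfl) (e i) : ℚ) := by
        rw [Finset.coe_orderIsoOfFin_apply]
      rw [this]
      simp only [e, OrderIso.apply_symm_apply]
    rw [← U_comp R.card n e he (fun w => P (plc lam w))]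
    refine Filter.eventually_congr (Filter.Eventually.of_forall fun w => ?_)
    apply hP
    intro i
    rw [plc_apply hl.injective]
    have := plc_apply (R.orderEmbOfFin rfl).injective w (e i)
    rw [hee i] at this
    exact this
  constructor
  · intro h
    obtain ⟨R, hR1, hR2⟩ := (h.and h2).exists
    exact hR2.1 hR1
  · intro h
    filter_upwards [h2] with R hR
    exact hR.2 h

/-- Pattern invariance. -/
theorem ev_W_comp {p : Ultrafilter ℕ} {R : Finset ℚ} {f : ℚ → ℚ} (hf : StrictMonoOn f R)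
    {P : (ℚ → ℕ) → Prop} (hP : ∀ ω ω' : ℚ → ℕ, (∀ x ∈ R, ω x = ω' x) → (P ω ↔ P ω')) :
    (∀ᶠ ω in (W p : Filter (ℚ → ℕ)), P (ω ∘ f)) ↔ ∀ᶠ ω in (W p : Filter (ℚ → ℕ)), P ω := by
  classical
  have hmem : ∀ i, R.orderEmbOfFin rfl i ∈ R := fun i => R.orderEmbOfFin_mem rfl i
  have hsurj : ∀ x ∈ R, ∃ i, R.orderEmbOfFin rfl i = x := fun x hx => by
    have : x ∈ Set.range (R.orderEmbOfFin rfl) := by
      rw [Finset.range_orderEmbOfFin]
      exact hx
    exact this
  have hl : StrictMono (fun i => R.orderEmbOfFin rfl i) := (R.orderEmbOfFin rfl).strictMono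
  have hl' : StrictMono (fun i => f (R.orderEmbOfFin rfl i)) := fun i j hij =>
    hf (hmem i) (hmem j) (hl hij)
  rw [ev_W hl (P := P) (fun ω ω' h => hP ω ω' (fun x hx => by
    obtain ⟨i, rfl⟩ := hsurj x hx
    exact h i))]
  rw [ev_W hl' (P := fun ω => P (ω ∘ f)) (fun ω ω' h => hP _ _ (fun x hx => by
    obtain ⟨i, rfl⟩ := hsurj x hx
    exact h i))]
  refine Filter.eventually_congr (Filter.Eventually.of_forall fun w => ?_)
  apply hP
  intro x hx
  obtain ⟨i, rfl⟩ := hsurj x hx
  have h1 := plc_apply hl.injective w i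
  have h2 := plc_apply hl'.injective w i
  exact h2.trans h1.symm

/-- The smallest index is the outermost limit. -/
theorem ev_W_cons {p : Ultrafilter ℕ} {R : Finset ℚ} {x₀ : ℚ} (hx : ∀ x ∈ R, x₀ < x)
    {P : (ℚ → ℕ) → Prop}
    (hP : ∀ ω ω' : ℚ → ℕ, ω x₀ = ω' x₀ → (∀ x ∈ R, ω x = ω' x) → (P ω ↔ P ω')) :
    (∀ᶠ ω in (W p : Filter (ℚ → ℕ)), P ω) ↔
      ∀ᶠ n in (p : Filter ℕ), ∀ᶠ ω in (W p : Filter (ℚ → ℕ)), P (Function.update ω x₀ n) := by
  classical
  have hmem : ∀ i, R.orderEmbOfFin rfl i ∈ R := fun i => R.orderEmbOfFin_mem rfl i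
  have hsurj : ∀ x ∈ R, ∃ i, R.orderEmbOfFin rfl i = x := fun x hx => by
    have : x ∈ Set.range (R.orderEmbOfFin rfl) := by
      rw [Finset.range_orderEmbOfFin]
      exact hx
    exact this
  have hl : StrictMono (fun i => R.orderEmbOfFin rfl i) := (R.orderEmbOfFin rfl).strictMono
  let lam' : Fin (R.card + 1) → ℚ := Fin.cons x₀ (fun i => R.orderEmbOfFin rfl i)
  have hl' : StrictMono lam' := by
    intro i j
    refine Fin.cases ?_ (fun i => ?_) i
    · refine Fin.cases ?_ (fun j => ?_) j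
      · intro h; exact absurd h (lt_irrefl _)
      · intro _
        simp only [lam', Fin.cons_zero, Fin.cons_succ]
        exact hx _ (hmem j)
    · refine Fin.cases ?_ (fun j => ?_) j
      · intro h; exact absurd h (by simp)
      · intro h
        simp only [lam', Fin.cons_succ]
        exact hl (Fin.succ_lt_succ_iff.1 h)
  have e0 : lam' 0 = x₀ := rfl
  have es : ∀ i : Fin R.card, lam' i.succ = R.orderEmbOfFin rfl i := fun i => rfl
  rw [ev_W hl' (P := P) (fun ω ω' h => hP ω ω' (h 0) (fun x hx => by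
    obtain ⟨i, rfl⟩ := hsurj x hx
    exact h i.succ)), ev_U_succ]
  refine Filter.eventually_congr (Filter.Eventually.of_forall fun n => ?_)
  rw [ev_W hl (P := fun ω => P (Function.update ω x₀ n)) (fun ω ω' h => hP _ _ (by simp)
    (fun x hx' => by
      obtain ⟨i, rfl⟩ := hsurj x hx'
      have hne : (R.orderEmbOfFin rfl i) ≠ x₀ := (hx _ (hmem i)).ne'
      rw [Function.update_of_ne hne, Function.update_of_ne hne]
      exact h i))]
  refine Filter.eventually_congr (Filter.Eventually.of_forall fun w => ?_)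
  apply hP
  · have := plc_apply hl'.injective (Fin.cons n w : Fin (R.card + 1) → ℕ) 0
    rw [e0] at this
    rw [this]
    simp
  · intro x hx'
    obtain ⟨i, rfl⟩ := hsurj x hx'
    have hne : (R.orderEmbOfFin rfl i) ≠ x₀ := (hx _ (hmem i)).ne'
    rw [Function.update_of_ne hne]
    have h1 := plc_apply hl'.injective (Fin.cons n w : Fin (R.card + 1) → ℕ) i.succ
    rw [es, Fin.cons_succ] at h1
    exact h1.trans (plc_apply hl.injective w i).symm

/-- one-dimensional marginals -/
theorem ev_W_single {p : Ultrafilter ℕ} (x₀ : ℚ) (P : ℕ → Prop) :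
    (∀ᶠ ω in (W p : Filter (ℚ → ℕ)), P (ω x₀)) ↔ ∀ᶠ n in (p : Filter ℕ), P n := by
  rw [ev_W_cons (R := ∅) (x₀ := x₀) (by simp) (P := fun ω => P (ω x₀))
    (fun ω ω' h _ => by rw [h])]
  simp

end Pool.Agent.H566V
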