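import Pool.Agent.H566V.Unb

/-!
Finiteness of types over the generic rows.
-/

set_option autoImplicit false

namespace Pool.Agent.H566V

open Set Filter Topology

variable {r : ℕ} {K V G W' : Type}

theorem seq_step {X K : Type} [Finite K] (Φ : Set (X → K)) (hΦ : Φ.Infinite) :
    ∃ (w : X) (f : X → K) (v : K) (Φ' : Set (X → K)), f ∈ Φ ∧ Φ' ⊆ Φ ∧ Φ'.Infinite ∧ f w ≠ v ∧
      ∀ f' ∈ Φ', f' w = v := by
  obtain ⟨f₁, h1, f₂, h2, hne⟩ := hΦ.nontrivial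
  obtain ⟨w, hw⟩ := Function.ne_iff.1 hne
  obtain ⟨v, hv⟩ : ∃ v : K, (Φ ∩ {f | f w = v}).Infinite := by
    by_contra hcon
    push Not at hcon
    apply hΦ
    have h3 : Φ ⊆ ⋃ v : K, (Φ ∩ {f | f w = v}) := fun f hf => Set.mem_iUnion.2 ⟨f w, hf, rfl⟩
    exact (Set.finite_iUnion hcon).subset h3
  by_cases h3 : f₁ w = v
  · exact ⟨w, f₂, v, _, h2, Set.inter_subset_left, hv, fun h => hw (h3.trans h.symm),
      fun f' hf' => hf'.2⟩
  · exact ⟨w, f₁, v, _, h1, Set.inter_subset_left, hv, h3, fun f' hf' => hf'.2⟩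

theorem exists_seq {X P K : Type} [Finite K] (M : X → P → K)
    (h : (Set.range (fun ρ : P => fun w : X => M w ρ)).Infinite) :
    ∃ (w : ℕ → X) (ρ : ℕ → P) (v : ℕ → K), (∀ l, M (w l) (ρ l) ≠ v l) ∧
      ∀ l k, l < k → M (w l) (ρ k) = v l := by
  classical
  have hst : ∀ Φ : {Φ : Set (X → K) // Φ.Infinite}, ∃ (w : X) (f : X → K) (v : K)
      (Φ' : {Φ : Set (X → K) // Φ.Infinite}), f ∈ Φ.1 ∧ Φ'.1 ⊆ Φ.1 ∧ f w ≠ v ∧
      ∀ f' ∈ Φ'.1, f' w = v := fun Φ => by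
    obtain ⟨w, f, v, Φ', h1, h2, h3, h4, h5⟩ := seq_step Φ.1 Φ.2
    exact ⟨w, f, v, ⟨Φ', h3⟩, h1, h2, h4, h5⟩
  choose sw' sf sv sΦ h1 h2 h3 h4 using hst
  obtain ⟨Φ, hΦ0, hΦs⟩ : ∃ Φ : ℕ → {Φ : Set (X → K) // Φ.Infinite}, Φ 0 = ⟨_, h⟩ ∧
      ∀ n, Φ (n + 1) = sΦ (Φ n) := ⟨fun n => Nat.rec ⟨_, h⟩ (fun _ Φ => sΦ Φ) n, rfl, fun _ => rfl⟩
  have hanti : ∀ l k, l ≤ k → (Φ k).1 ⊆ (Φ l).1 := by
    intro l k hlk
    induction k, hlk using Nat.le_induction with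
    | base => exact Set.Subset.refl _
    | succ k _ ih => rw [hΦs]; exact (h2 _).trans ih
  have hr : ∀ n, ∃ ρ : P, (fun w => M w ρ) = sf (Φ n) := by
    intro n
    have := hanti 0 n (Nat.zero_le _) (h1 (Φ n))
    rw [hΦ0] at this
    exact this
  choose ρ hρ using hr
  refine ⟨fun n => sw' (Φ n), ρ, fun n => sv (Φ n), fun l => ?_, fun l k hlk => ?_⟩
  · have := congrFun (hρ l) (sw' (Φ l))
    rw [this]
    exact h3 _
  · have := congrFun (hρ k) (sw' (Φ l))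
    rw [this]
    apply h4
    have h5 := hanti (l + 1) k hlk (h1 (Φ k))
    rw [hΦs] at h5
    exact h5

section

variable {p : Ultrafilter ℕ}

theorem omega_lt (hp : (p : Filter ℕ) ≤ atTop) {x y : ℚ} (hxy : x < y) :
    ∀ᶠ ω in (W p : Filter (ℚ → ℕ)), ω x < ω y := by
  rw [ev_W_cons (R := {y}) (x₀ := x) (by simpa using hxy) (P := fun ω => ω x < ω y)
    (fun ω ω' h1 h2 => by rw [h1, h2 y (by simp)])]
  refine Filter.Eventually.of_forall fun n => ?_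
  have h1 := (ev_W_single (p := p) y (fun m => n < m)).2 (hp (eventually_gt_atTop n))
  filter_upwards [h1] with ω hω
  simp only [Function.update_self, Function.update_of_ne hxy.ne']
  exact hω

theorem omega_ne (hp : (p : Filter ℕ) ≤ atTop) {x y : ℚ} (hxy : x ≠ y) :
    ∀ᶠ ω in (W p : Filter (ℚ → ℕ)), ω x ≠ ω y := by
  rcases lt_or_gt_of_ne hxy with h | h
  · exact (omega_lt hp h).mono fun ω hω => hω.ne
  · exact (omega_lt hp h).mono fun ω hω => hω.ne'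

/-- relabelling of rows -/
def kap (l i : ℕ) (q : ℚ) : ℚ := (Nat.pair l (Nat.pair i (Encodable.encode q)) : ℚ)

theorem kap_inj {l i l' i' : ℕ} {q q' : ℚ} (h : kap l i q = kap l' i' q') :
    l = l' ∧ i = i' ∧ q = q' := by
  have h0 : (Nat.pair l (Nat.pair i (Encodable.encode q)) : ℚ) =
    (Nat.pair l' (Nat.pair i' (Encodable.encode q')) : ℚ) := h
  have h1 : Nat.pair l (Nat.pair i (Encodable.encode q)) =
    Nat.pair l' (Nat.pair i' (Encodable.encode q')) := by exact_mod_cast h0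
  obtain ⟨h2, h3⟩ := Nat.pair_eq_pair.1 h1
  obtain ⟨h4, h5⟩ := Nat.pair_eq_pair.1 h3
  exact ⟨h2, h4, Encodable.encode_injective h5⟩

open Classical in
/-- permutation of the labels -/
noncomputable def fs (l : ℕ) (π : Equiv.Perm ℕ) (u : ℚ) : ℚ :=
  if h : ∃ x : ℕ × ℚ, kap l x.1 x.2 = u then kap l (π h.choose.1) h.choose.2 else u

theorem fs_kap (l : ℕ) (π : Equiv.Perm ℕ) (i : ℕ) (q : ℚ) :
    fs l π (kap l i q) = kap l (π i) q := by
  unfold fs
  have h : ∃ x : ℕ × ℚ, kap l x.1 x.2 = kap l i q := ⟨(i, q), rfl⟩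
  rw [dif_pos h]
  obtain ⟨-, h1, h2⟩ := kap_inj h.choose_spec
  rw [h1, h2]

theorem fs_other (l : ℕ) (π : Equiv.Perm ℕ) {u : ℚ} (h : ∀ i q, kap l i q ≠ u) :
    fs l π u = u := by
  unfold fs
  rw [dif_neg]
  rintro ⟨x, hx⟩
  exact h x.1 x.2 hx

theorem fs_inj (l : ℕ) (π : Equiv.Perm ℕ) : Function.Injective (fs l π) := by
  intro u v huv
  by_cases hu : ∃ x : ℕ × ℚ, kap l x.1 x.2 = u
  · obtain ⟨⟨i, q⟩, rfl⟩ := hu
    rw [fs_kap] at huv
    by_cases hv : ∃ x : ℕ × ℚ, kap l x.1 x.2 = v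
    · obtain ⟨⟨i', q'⟩, rfl⟩ := hv
      rw [fs_kap] at huv
      obtain ⟨-, h1, h2⟩ := kap_inj huv
      rw [π.injective h1, h2]
    · push Not at hv
      rw [fs_other l π (fun i q => hv (i, q))] at huv
      exact absurd huv (hv (π i, q))
  · push Not at hu
    rw [fs_other l π (fun i q => hu (i, q))] at huv
    by_cases hv : ∃ x : ℕ × ℚ, kap l x.1 x.2 = v
    · obtain ⟨⟨i', q'⟩, rfl⟩ := hv
      rw [fs_kap] at huv
      exact absurd huv.symm (hu (π i', q'))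
    · push Not at hv
      rw [fs_other l π (fun i q => hv (i, q))] at huv
      exact huv

theorem el_cases (φ : ℕ → V) : (∃ a, (∀ x, (el x φ : E p V) = Sum.inl a) ∧
      ∀ᶠ n in (p : Filter ℕ), φ n = a) ∨
    ∃ g : Gm p V, (∀ x, (el x φ : E p V) = Sum.inr (x, g)) ∧
      ∀ᶠ n in (p : Filter ℕ), g.fn n = φ n := by
  by_cases hc : ∃ a, ∀ᶠ n in (p : Filter ℕ), φ n = a
  · left
    obtain ⟨a, ha⟩ := hc
    exact ⟨a, fun x => el_const ha, ha⟩
  · right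
    obtain ⟨g, h1, h2⟩ := el_of_not_const (x := 0) hc
    refine ⟨g, fun x => ?_, h2⟩
    rw [← el_fn x g]
    apply el_congr
    filter_upwards [h2] with n hn
    exact hn.symm

/-- elements coming from tuples of parameters -/
noncomputable def eA (p : Ultrafilter ℕ) (w : ℕ → Fin r → V) (x : ℚ) (j : Fin r) :
    E p (E p V) := el x (fun l => Sum.inl (w l j))

/-- elements coming from generic tuples -/
noncomputable def eB (ρ : ℕ → Fin r → ℚ × Gm p V) (x : ℚ) (i : ℕ) (j : Fin r) : E p (E p V) :=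
  el x (fun l => Sum.inr (kap l i (ρ l j).1, (ρ l j).2))

/-- permutation of the labels in a row -/
noncomputable def sΦ (p : Ultrafilter ℕ) (V : Type) (x₀ : ℚ) (π : Equiv.Perm ℕ) :
    E p (E p V) → E p (E p V) :=
  Sum.elim Sum.inl (fun y => if y.1 = x₀ then el x₀ (fun l => mv (fs l π) (y.2.fn l))
    else Sum.inr y)

variable {w : ℕ → Fin r → V} {ρ : ℕ → Fin r → ℚ × Gm p V}

theorem eB_inr (hp : (p : Filter ℕ) ≤ atTop) (ρ : ℕ → Fin r → ℚ × Gm p V) (i : ℕ) (j : Fin r) :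
    ∃ g : Gm p (E p V), (∀ x, eB ρ x i j = Sum.inr (x, g)) ∧
      ∀ᶠ l in (p : Filter ℕ), g.fn l = Sum.inr (kap l i (ρ l j).1, (ρ l j).2) := by
  rcases el_cases (p := p) (fun l => (Sum.inr (kap l i (ρ l j).1, (ρ l j).2) : E p V)) with
    ⟨a, -, ha⟩ | h
  · exfalso
    obtain ⟨l, hl⟩ := ha.exists
    obtain ⟨l', hl', hlt⟩ := (ha.and (hp (eventually_gt_atTop l))).exists
    have h1 := hl'.trans hl.symm
    rw [Sum.inr.injEq, Prod.mk.injEq] at h1
    have := (kap_inj h1.1).1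
    omega
  · exact h

theorem sΦ_A (x₀ y : ℚ) (π : Equiv.Perm ℕ) (j : Fin r) :
    sΦ p V x₀ π (eA p w y j) = eA p w y j := by
  rcases el_cases (p := p) (fun l => (Sum.inl (w l j) : E p V)) with ⟨a, h1, -⟩ | ⟨g, h1, h2⟩
  · show sΦ p V x₀ π (el y _) = el y _
    rw [h1]
    rfl
  · show sΦ p V x₀ π (el y _) = el y _
    rw [h1]
    by_cases hy : y = x₀
    · subst hy
      simp only [sΦ, Sum.elim_inr, if_true]
      rw [← h1]
      apply el_congr
      filter_upwards [h2] with l hl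
      rw [hl]
      rfl
    · simp [sΦ, hy]

theorem sΦ_B (hp : (p : Filter ℕ) ≤ atTop) (x₀ : ℚ) (π : Equiv.Perm ℕ) (i : ℕ) (j : Fin r) :
    sΦ p V x₀ π (eB ρ x₀ i j) = eB ρ x₀ (π i) j := by
  obtain ⟨g, h1, h2⟩ := eB_inr hp ρ i j
  rw [h1]
  simp only [sΦ, Sum.elim_inr, if_true]
  unfold eB
  apply el_congr
  filter_upwards [h2] with l hl
  rw [hl, mv_inr, fs_kap]

theorem sΦ_B_ne (hp : (p : Filter ℕ) ≤ atTop) {x₀ y : ℚ} (hy : y ≠ x₀) (π : Equiv.Perm ℕ)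
    (i : ℕ) (j : Fin r) : sΦ p V x₀ π (eB ρ y i j) = eB ρ y i j := by
  obtain ⟨g, h1, h2⟩ := eB_inr hp ρ i j
  rw [h1]
  simp [sΦ, hy]

theorem eB_inj (hp : (p : Filter ℕ) ≤ atTop) {x y : ℚ} {i i' : ℕ} {j j' : Fin r}
    (h : eB ρ x i j = eB ρ y i' j') : i = i' := by
  obtain ⟨g, h1, h2⟩ := eB_inr hp ρ i j
  obtain ⟨g', h1', h2'⟩ := eB_inr hp ρ i' j'
  rw [h1, h1', Sum.inr.injEq, Prod.mk.injEq] at h
  obtain ⟨-, rfl⟩ := h
  obtain ⟨l, h3, h4⟩ := (h2.and h2').exists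
  rw [h3, Sum.inr.injEq, Prod.mk.injEq] at h4
  exact (kap_inj h4.1).2.1

theorem eA_ne_eB (hp : (p : Filter ℕ) ≤ atTop) {x y : ℚ} {i : ℕ} {j j' : Fin r} :
    eA p w x j ≠ eB ρ y i j' := by
  intro h
  obtain ⟨g', h1', h2'⟩ := eB_inr hp ρ i j'
  rcases el_cases (p := p) (fun l => (Sum.inl (w l j) : E p V)) with ⟨a, h1, -⟩ | ⟨g, h1, h2⟩
  · have h3 : eA p w x j = Sum.inl a := h1 x
    rw [h3, h1'] at h
    exact absurd h (by simp)
  · have h3 : eA p w x j = Sum.inr (x, g) := h1 x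
    rw [h3, h1', Sum.inr.injEq, Prod.mk.injEq] at h
    obtain ⟨-, rfl⟩ := h
    obtain ⟨l, h4, h5⟩ := (h2.and h2').exists
    rw [h4] at h5
    exact absurd h5 (by simp)

variable [Finite K]

/-- the permutation of labels in a row is an automorphism -/
theorem sΦ_aut (hp : (p : Filter ℕ) ≤ atTop) {c : Str r K V} (hc : FullSym (ext (p := p) c))
    (x₀ : ℚ) (π : Equiv.Perm ℕ) (t : Fin r → E p (E p V))
    (ht : ∀ l, (∃ y j, t l = eA p w y j) ∨ ∃ y i j, t l = eB ρ y i j) :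
    ext (ext (p := p) c) (sΦ p V x₀ π ∘ t) = ext (ext (p := p) c) t := by
  classical
  have hst : ∀ l, ∃ (y : ℚ) (φ φ' : ℕ → E p V), t l = el y φ ∧ sΦ p V x₀ π (t l) = el y φ' ∧
      ∀ ω : ℚ → ℕ, (y ≠ x₀ → ω y ≠ ω x₀) → φ' (ω y) = mv (fs (ω x₀) π) (φ (ω y)) := by
    intro l
    rcases ht l with ⟨y, j, h⟩ | ⟨y, i, j, h⟩
    · refine ⟨y, fun l => Sum.inl (w l j), fun l => Sum.inl (w l j), h, ?_, ?_⟩
      · rw [h, sΦ_A]
        rfl
      · intro ω _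
        rfl
    · by_cases hy : y = x₀
      · subst hy
        refine ⟨y, fun l => Sum.inr (kap l i (ρ l j).1, (ρ l j).2),
          fun l => Sum.inr (kap l (π i) (ρ l j).1, (ρ l j).2), h, ?_, ?_⟩
        · rw [h, sΦ_B hp]
          rfl
        · intro ω _
          simp only [mv_inr]
          rw [fs_kap]
      · refine ⟨y, fun l => Sum.inr (kap l i (ρ l j).1, (ρ l j).2),
          fun l => Sum.inr (kap l i (ρ l j).1, (ρ l j).2), h, ?_, ?_⟩
        · rw [h, sΦ_B_ne hp hy]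
          rfl
        · intro ω hω
          simp only [mv_inr]
          rw [fs_other]
          intro i' q' h'
          exact hω hy (kap_inj h').1.symm
  choose y φ φ' h1 h2 h3 using hst
  have e1 : t = fun l => el (y l) (φ l) := funext h1
  have e2 : sΦ p V x₀ π ∘ t = fun l => el (y l) (φ' l) := funext h2
  rw [e2]
  apply ext_el
  have h4 := ext_el' (p := p) (ext (p := p) c) y φ
  have h5 : ∀ᶠ ω in (W p : Filter (ℚ → ℕ)), ∀ l, y l ≠ x₀ → ω (y l) ≠ ω x₀ := by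
    rw [Filter.eventually_all]
    intro l
    by_cases hl : y l = x₀
    · exact Filter.Eventually.of_forall fun _ h => absurd hl h
    · exact (omega_ne hp hl).mono fun ω hω _ => hω
  filter_upwards [h4, h5] with ω h6 h7
  rw [← e1] at h6
  rw [← h6]
  have e3 : (fun l => φ' l (ω (y l))) = mv (fs (ω x₀) π) ∘ (fun l => φ l (ω (y l))) := by
    funext l
    exact h3 l ω (h7 l)
  rw [e3]
  exact hc _ _ (fs_inj _ _).injOn

end

end Pool.Agent.H566V
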